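import Pool.Agent.Lib.H47U.Defs

/-! CHUNK A01 (S/M, pure): unique products are inherited by extensions. -/

set_option autoImplicit false

namespace Pool.Agent.H47U

/-- An extension of a unique product group by a unique product group is a unique product group.
PROOF. `A, B` finite non-empty; `hQ` for `A.image f`, `B.image f` gives `a₀ = f a₁`, `b₀ = f b₁`
(`a₁ ∈ A`, `b₁ ∈ B`) with `UniqueMul (A.image f) (B.image f) a₀ b₀`. Let
`A' = {k : f.ker | a₁ * k ∈ A}`, `B' = {k : f.ker | k * b₁ ∈ B}` (finite, contain `1`; e.g. the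
preimages of `A`, `B` under the injective maps `k ↦ a₁ * k`, `k ↦ k * b₁`). `hK` gives
`k₁ ∈ A'`, `k₂ ∈ B'` with `UniqueMul A' B' k₁ k₂`. Then `(a₁ k₁, k₂ b₁)` is unique for `A, B`: if
`a * b = a₁ k₁ k₂ b₁`, `a ∈ A`, `b ∈ B`, then `f a * f b = a₀ * b₀`, so `f a = a₀`, `f b = b₀`,
`a₁⁻¹ a ∈ A'`, `b b₁⁻¹ ∈ B'` and `(a₁⁻¹ a) (b b₁⁻¹) = k₁ k₂`. -/
theorem up_of_ext {G Q : Type} [Group G] [Group Q] (f : G →* Q) (hK : UniqueProds f.ker)
    (hQ : UniqueProds Q) : UniqueProds G := by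
  classical
  constructor
  intro A B hA hB
  obtain ⟨a₀, ha₀, b₀, hb₀, hu⟩ := hQ.uniqueMul_of_nonempty (hA.image f) (hB.image f)
  obtain ⟨a₁, ha₁, rfl⟩ := Finset.mem_image.1 ha₀
  obtain ⟨b₁, hb₁, rfl⟩ := Finset.mem_image.1 hb₀
  have hi1 : Function.Injective fun k : f.ker => a₁ * (k : G) := by
    intro k k' h
    exact Subtype.ext (mul_left_cancel h)
  have hi2 : Function.Injective fun k : f.ker => (k : G) * b₁ := by
    intro k k' h
    exact Subtype.ext (mul_right_cancel h)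
  obtain ⟨k₁, hk₁, k₂, hk₂, hk⟩ := hK.uniqueMul_of_nonempty
    (A := A.preimage _ hi1.injOn) (B := B.preimage _ hi2.injOn)
    ⟨1, by simpa using ha₁⟩ ⟨1, by simpa using hb₁⟩
  rw [Finset.mem_preimage] at hk₁ hk₂
  refine ⟨_, hk₁, _, hk₂, ?_⟩
  intro a b ha hb hab
  have f1 : f a * f b = f a₁ * f b₁ := by
    rw [← map_mul, hab]
    simp only [map_mul, MonoidHom.mem_ker.1 k₁.2, MonoidHom.mem_ker.1 k₂.2, mul_one, one_mul]
  obtain ⟨fa, fb⟩ := hu (Finset.mem_image_of_mem f ha) (Finset.mem_image_of_mem f hb) f1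
  have m1 : a₁⁻¹ * a ∈ f.ker := by
    rw [MonoidHom.mem_ker, map_mul, map_inv, fa, inv_mul_cancel]
  have m2 : b * b₁⁻¹ ∈ f.ker := by
    rw [MonoidHom.mem_ker, map_mul, map_inv, fb, mul_inv_cancel]
  have h3 := @hk ⟨a₁⁻¹ * a, m1⟩ ⟨b * b₁⁻¹, m2⟩
    (by rw [Finset.mem_preimage]; simpa using ha) (by rw [Finset.mem_preimage]; simpa using hb)
    (by
      apply Subtype.ext
      change a₁⁻¹ * a * (b * b₁⁻¹) = (k₁ : G) * (k₂ : G)
      have : a * b = a₁ * (k₁ : G) * ((k₂ : G) * b₁) := hab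
      calc a₁⁻¹ * a * (b * b₁⁻¹) = a₁⁻¹ * (a * b) * b₁⁻¹ := by group
        _ = (k₁ : G) * (k₂ : G) := by rw [this]; group)
  constructor
  · have := congrArg Subtype.val h3.1
    change a = a₁ * (k₁ : G)
    rw [← this]
    change a = a₁ * (a₁⁻¹ * a)
    group
  · have := congrArg Subtype.val h3.2
    change b = (k₂ : G) * b₁
    rw [← this]
    change b = b * b₁⁻¹ * b₁
    group

end Pool.Agent.H47U
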