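import Pool.Agent.Lib.H47U.A01

/-! CHUNK A02 (S, six small lemmas): unique product groups. -/

set_option autoImplicit false

namespace Pool.Agent.H47U

/-- `UniqueProds.of_injective_mulHom`. -/
theorem up_of_injective {G H : Type} [Group G] [Group H] (hH : UniqueProds H) (f : G →* H)
    (hf : Function.Injective f) : UniqueProds G :=
  UniqueProds.of_injective_mulHom (f : G →ₙ* H) hf hH

/-- `up_of_ext` for `SemidirectProduct.rightHom`; its kernel embeds in `N` (`x ↦ x.left` on the
kernel), use `up_of_injective`. -/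
theorem up_semidirect {N G : Type} [Group N] [Group G] (φ : G →* MulAut N) (hN : UniqueProds N)
    (hG : UniqueProds G) : UniqueProds (N ⋊[φ] G) := by
  refine up_of_ext (SemidirectProduct.rightHom (φ := φ)) ?_ hG
  have hr : ∀ x : (SemidirectProduct.rightHom (φ := φ)).ker, (x : N ⋊[φ] G).right = 1 := fun x =>
    x.2
  refine up_of_injective hN
    { toFun := fun x => (x : N ⋊[φ] G).left
      map_one' := rfl
      map_mul' := fun x y => by
        change ((x : N ⋊[φ] G) * (y : N ⋊[φ] G)).left = _
        rw [SemidirectProduct.mul_left, hr x, map_one]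
        rfl } ?_
  intro x y h
  apply Subtype.ext
  apply SemidirectProduct.ext
  · exact h
  · rw [hr x, hr y]

/-- `ℤ` is ordered (or embeds in `ℚ`). -/
theorem up_int : UniqueProds (Multiplicative ℤ) := inferInstance

/-- `up_semidirect`; the functions `S → Multiplicative V`: `UniqueProds.instForall` (or: a `ℚ`-vector
space, instance in `Mathlib/Algebra/Group/UniqueProds/VectorSpace.lean`). -/
theorem up_WG (S V : Type) [Group S] [AddCommGroup V] [Module ℚ V] (hS : UniqueProds S) :
    UniqueProds (WG S V) := by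
  have h : UniqueProds (S → Multiplicative V) := by
    have h0 : UniqueProds (Multiplicative V) := inferInstance
    infer_instance
  exact up_semidirect _ h hS

/-- Unique product groups are torsion-free: if `x` has finite order, `A = B = ⟨x⟩` (finite) has
every product `|A|` times; unique means `|A| = 1`. (If `a₀ b₀` is unique in `⟨x⟩`, then
`(a₀ x) (x⁻¹ b₀) = a₀ b₀` gives `a₀ x = a₀`.) -/
theorem up_torsionfree {G : Type} [Group G] (hG : UniqueProds G) {x : G} (hx : x ≠ 1) :
    ¬ IsOfFinOrder x := by
  classical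
  intro h
  have hfin : (Subgroup.zpowers x : Set G).Finite := finite_zpowers.2 h
  have hne : hfin.toFinset.Nonempty := ⟨1, by simp⟩
  obtain ⟨a₀, ha, b₀, hb, hu⟩ := hG.uniqueMul_of_nonempty hne hne
  rw [Set.Finite.mem_toFinset, SetLike.mem_coe] at ha hb
  have hxm : x ∈ Subgroup.zpowers x := Subgroup.mem_zpowers x
  have h1 : a₀ * x ∈ hfin.toFinset := by
    rw [Set.Finite.mem_toFinset, SetLike.mem_coe]
    exact mul_mem ha hxm
  have h2 : x⁻¹ * b₀ ∈ hfin.toFinset := by
    rw [Set.Finite.mem_toFinset, SetLike.mem_coe]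
    exact mul_mem (inv_mem hxm) hb
  have h3 := hu h1 h2 (by group)
  exact hx (by simpa using h3.1)

/-- `up_torsionfree`, `isOfFinOrder_iff_zpow_eq_one`. -/
theorem zpow_ne_one_of_up {G : Type} [Group G] (hG : UniqueProds G) {x : G} (hx : x ≠ 1) {e : ℤ}
    (he : e ≠ 0) : x ^ e ≠ 1 := fun h =>
  up_torsionfree hG hx (isOfFinOrder_iff_zpow_eq_one.2 ⟨e, he, h⟩)

end Pool.Agent.H47U
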