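import Pool.Agent.Lib.H47U.A02
import Pool.Agent.Lib.H63RA.Amen

/-! CHUNK A03 (M): solvable groups. -/

set_option autoImplicit false

namespace Pool.Agent.H47U

open Pool.Agent.H63RA (Amen)

/-- Powers of a solvable group are solvable. PROOF. For `i : ι` and all `n`,
`(derivedSeries (ι → G) n).map (Pi.evalMonoidHom _ i) ≤ derivedSeries G n`
(`map_derivedSeries_le_derivedSeries`). If `derivedSeries G n = ⊥`, then every
`F ∈ derivedSeries (ι → G) n` has `F i = 1` for all `i`. -/
theorem solvable_pi {ι G : Type} [Group G] (hG : Group.IsSolvable G) :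
    Group.IsSolvable (ι → G) := by
  obtain ⟨n, hn⟩ := hG.solvable
  refine ⟨⟨n, ?_⟩⟩
  rw [eq_bot_iff]
  intro F hF
  rw [Subgroup.mem_bot]
  funext i
  have h := map_derivedSeries_le_derivedSeries (Pi.evalMonoidHom (fun _ : ι => G) i) n
  rw [hn] at h
  have h1 := h (Subgroup.mem_map_of_mem (Pi.evalMonoidHom (fun _ : ι => G) i) hF)
  rw [Subgroup.mem_bot] at h1
  exact h1

/-- Solvable groups are amenable. PROOF. Induction on `n` with `derivedSeries G n = ⊥` for all `G`:
`n = 0`: `G` trivial, hence commutative-like (`Amen` of a group with one element: `F = {1}`; or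
`Amen.of_injective` into a commutative group). `n + 1`: `f = Abelianization.of : G →* _`, kernel
`commutator G`; `Amen.of_ext f (kernel amenable) Amen.of_comm`; the kernel `K` has
`derivedSeries K n = ⊥` because `(derivedSeries K n).map K.subtype = derivedSeries G (n + 1)`
(or: `Group.IsSolvable` of the kernel plus a strictly smaller derived length; any other induction for
solvable groups is fine). -/
theorem amen_of_solvable {G : Type} [Group G] (hG : Group.IsSolvable G) : Amen G := by
  obtain ⟨n, hn⟩ := hG.solvable
  clear hG
  induction n generalizing G with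
  | zero =>
    rw [derivedSeries_zero] at hn
    have hs : ∀ x : G, x = 1 := fun x => by
      have : x ∈ (⊤ : Subgroup G) := Subgroup.mem_top x
      rwa [hn, Subgroup.mem_bot] at this
    have hA : Amen (Multiplicative ℤ) := Amen.of_comm
    refine hA.of_injective (1 : G →* Multiplicative ℤ) ?_
    intro x y _
    rw [hs x, hs y]
  | succ n ih =>
    have hC : Amen (Abelianization G) := Amen.of_comm
    refine Amen.of_ext (Abelianization.of (G := G)) ?_ hC
    apply ih
    rw [eq_bot_iff]
    intro x hx
    rw [Subgroup.mem_bot]
    have key : ∀ m, (derivedSeries (Abelianization.of (G := G)).ker m).map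
        (Abelianization.of (G := G)).ker.subtype ≤ derivedSeries G (m + 1) := by
      intro m
      induction m with
      | zero =>
        rintro _ ⟨y, -, rfl⟩
        rw [zero_add, derivedSeries_one]
        have h1 : ∀ z ∈ (Abelianization.of (G := G)).ker, z ∈ commutator G := by
          intro z hz
          rwa [Abelianization.ker_of] at hz
        exact h1 _ y.2
      | succ m ihm =>
        rw [derivedSeries_succ, Subgroup.map_commutator, derivedSeries_succ G (m + 1)]
        exact Subgroup.commutator_mono ihm ihm
    have h1 := key n (Subgroup.mem_map_of_mem _ hx)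
    rw [hn, Subgroup.mem_bot] at h1
    exact Subtype.ext h1

/-- `Amen.of_ext`. -/
theorem amen_of_ker {T Q : Type} [Group T] [Group Q] (p : T →* Q) (hk : Group.IsSolvable p.ker)
    (hQ : Amen Q) : Amen T :=
  Amen.of_ext p (amen_of_solvable hk) hQ

end Pool.Agent.H47U
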