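import Pool.Agent.Lib.H47U.Defs

/-! CHUNK A04 (S/M, 15 small lemmas): Fox derivatives, words avoiding letters. -/

set_option autoImplicit false

namespace Pool.Agent.H47U

open FreeGroup (of lift)

variable {Q S α α' : Type} [Group Q] [Group S]

/-- `FreeGroup.lift`-uniqueness (`FreeGroup.ext_hom` for `Aff.g ∘ foxHom` and `lift v`). -/
theorem foxHom_g (v : α → Q) (x : α) (w : FreeGroup α) : (foxHom v x w).g = lift v w := by
  let gh : Aff Q →* Q := { toFun := Aff.g, map_one' := rfl, map_mul' := fun _ _ => rfl }
  have h : gh.comp (foxHom v x) = lift v := by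
    apply FreeGroup.ext_hom
    intro y
    simp [gh, foxHom]
  exact DFunLike.congr_fun h w

theorem fox_one (v : α → Q) (x : α) : fox v x 1 = 0 := by
  unfold fox
  rw [map_one]
  rfl

theorem fox_of_self (v : α → Q) (x : α) : fox v x (of x) = 1 := by
  unfold fox foxHom
  simp

theorem fox_of_ne (v : α → Q) {x y : α} (h : y ≠ x) : fox v x (of y) = 0 := by
  unfold fox foxHom
  simp [h]

theorem fox_mul (v : α → Q) (x : α) (w w' : FreeGroup α) :
    fox v x (w * w') = fox v x w + MonoidAlgebra.single (lift v w) 1 * fox v x w' := by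
  unfold fox
  rw [map_mul, Aff.mul_d, foxHom_g]

theorem fox_inv (v : α → Q) (x : α) (w : FreeGroup α) :
    fox v x w⁻¹ = -(MonoidAlgebra.single (lift v w)⁻¹ 1 * fox v x w) := by
  unfold fox
  rw [map_inv, Aff.inv_d, foxHom_g]

/-- Naturality in the group (induction on `w`: `FreeGroup.induction_on` or comparison of homomorphisms
`FreeGroup α →* Aff Q`). -/
theorem fox_map (π : S →* Q) (v : α → S) (x : α) (w : FreeGroup α) :
    fox (fun y => π (v y)) x w = MonoidAlgebra.mapDomain π (fox v x w) := by
  have hl : ∀ u : FreeGroup α, lift (fun y => π (v y)) u = π (lift v u) := by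
    intro u
    have h : lift (fun y => π (v y)) = π.comp (lift v) := by
      apply FreeGroup.ext_hom
      intro y
      simp
    exact DFunLike.congr_fun h u
  have hneg : ∀ f : MonoidAlgebra ℚ S,
      MonoidAlgebra.mapDomain π (-f) = -MonoidAlgebra.mapDomain π f := fun f =>
    (MonoidAlgebra.mapDomainRingHom ℚ π).map_neg f
  induction w using FreeGroup.induction_on with
  | C1 => simp [fox_one]
  | of y =>
    by_cases h : y = x
    · subst h
      rw [fox_of_self, fox_of_self, MonoidAlgebra.one_def, MonoidAlgebra.one_def,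
        MonoidAlgebra.mapDomain_single, map_one]
    · rw [fox_of_ne _ h, fox_of_ne _ h, MonoidAlgebra.mapDomain_zero]
  | inv_of y hy =>
    rw [fox_inv, fox_inv, hy, hneg, MonoidAlgebra.mapDomain_mul, MonoidAlgebra.mapDomain_single,
      hl, map_inv]
  | mul a b ha hb =>
    rw [fox_mul, fox_mul, ha, hb, MonoidAlgebra.mapDomain_add, MonoidAlgebra.mapDomain_mul,
      MonoidAlgebra.mapDomain_single, hl]

/-- Naturality in the alphabet. -/
theorem fox_rename (e : α → α') (he : Function.Injective e) (v : α' → Q) (x : α)
    (w : FreeGroup α) : fox v (e x) (FreeGroup.map e w) = fox (fun y => v (e y)) x w := by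
  induction w using FreeGroup.induction_on with
  | C1 => simp [fox_one]
  | of y =>
    rw [FreeGroup.map.of]
    by_cases h : y = x
    · subst h
      rw [fox_of_self, fox_of_self]
    · rw [fox_of_ne _ h, fox_of_ne _ (fun h' => h (he h'))]
  | inv_of y hy =>
    rw [map_inv, fox_inv, fox_inv, hy]
    simp
  | mul a b ha hb =>
    rw [map_mul, fox_mul, fox_mul, ha, hb]
    have h : (lift v).comp (FreeGroup.map e) = lift (fun y => v (e y)) := by
      apply FreeGroup.ext_hom
      intro y
      simp
    have h' : lift v (FreeGroup.map e a) = lift (fun y => v (e y)) a := DFunLike.congr_fun h a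
    rw [h']

/-- Words avoiding `T`: the value depends only on the letters outside `T`
(`Subgroup.closure_induction`). -/
theorem lift_congr_av {T : Set α} {w : FreeGroup α} (hw : w ∈ Av T) {v v' : α → Q}
    (h : ∀ y, y ∉ T → v y = v' y) : lift v w = lift v' w := by
  unfold Av at hw
  induction hw using Subgroup.closure_induction with
  | mem x hx =>
    obtain ⟨y, hy, rfl⟩ := hx
    rw [FreeGroup.lift_apply_of, FreeGroup.lift_apply_of]
    exact h y hy
  | one => rw [map_one, map_one]
  | mul a b _ _ ha hb => rw [map_mul, map_mul, ha, hb]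
  | inv a _ ha => rw [map_inv, map_inv, ha]

theorem fox_av {T : Set α} {w : FreeGroup α} (hw : w ∈ Av T) {x : α} (hx : x ∈ T) (v : α → Q) :
    fox v x w = 0 := by
  unfold Av at hw
  induction hw using Subgroup.closure_induction with
  | mem z hz =>
    obtain ⟨y, hy, rfl⟩ := hz
    exact fox_of_ne _ (fun h => hy (h ▸ hx))
  | one => exact fox_one _ _
  | mul a b _ _ ha hb => rw [fox_mul, ha, hb, mul_zero, add_zero]
  | inv a _ ha => rw [fox_inv, ha, mul_zero, neg_zero]

/-- The Fox derivative depends only on the values at the letters outside `T` (if `w` avoids `T`). -/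
theorem fox_congr_av {T : Set α} {w : FreeGroup α} (hw : w ∈ Av T) {v v' : α → Q} (x : α)
    (h : ∀ y, y ∉ T → v y = v' y) : fox v x w = fox v' x w := by
  have hw' : w ∈ Subgroup.closure (FreeGroup.of '' Tᶜ) := hw
  induction hw' using Subgroup.closure_induction with
  | mem z hz =>
    obtain ⟨y, hy, rfl⟩ := hz
    by_cases hyx : y = x
    · subst hyx
      rw [fox_of_self, fox_of_self]
    · rw [fox_of_ne _ hyx, fox_of_ne _ hyx]
  | one => rw [fox_one, fox_one]
  | mul a b ha' hb' ha hb =>
    rw [fox_mul, fox_mul, ha ha', hb hb', lift_congr_av ha' h]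
  | inv a ha' ha => rw [fox_inv, fox_inv, ha ha', lift_congr_av ha' h]

theorem Av_anti {T T' : Set α} (h : T ⊆ T') : (Av T' : Subgroup (FreeGroup α)) ≤ Av T := by
  unfold Av
  apply Subgroup.closure_mono
  apply Set.image_mono
  exact Set.compl_subset_compl.mpr h

theorem of_mem_Av {T : Set α} {y : α} (h : y ∉ T) : (of y : FreeGroup α) ∈ Av T := by
  exact Subgroup.subset_closure ⟨y, h, rfl⟩

/-- A word avoiding `T` and avoiding `T'` avoids `T ∪ T'`. PROOF. The endomorphism `κ_T` of the free group
killing the letters in `T` (`lift (fun y => if y ∈ T then 1 else of y)`) fixes the words in `Av T` and maps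
`Av T'` into `Av (T ∪ T')` (`Subgroup.closure_induction`). -/
theorem Av_union {T T' : Set α} {w : FreeGroup α} (h : w ∈ Av T) (h' : w ∈ Av T') :
    w ∈ Av (T ∪ T') := by
  classical
  let κ : FreeGroup α →* FreeGroup α := lift (fun y => if y ∈ T then 1 else of y)
  have h1 : ∀ u ∈ Av T, κ u = u := by
    intro u hu
    unfold Av at hu
    induction hu using Subgroup.closure_induction with
    | mem z hz =>
      obtain ⟨y, hy, rfl⟩ := hz
      have : y ∉ T := hy
      simp [κ, this]
    | one => rw [map_one]
    | mul a b _ _ ha hb => rw [map_mul, ha, hb]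
    | inv a _ ha => rw [map_inv, ha]
  have h2 : ∀ u ∈ Av T', κ u ∈ Av (T ∪ T') := by
    intro u hu
    unfold Av at hu
    induction hu using Subgroup.closure_induction with
    | mem z hz =>
      obtain ⟨y, hy, rfl⟩ := hz
      have hy' : y ∉ T' := hy
      by_cases hyT : y ∈ T
      · simp [κ, hyT, one_mem]
      · simp only [κ, FreeGroup.lift_apply_of, hyT, if_false]
        exact of_mem_Av (by simp [hyT, hy'])
    | one => rw [map_one]; exact one_mem _
    | mul a b _ _ ha hb => rw [map_mul]; exact mul_mem ha hb
    | inv a _ ha => rw [map_inv]; exact inv_mem ha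
  have := h2 w h'
  rwa [h1 w h] at this

/-- Renaming: `FreeGroup.map e` maps `Av T` into `Av T'` if `e y ∉ T'` for `y ∉ T`. -/
theorem map_mem_Av {T : Set α} {T' : Set α'} {e : α → α'} (h : ∀ y, y ∉ T → e y ∉ T')
    {w : FreeGroup α} (hw : w ∈ Av T) : FreeGroup.map e w ∈ Av T' := by
  unfold Av at hw
  induction hw using Subgroup.closure_induction with
  | mem z hz =>
    obtain ⟨y, hy, rfl⟩ := hz
    rw [FreeGroup.map.of]
    exact of_mem_Av (h y hy)
  | one => rw [map_one]; exact one_mem _
  | mul a b _ _ ha hb => rw [map_mul]; exact mul_mem ha hb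
  | inv a _ ha => rw [map_inv]; exact inv_mem ha

end Pool.Agent.H47U
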