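import Pool.Agent.Lib.H47U.Defs

/-! CHUNK A05 (M, pure): the group algebra acts on functions; solving `δ • m = m'`. -/

set_option autoImplicit false

namespace Pool.Agent.H47U

variable {S V : Type} [Group S] [AddCommGroup V] [Module ℚ V]

/-- `(δ • m) x = ∑_g δ_g m (g⁻¹ x)`. -/
noncomputable def con (δ : MonoidAlgebra ℚ S) (m : S → V) : S → V :=
  fun x => δ.coeff.sum fun g c => c • m (g⁻¹ * x)

theorem con_zero (m : S → V) : con (0 : MonoidAlgebra ℚ S) m = 0 := by
  funext x
  simp [con]

theorem con_single (g : S) (c : ℚ) (m : S → V) (x : S) :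
    con (MonoidAlgebra.single g c) m x = c • m (g⁻¹ * x) := by
  simp [con, Finsupp.sum_single_index]

theorem con_add (δ δ' : MonoidAlgebra ℚ S) (m : S → V) : con (δ + δ') m = con δ m + con δ' m := by
  funext x
  simp only [con, Pi.add_apply, MonoidAlgebra.coeff_add]
  exact Finsupp.sum_add_index' (fun _ => zero_smul _ _) (fun _ _ _ => add_smul _ _ _)

theorem con_neg (δ : MonoidAlgebra ℚ S) (m : S → V) : con (-δ) m = -con δ m := by
  rw [eq_neg_iff_add_eq_zero, ← con_add, neg_add_cancel, con_zero]

/-- (Induct on `δ`, e.g. `MonoidAlgebra.induction_linear` / `Finsupp.induction_linear`.) -/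
theorem con_single_mul (g : S) (δ : MonoidAlgebra ℚ S) (m : S → V) (x : S) :
    con (MonoidAlgebra.single g 1 * δ) m x = con δ m (g⁻¹ * x) := by
  induction δ using MonoidAlgebra.induction_linear with
  | zero => rw [mul_zero, con_zero]; rfl
  | add δ δ' h h' => rw [mul_add, con_add, con_add, Pi.add_apply, Pi.add_apply, h, h']
  | single a c =>
    rw [MonoidAlgebra.single_mul_single, con_single, con_single, one_mul, mul_inv_rev, mul_assoc]

/-- The linear extension of a function. -/
noncomputable def a05L (m : S → V) : MonoidAlgebra ℚ S →ₗ[ℚ] V where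
  toFun y := y.coeff.sum fun x c => c • m x
  map_add' y z := by
    rw [MonoidAlgebra.coeff_add]
    exact Finsupp.sum_add_index' (fun _ => zero_smul _ _) (fun _ _ _ => add_smul _ _ _)
  map_smul' c y := by
    have h := Finsupp.sum_smul_index (g := y.coeff) (b := c)
      (h := fun (x : S) (c : ℚ) => c • m x) (fun i => zero_smul _ _)
    rw [MonoidAlgebra.coeff_smul, h, Finsupp.smul_sum]
    refine Finsupp.sum_congr fun x _ => ?_
    rw [mul_smul, RingHom.id_apply]

theorem a05L_single (m : S → V) (x : S) (c : ℚ) :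
    a05L m (MonoidAlgebra.single x c) = c • m x := by
  exact Finsupp.sum_single_index (h := fun (x : S) (c : ℚ) => c • m x) (zero_smul _ _)

theorem a05_key (δ : MonoidAlgebra ℚ S) (m : S → V) (x : S) :
    a05L m (MonoidAlgebra.mapDomain (fun g : S => g⁻¹) δ * MonoidAlgebra.single x 1) =
      con δ m x := by
  induction δ using MonoidAlgebra.induction_linear with
  | zero => rw [MonoidAlgebra.mapDomain_zero, zero_mul, map_zero, con_zero]; rfl
  | add δ δ' h h' =>
    rw [MonoidAlgebra.mapDomain_add, add_mul, map_add, h, h', con_add, Pi.add_apply]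
  | single a c =>
    rw [MonoidAlgebra.mapDomain_single, MonoidAlgebra.single_mul_single, a05L_single, con_single,
      mul_one]

/-- PROOF. Let `δ' = ∑_g δ_g g⁻¹` (non-zero), `T : ℚ[S] → ℚ[S]`, `T y = δ' * y`, linear and injective,
because `ℚ[S]` has no zero divisors (instance from `UniqueProds S`). Let
`L : (S → V) → (ℚ[S] →ₗ[ℚ] V)`, `L m (∑ c_x x) = ∑ c_x • m x` (`Finsupp.lift` / `Finsupp.lsum`). Then
`L m (T (single x 1)) = ∑_g δ_g m (g⁻¹ x) = con δ m x`. Choose a linear left inverse `T'` of `T`
(`LinearMap.exists_leftInverse_of_injective`); for given `m'` put `m x = (L m') (T' (single x 1))`,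
i.e. `L m = L m' ∘ T'`. Then `con δ m x = L m (T (single x 1)) = L m' (single x 1) = m' x`. -/
theorem con_surj (hS : UniqueProds S) {δ : MonoidAlgebra ℚ S} (hδ : δ ≠ 0) :
    Function.Surjective (con δ : (S → V) → (S → V)) := by
  intro m'
  have hδ' : MonoidAlgebra.mapDomain (fun g : S => g⁻¹) δ ≠ 0 := by
    intro h
    apply hδ
    apply MonoidAlgebra.mapDomain_injective (R := ℚ) inv_injective
    rw [h, MonoidAlgebra.mapDomain_zero]
  set T : MonoidAlgebra ℚ S →ₗ[ℚ] MonoidAlgebra ℚ S :=
    LinearMap.mulLeft ℚ (MonoidAlgebra.mapDomain (fun g : S => g⁻¹) δ) with hT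
  have hinj : Function.Injective T := by
    intro y z hyz
    exact mul_left_cancel₀ hδ' hyz
  obtain ⟨T', hT'⟩ := LinearMap.exists_leftInverse_of_injective T (LinearMap.ker_eq_bot.2 hinj)
  refine ⟨fun x => a05L m' (T' (MonoidAlgebra.single x 1)), ?_⟩
  set m : S → V := fun x => a05L m' (T' (MonoidAlgebra.single x 1)) with hm
  have hL : ∀ y, a05L m y = a05L m' (T' y) := by
    intro y
    induction y using MonoidAlgebra.induction_linear with
    | zero => rw [map_zero, map_zero, map_zero]
    | add y z h h' => rw [map_add, map_add, map_add, h, h']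
    | single a c =>
      rw [a05L_single, hm]
      change c • a05L m' (T' (MonoidAlgebra.single a 1)) = _
      rw [← map_smul, ← map_smul, MonoidAlgebra.smul_single, smul_eq_mul, mul_one]
  funext x
  rw [← a05_key, hL]
  have h1 : T' (T (MonoidAlgebra.single x 1)) = MonoidAlgebra.single x 1 :=
    LinearMap.congr_fun hT' _
  have h2 : T (MonoidAlgebra.single x 1) =
      MonoidAlgebra.mapDomain (fun g : S => g⁻¹) δ * MonoidAlgebra.single x 1 := rfl
  rw [← h2, h1, a05L_single, one_smul]

end Pool.Agent.H47U
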