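import Pool.Agent.Lib.H47U.A04
import Pool.Agent.Lib.H47U.A05

/-! CHUNK A06 (M): the effect of a change of one letter in `WG S V`. -/

set_option autoImplicit false

namespace Pool.Agent.H47U

open FreeGroup (of lift)

variable {S V α : Type} [Group S] [AddCommGroup V] [Module ℚ V]

/-- If `v'` differs from `v` only at `x`, and there only by `m` in the left component, then the left
component of the value of `w` changes by `(∂w/∂x) • m`. PROOF. Let
`C w : (lift v' w).right = (lift v w).right ∧ ∀ s, …`. Show `C` for `of y` (`con (fox …)` is `m` for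
`y = x` by `con_single` as `1 = single 1 1`, and `0` for `y ≠ x`), `C (w * w')` from `C w`, `C w'`
(`SemidirectProduct.mul_left`, `mulAutArrow` acts by `F ↦ F (g⁻¹ • ·)`; `fox_mul`, `con_add`,
`con_single_mul`, `(lift v w).right = lift (fun y => (v y).right) w`), `C w⁻¹` from `C w` (or:
`FreeGroup.induction_on`). -/
theorem aff_formula (v v' : α → WG S V) (x : α) (hne : ∀ y, y ≠ x → v' y = v y) (m : S → V)
    (hr : (v' x).right = (v x).right)
    (hl : ∀ s, Multiplicative.toAdd ((v' x).left s) = Multiplicative.toAdd ((v x).left s) + m s)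
    (w : FreeGroup α) :
    (lift v' w).right = (lift v w).right ∧ ∀ s, Multiplicative.toAdd ((lift v' w).left s) =
      Multiplicative.toAdd ((lift v w).left s) + con (fox (fun y => (v y).right) x w) m s := by
  have hlr : ∀ w : FreeGroup α, (lift v w).right = lift (fun y => (v y).right) w := by
    intro w
    have h : (SemidirectProduct.rightHom.comp (lift v) : FreeGroup α →* S)
        = lift (fun y => (v y).right) := by
      ext y
      simp
    exact DFunLike.congr_fun h w
  have act : ∀ (g : S) (F : S → Multiplicative V) (s : S),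
      (mulAutArrow g F) s = F (g⁻¹ * s) := fun g F s => rfl
  induction w using FreeGroup.induction_on with
  | C1 =>
    refine ⟨by rw [map_one, map_one], fun s => ?_⟩
    rw [map_one, map_one, fox_one, con_zero]
    simp
  | of y =>
    show (lift v' (of y)).right = (lift v (of y)).right ∧ ∀ s, Multiplicative.toAdd
      ((lift v' (of y)).left s) = Multiplicative.toAdd ((lift v (of y)).left s) +
        con (fox (fun y => (v y).right) x (of y)) m s
    rw [FreeGroup.lift_apply_of, FreeGroup.lift_apply_of]
    by_cases hy : y = x
    · subst hy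
      refine ⟨hr, fun s => ?_⟩
      rw [hl, fox_of_self, MonoidAlgebra.one_def, con_single]
      simp
    · rw [hne y hy]
      refine ⟨rfl, fun s => ?_⟩
      rw [fox_of_ne _ hy, con_zero]
      simp
  | inv_of y ih =>
    obtain ⟨h1, h2⟩ := ih
    generalize (pure y : FreeGroup α) = w at h1 h2 ⊢
    refine ⟨by rw [map_inv, map_inv, SemidirectProduct.inv_right, SemidirectProduct.inv_right,
      h1], fun s => ?_⟩
    rw [map_inv, map_inv, SemidirectProduct.inv_left, SemidirectProduct.inv_left, act, act,
      fox_inv, con_neg, h1, inv_inv]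
    simp only [Pi.inv_apply, toAdd_inv, Pi.neg_apply]
    rw [con_single_mul, inv_inv, h2, ← hlr]
    abel
  | mul w w' ih ih' =>
    obtain ⟨h1, h2⟩ := ih
    obtain ⟨h1', h2'⟩ := ih'
    refine ⟨by rw [map_mul, map_mul, SemidirectProduct.mul_right, SemidirectProduct.mul_right,
      h1, h1'], fun s => ?_⟩
    rw [map_mul, map_mul, SemidirectProduct.mul_left, SemidirectProduct.mul_left,
      fox_mul, con_add, Pi.mul_apply, Pi.mul_apply, toAdd_mul, toAdd_mul, act, act, h1,
      Pi.add_apply, con_single_mul, h2, h2', ← hlr]
    abel

end Pool.Agent.H47U
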