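import Pool.Agent.Lib.H47U.A02
import Pool.Agent.Lib.H47U.A06

/-! CHUNK A07 (M): `WG S V` is admissible. -/

set_option autoImplicit false

namespace Pool.Agent.H47U

open FreeGroup (of lift)

variable {Q S : Type} [Group Q] [Group S]

/-- (`s = q`: take `v' = b`, `v' y = v y` for `y ≠ x` by hypothesis.) -/
theorem adm_id (hQ : UniqueProds Q) : Adm (MonoidHom.id Q) := by
  refine ⟨hQ, hQ, Function.surjective_id, ?_, ?_⟩
  · have : Subsingleton (MonoidHom.id Q).ker := by
      refine ⟨fun a b => Subtype.ext ?_⟩
      have ha : MonoidHom.id Q a.1 = 1 := a.2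
      have hb : MonoidHom.id Q b.1 = 1 := b.2
      exact ha.trans hb.symm
    infer_instance
  · intro α w x v b hv hw _
    exact ⟨b, fun y => rfl, fun y hy => (hv y hy).symm, hw⟩

/-- PROOF. `up`: `up_WG`. `surj`: composition of surjections. `solv`: the kernel `K` of the composition
is mapped by `rightHom` into `π.ker` (solvable) with kernel commutative (elements with `right = 1`);
`Group.IsSolvable` of an extension (`solvable_of_ker_le_range` or similar). `lp`: given `w, x, v, b`;
first `lp` of `π` for `y ↦ (v y).right` gives `u : α → S`, `π (u y) = b y`, `u y = (v y).right` for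
`y ≠ x`, `lift u w = 1`. Let `v₁ y = v y` for `y ≠ x`, `v₁ x = ⟨1, u x⟩`, so `(v₁ y).right = u y` and
`(lift v₁ w).right = 1`. `δ = fox u x w ≠ 0`, since `mapDomain π δ = fox b x w ≠ 0` (`fox_map`). By
`con_surj` choose `m` with `con δ m s = - toAdd ((lift v₁ w).left s)`; let `v₂ = v₁` except
`v₂ x = ⟨fun s => ofAdd (m s), u x⟩`. By `aff_formula`, `lift v₂ w = 1`. -/
theorem adm_WG {π : S →* Q} (h : Adm π) (V : Type) [AddCommGroup V] [Module ℚ V] :
    Adm (π.comp (SemidirectProduct.rightHom : WG S V →* S)) := by
  classical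
  refine ⟨up_WG S V h.up, h.upQ, ?_, ?_, ?_⟩
  · exact h.surj.comp SemidirectProduct.rightHom_surjective
  · have := h.solv
    let g : (π.comp (SemidirectProduct.rightHom : WG S V →* S)).ker →* π.ker :=
      ((SemidirectProduct.rightHom : WG S V →* S).comp
        (π.comp (SemidirectProduct.rightHom : WG S V →* S)).ker.subtype).codRestrict π.ker
        fun e => e.2
    let f : (S → Multiplicative V) →* (π.comp (SemidirectProduct.rightHom : WG S V →* S)).ker :=
      (SemidirectProduct.inl : (S → Multiplicative V) →* WG S V).codRestrict _ fun a => by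
        rw [MonoidHom.mem_ker, MonoidHom.comp_apply, SemidirectProduct.rightHom_inl, map_one]
    refine Group.isSolvable_of_ker_le_range f g ?_
    intro e he
    have he' : (e.1 : WG S V).right = 1 := congrArg Subtype.val ((MonoidHom.mem_ker).1 he)
    refine ⟨(e.1 : WG S V).left, Subtype.ext ?_⟩
    exact SemidirectProduct.ext rfl he'.symm
  · intro α w x v b hv hw hf
    obtain ⟨u, hu1, hu2, hu3⟩ := h.lp α w x (fun y => (v y).right) b hv hw hf
    set v₁ : α → WG S V := fun y => if y = x then ⟨1, u x⟩ else v y with hv₁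
    have hv₁x : v₁ x = ⟨1, u x⟩ := by simp [hv₁]
    have hv₁y : ∀ y, y ≠ x → v₁ y = v y := fun y hy => by simp [hv₁, hy]
    have hr : (fun y => (v₁ y).right) = u := by
      funext y
      by_cases hy : y = x
      · subst hy
        rw [hv₁x]
      · rw [hv₁y y hy, hu2 y hy]
    have hδ : fox u x w ≠ 0 := by
      intro h0
      apply hf
      have h1 := fox_map π u x w
      rw [h0, MonoidAlgebra.mapDomain_zero] at h1
      rw [← h1]
      congr 1
      funext y
      exact (hu1 y).symm
    obtain ⟨m, hm⟩ := con_surj (V := V) h.up hδ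
      (fun s => - Multiplicative.toAdd ((lift v₁ w).left s))
    set v₂ : α → WG S V := fun y => if y = x then ⟨fun s => Multiplicative.ofAdd (m s), u x⟩
      else v y with hv₂
    have hv₂x : v₂ x = ⟨fun s => Multiplicative.ofAdd (m s), u x⟩ := by simp [hv₂]
    have hv₂y : ∀ y, y ≠ x → v₂ y = v y := fun y hy => by simp [hv₂, hy]
    have hlr : (lift v₁ w).right = 1 := by
      have h1 : (SemidirectProduct.rightHom.comp (lift v₁) : FreeGroup α →* S) = lift u := by
        ext y
        simp only [MonoidHom.comp_apply, FreeGroup.lift_apply_of, SemidirectProduct.rightHom_eq_right]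
        exact congrFun hr y
      exact (DFunLike.congr_fun h1 w).trans hu3
    obtain ⟨h1, h2⟩ := aff_formula v₁ v₂ x (fun y hy => by rw [hv₁y y hy, hv₂y y hy]) m
      (by rw [hv₁x, hv₂x]) (fun s => by rw [hv₁x, hv₂x]; simp) w
    refine ⟨v₂, ?_, hv₂y, ?_⟩
    · intro y
      by_cases hy : y = x
      · subst hy
        rw [hv₂x]
        exact hu1 y
      · rw [hv₂y y hy]
        exact hv y hy
    · apply SemidirectProduct.ext
      · funext s
        have h3 := h2 s
        rw [hr, hm] at h3
        simp only [add_neg_cancel] at h3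
        exact h3
      · rw [h1, hlr]
        rfl

end Pool.Agent.H47U
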