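import Pool.Agent.Lib.H47U.A02

/-! CHUNK A08 (M): fibre products of admissible groups. -/

set_option autoImplicit false

namespace Pool.Agent.H47U

open FreeGroup (of lift)

variable {Q : Type} [Group Q]

/-- PROOF. `S = {(a, b) | π₁ a = π₂ b}`, a subgroup of `S₁ × S₂` (`MonoidHom.eqLocus`), `p₁, p₂` the
projections, `π = π₁ ∘ p₁`. `up`: `up_of_injective` and `Prod.instUniqueProds`. `surj`: both are
surjective. `solv`: the kernel of `π` embeds in `π₁.ker × π₂.ker`. `lp`: solve in both factors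
(`v₁ = p₁ ∘ v`, `v₂ = p₂ ∘ v`), `v' y = (v₁' y, v₂' y)` (both lie over `b y`);
`lift v' w = (lift v₁' w, lift v₂' w)`. Universal property: `f = (f₁, f₂)`. -/
theorem adm_fib {S₁ S₂ : Type} [Group S₁] [Group S₂] {π₁ : S₁ →* Q} {π₂ : S₂ →* Q} (h₁ : Adm π₁)
    (h₂ : Adm π₂) : ∃ (S : Type) (_ : Group S) (π : S →* Q) (p₁ : S →* S₁) (p₂ : S →* S₂),
      Adm π ∧ π₁.comp p₁ = π ∧ π₂.comp p₂ = π ∧
      ∀ (P : Type) [Group P] (f₁ : P →* S₁) (f₂ : P →* S₂), π₁.comp f₁ = π₂.comp f₂ →
        ∃ f : P →* S, p₁.comp f = f₁ ∧ p₂.comp f = f₂ := by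
  classical
  set E : Subgroup (S₁ × S₂) := MonoidHom.eqLocus (π₁.comp (MonoidHom.fst S₁ S₂))
    (π₂.comp (MonoidHom.snd S₁ S₂)) with hE
  have hmem : ∀ e : S₁ × S₂, e ∈ E ↔ π₁ e.1 = π₂ e.2 := fun e => Iff.rfl
  let p₁ : E →* S₁ := (MonoidHom.fst S₁ S₂).comp E.subtype
  let p₂ : E →* S₂ := (MonoidHom.snd S₁ S₂).comp E.subtype
  have hp₁ : ∀ e : E, p₁ e = e.1.1 := fun e => rfl
  have hp₂ : ∀ e : E, p₂ e = e.1.2 := fun e => rfl
  have h12 : ∀ e : E, π₁ (p₁ e) = π₂ (p₂ e) := fun e => e.2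
  have hext : ∀ e e' : E, p₁ e = p₁ e' → p₂ e = p₂ e' → e = e' :=
    fun e e' h h' => Subtype.ext (Prod.ext h h')
  refine ⟨E, inferInstance, π₁.comp p₁, p₁, p₂, ?_, rfl, ?_, ?_⟩
  · refine ⟨?_, h₁.upQ, ?_, ?_, ?_⟩
    · have := h₁.up
      have := h₂.up
      exact up_of_injective (G := E) (H := S₁ × S₂) inferInstance E.subtype
        E.subtype_injective
    · intro q
      obtain ⟨a, ha⟩ := h₁.surj q
      obtain ⟨b, hb⟩ := h₂.surj q
      exact ⟨⟨(a, b), (hmem (a, b)).2 (ha.trans hb.symm)⟩, ha⟩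
    · have := h₁.solv
      have := h₂.solv
      let F : (π₁.comp p₁).ker →* π₁.ker × π₂.ker :=
        MonoidHom.prod
          ((p₁.comp (π₁.comp p₁).ker.subtype).codRestrict π₁.ker fun e => e.2)
          ((p₂.comp (π₁.comp p₁).ker.subtype).codRestrict π₂.ker fun e => by
            rw [MonoidHom.mem_ker]
            have h := e.2
            rw [MonoidHom.mem_ker] at h
            exact (h12 e.1).symm.trans h)
      have hF : Function.Injective F := by
        intro e e' h
        have h1 := congrArg (fun z => z.1.1) h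
        have h2 := congrArg (fun z => z.2.1) h
        exact Subtype.ext (hext _ _ h1 h2)
      exact Group.isSolvable_of_isSolvable_injective hF
    · intro α w x v b hv hw hf
      obtain ⟨v₁, a1, a2, a3⟩ := h₁.lp α w x (fun y => p₁ (v y)) b hv hw hf
      obtain ⟨v₂, b1, b2, b3⟩ := h₂.lp α w x (fun y => p₂ (v y)) b
        (fun y hy => (h12 (v y)).symm.trans (hv y hy)) hw hf
      let v' : α → E := fun y => ⟨(v₁ y, v₂ y), (hmem _).2 ((a1 y).trans (b1 y).symm)⟩
      refine ⟨v', a1, fun y hy => hext _ _ (a2 y hy) (b2 y hy), ?_⟩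
      apply hext
      · rw [map_one, ← a3]
        have : p₁.comp (lift v') = lift v₁ := by
          ext y
          simp only [MonoidHom.comp_apply, FreeGroup.lift_apply_of]
          rfl
        exact DFunLike.congr_fun this w
      · rw [map_one, ← b3]
        have : p₂.comp (lift v') = lift v₂ := by
          ext y
          simp only [MonoidHom.comp_apply, FreeGroup.lift_apply_of]
          rfl
        exact DFunLike.congr_fun this w
  · exact MonoidHom.ext fun e => (h12 e).symm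
  · intro P _ f₁ f₂ hf
    refine ⟨(f₁.prod f₂).codRestrict E fun p => (hmem _).2 (DFunLike.congr_fun hf p), ?_, ?_⟩
    · exact MonoidHom.ext fun p => rfl
    · exact MonoidHom.ext fun p => rfl

end Pool.Agent.H47U
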