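import Pool.Agent.Lib.H47U.Defs
import Pool.Agent.Lib.H63RA.TowerStep

/-! CHUNK B01 (S/M): one step of the Magnus tower, explicit form. -/

set_option autoImplicit false

open HNNExtension

namespace Pool.Agent.H47U

open Pool.Agent.H63RA

variable {H : Type} [Group H] {A B : Subgroup H} {φ : A ≃* B}

open TStep in
/-- This is the last item of `Pool.Agent.H63RA.tower_step` (file `Lib/H63RA/TowerStep.lean`), with the
explicit group `TStep.G' f` and homomorphism `TStep.f' f`: COPY the last bullet of its proof. -/
theorem tower_step' {Γ : Type} [Group Γ] (f : HNNExtension H A B φ →* Γ) (l : List (ℤˣ × H))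
    (hch : l.IsChain (Red A B)) (hne : l ≠ []) (hgood : ∀ p ∈ l, Good f p.2)
    (hyp : ∀ l' : List (ℤˣ × H), l' <:+: l → l' ≠ [] → l'.length + 2 ≤ l.length →
      ∀ h : H, f (wprod φ l') ≠ f (of h)) (h : H) :
    TStep.f' f (wprod φ l) ≠ TStep.f' f (of h) := by
  intro heq
  cases l with
  | nil => exact hne rfl
  | cons p m =>
    obtain ⟨u, g⟩ := p
    have h0 : Multiplicative.toAdd ((TStep.f' f (wprod φ ((u, g) :: m))).left (pos f u)) = 0 := by
      rw [heq, f'_of]; simp
    rw [wprod_cons, left_mul, left_letter, if_pos rfl] at h0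
    by_contra _
    have key : ¬ ((((-u : ℤˣ) : ℤ)) * Multiplicative.toAdd ((TStep.f' f (wprod φ m)).left
        ((f (t ^ (u : ℤ) * of g))⁻¹ • pos f u)) ≤ 0) := by
      intro hle
      have h1 : Multiplicative.toAdd ((TStep.f' f (wprod φ m)).left
        ((f (t ^ (u : ℤ) * of g))⁻¹ • pos f u)) = -(u : ℤ) := by
        have := h0
        simp only at this
        linarith
      rw [h1] at hle
      rcases Int.units_eq_one_or u with rfl | rfl <;> simp at hle
    apply key
    apply sign_le
    intro l' v g' l'' hm hv hvu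
    subst hvu
    have e1 : f (t ^ (u : ℤ) * of g) • f (wprod φ l') • pos f (-u) = pos f u := by
      rw [hv, smul_inv_smul]
    -- the key membership
    have e2 : ∃ a ∈ toSubgroup A B u, f (of g) * f (wprod φ l') = f (of a) := by
      rcases Int.units_eq_one_or u with rfl | rfl
      · rw [pos_neg_one, pos_one] at e1
        change (((f (t ^ ((1 : ℤˣ) : ℤ) * of g) * (f (wprod φ l') * (f t)⁻¹) : Γ)) : Q f)
          = ((1 : Γ) : Q f) at e1
        rw [eq_comm, QuotientGroup.eq] at e1
        obtain ⟨b, hb, hb'⟩ := e1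
        refine ⟨(φ.symm ⟨b, hb⟩ : H), (φ.symm ⟨b, hb⟩).2, ?_⟩
        have h2 := congrArg f (equiv_symm_eq_conj (φ := φ) ⟨b, hb⟩)
        rw [map_mul, map_mul, map_inv] at h2
        rw [h2]
        have h3 : f (of b) = f t * f (of g) * (f (wprod φ l') * (f t)⁻¹) := by
          simpa using hb'
        change _ = (f t)⁻¹ * f (of b) * f t
        rw [h3]
        group
      · rw [neg_neg, pos_one, pos_neg_one] at e1
        change (((f (t ^ ((-1 : ℤˣ) : ℤ) * of g) * (f (wprod φ l') * 1) : Γ)) : Q f)
          = (((f t)⁻¹ : Γ) : Q f) at e1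
        rw [eq_comm, QuotientGroup.eq] at e1
        obtain ⟨b, hb, hb'⟩ := e1
        refine ⟨b, hb, ?_⟩
        have h3 : f (of b) = ((f t)⁻¹)⁻¹ * ((f t)⁻¹ * f (of g) * (f (wprod φ l') * 1)) := by
          simpa using hb'
        rw [h3]
        group
    obtain ⟨a, ha, hae⟩ := e2
    by_cases hl : l' = []
    · subst hl
      rw [wprod_nil, map_one, mul_one] at hae
      have hg : g ∉ toSubgroup A B u := by
        intro hgu
        rw [hm] at hch
        have := (List.isChain_cons_cons.1 hch).1 hgu
        simp only at this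
        rcases Int.units_eq_one_or u with rfl | rfl
        · exact absurd this (by decide)
        · exact absurd this (by decide)
      exact hgood (u, g) List.mem_cons_self u hg a ha hae
    · refine hyp l' ?_ hl ?_ (g⁻¹ * a) ?_
      · rw [hm]
        exact ⟨[(u, g)], (-u, g') :: l'', by simp⟩
      · rw [hm]; simp
      · rw [map_mul, map_mul, ← hae, map_inv, map_inv]
        group


end Pool.Agent.H47U
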