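import Pool.Agent.Lib.H47U.Defs

/-! CHUNK B02 (S/M): functions on cosets embed in functions on the group. -/

set_option autoImplicit false

namespace Pool.Agent.H47U

/-- The map on functions used in `exists_J`. -/
def b02j {Γ : Type} [Group Γ] (B : Subgroup Γ) :
    (Γ ⧸ B → Multiplicative ℤ) →* (Γ → Multiplicative ℚ) where
  toFun F := fun x => Multiplicative.ofAdd ((Multiplicative.toAdd (F (x : Γ ⧸ B)) : ℤ) : ℚ)
  map_one' := by
    funext x
    simp
  map_mul' F F' := by
    funext x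
    simp

theorem b02j_inj {Γ : Type} [Group Γ] (B : Subgroup Γ) : Function.Injective (b02j B) := by
  intro F F' h
  funext q
  obtain ⟨x, rfl⟩ := QuotientGroup.mk_surjective q
  have h1 := congrFun h x
  simp only [b02j, MonoidHom.coe_mk, OneHom.coe_mk, EmbeddingLike.apply_eq_iff_eq,
    Int.cast_inj] at h1
  exact h1

/-- PROOF. `SemidirectProduct.map j (MonoidHom.id Γ)` with `j F = fun x => ofAdd ((toAdd (F (x : Γ ⧸ B))
: ℤ) : ℚ)`; equivariant because both actions are `F ↦ F (g⁻¹ • ·)` and `g⁻¹ • (x : Γ ⧸ B) =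
((g⁻¹ * x : Γ) : Γ ⧸ B)`; injective because `Γ → Γ ⧸ B` is surjective and `ℤ → ℚ` injective. -/
theorem exists_J {Γ : Type} [Group Γ] (B : Subgroup Γ) :
    ∃ J : ((Γ ⧸ B → Multiplicative ℤ) ⋊[mulAutArrow] Γ) →* WG Γ ℚ,
      Function.Injective J ∧ ∀ z, (J z).right = z.right := by
  refine ⟨SemidirectProduct.map (b02j B) (MonoidHom.id Γ) ?_, ?_, ?_⟩
  · intro g
    ext F
    rfl
  · intro z w h
    apply SemidirectProduct.ext
    · have h1 := congrArg (fun u : WG Γ ℚ => u.left) h
      exact b02j_inj B h1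
    · have h1 := congrArg (fun u : WG Γ ℚ => u.right) h
      exact h1
  · intro z
    rfl

end Pool.Agent.H47U
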