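import Pool.Agent.Lib.H47U.A07
import Pool.Agent.Lib.H47U.B01
import Pool.Agent.Lib.H47U.B02

/-! CHUNK B03 (M): the tower over an admissible group. -/

set_option autoImplicit false

open HNNExtension

namespace Pool.Agent.H47U

open Pool.Agent.H63RA

variable {H : Type} [Group H] {A B : Subgroup H} {φ : A ≃* B} {Q : Type} [Group Q]

/-- One step: PROOF. `F = J ∘ TStep.f' F₀` with `J` from `exists_J (TStep.Bb F₀)`; it lies over `F₀`
(`TStep.right_f'`), so the composition with `π₀` is `ρ`; admissible by `adm_WG`. -/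
theorem tower_one {ρ : HNNExtension H A B φ →* Q} {S₀ : Type} [Group S₀] {π₀ : S₀ →* Q}
    (h₀ : Adm π₀) (F₀ : HNNExtension H A B φ →* S₀) (hF₀ : π₀.comp F₀ = ρ) :
    ∃ (S : Type) (_ : Group S) (π : S →* Q) (p : S →* S₀) (F : HNNExtension H A B φ →* S), Adm π ∧
      π.comp F = ρ ∧ p.comp F = F₀ ∧
      ∀ l : List (ℤˣ × H), l.IsChain (Red A B) → l ≠ [] → (∀ p ∈ l, Good F₀ p.2) →
        (∀ l' : List (ℤˣ × H), l' <:+: l → l' ≠ [] → l'.length + 2 ≤ l.length →
          ∀ h : H, F₀ (wprod φ l') ≠ F₀ (of h)) →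
        ∀ h : H, F (wprod φ l) ≠ F (of h) := by
  obtain ⟨J, hJ, hJr⟩ := exists_J (TStep.Bb F₀)
  have hr : ∀ x, (J (TStep.f' F₀ x)).right = F₀ x := by
    intro x
    rw [hJr, TStep.right_f']
  refine ⟨WG S₀ ℚ, inferInstance, π₀.comp SemidirectProduct.rightHom,
    SemidirectProduct.rightHom, J.comp (TStep.f' F₀), adm_WG h₀ ℚ, ?_, ?_, ?_⟩
  · rw [← hF₀]
    refine MonoidHom.ext fun x => ?_
    simp only [MonoidHom.comp_apply, SemidirectProduct.rightHom_eq_right]
    rw [hr]
  · refine MonoidHom.ext fun x => ?_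
    simp only [MonoidHom.comp_apply, SemidirectProduct.rightHom_eq_right]
    rw [hr]
  · intro l hch hne hgood hyp h heq
    simp only [MonoidHom.comp_apply] at heq
    exact tower_step' F₀ l hch hne hgood hyp h (hJ heq)

/-- `Good` goes up. -/
theorem b03_good {Γ Γ' : Type} [Group Γ] [Group Γ'] {F₀ : HNNExtension H A B φ →* Γ}
    {F : HNNExtension H A B φ →* Γ'} {p : Γ' →* Γ} (hp : p.comp F = F₀) {h : H}
    (hg : Good F₀ h) : Good F h := by
  intro u hu a ha hfa
  apply hg u hu a ha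
  rw [← hp, MonoidHom.comp_apply, MonoidHom.comp_apply, hfa]

/-- PROOF. By induction on `d` (using `tower_one`): there are `S, π, F` with `Adm π`, `π.comp F = ρ`,
`∀ p ∈ l, Good F p.2` and `F (wprod φ l') ≠ F (of h)` for all infixes `l' ≠ []` of `l` with
`l'.length ≤ d` and all `h`. (`Good` goes up along `p.comp F = F₀`; infixes of infixes are infixes,
infixes of chains are chains.) Take `d = l.length`. -/
theorem tower_many {ρ : HNNExtension H A B φ →* Q} {S₀ : Type} [Group S₀] {π₀ : S₀ →* Q}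
    (h₀ : Adm π₀) (F₀ : HNNExtension H A B φ →* S₀) (hF₀ : π₀.comp F₀ = ρ)
    (l : List (ℤˣ × H)) (hch : l.IsChain (Red A B)) (hne : l ≠ [])
    (hgood : ∀ p ∈ l, Good F₀ p.2) :
    ∃ (S : Type) (_ : Group S) (π : S →* Q) (F : HNNExtension H A B φ →* S), Adm π ∧
      π.comp F = ρ ∧ ∀ h : H, F (wprod φ l) ≠ F (of h) := by
  have key : ∀ d : ℕ, ∃ (S : Type) (_ : Group S) (π : S →* Q) (F : HNNExtension H A B φ →* S),
      Adm π ∧ π.comp F = ρ ∧ (∀ p ∈ l, Good F p.2) ∧
      ∀ l' : List (ℤˣ × H), l' <:+: l → l' ≠ [] → l'.length ≤ d →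
        ∀ h : H, F (wprod φ l') ≠ F (of h) := by
    intro d
    induction d with
    | zero =>
      refine ⟨S₀, inferInstance, π₀, F₀, h₀, hF₀, hgood, ?_⟩
      intro l' _ hne' hlen
      exact absurd (List.length_eq_zero_iff.1 (Nat.le_zero.1 hlen)) hne'
    | succ d ih =>
      obtain ⟨S, gS, π, F, hA, hF, hG, hI⟩ := ih
      obtain ⟨S', gS', π', p, F', hA', hF', hp, hstep⟩ := tower_one hA F hF
      refine ⟨S', gS', π', F', hA', hF', fun q hq => b03_good hp (hG q hq), ?_⟩
      intro l' hinf hne' hlen h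
      have hch' : l'.IsChain (Red A B) := by
        obtain ⟨s, t, rfl⟩ := hinf
        exact hch.left_of_append.right_of_append
      refine hstep l' hch' hne' (fun q hq => hG q (hinf.subset hq)) ?_ h
      intro l'' hinf' hne'' hlen' h'
      exact hI l'' (hinf'.trans hinf) hne'' (by omega) h'
  obtain ⟨S, gS, π, F, hA, hF, -, hI⟩ := key l.length
  exact ⟨S, gS, π, F, hA, hF, hI l (List.infix_refl l) hne le_rfl⟩

end Pool.Agent.H47U
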