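import Pool.Agent.Lib.H47U.A04
import Pool.Agent.Lib.H63RA.Cyclic

/-! CHUNK B04 (M): extension of a homomorphism over the stable letter. -/

set_option autoImplicit false

open HNNExtension

namespace Pool.Agent.H47U

variable {P Q S : Type} [Group P] [Group Q] [Group S]

theorem b04_cond {x y : P} (φ : Subgroup.zpowers x ≃* Subgroup.zpowers y)
    (hφ : (φ ⟨x, Subgroup.mem_zpowers x⟩ : P) = y) (f : P →* S) (s : S)
    (h : s * f x = f y * s) : ∀ a : Subgroup.zpowers x, s * f ↑a = f (φ a : P) * s := by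
  rintro ⟨a, k, rfl⟩
  have h1 : (φ ⟨x ^ k, k, rfl⟩ : P) = y ^ k := by
    have : (⟨x ^ k, k, rfl⟩ : Subgroup.zpowers x) = ⟨x, Subgroup.mem_zpowers x⟩ ^ k := by
      ext; simp
    rw [this, map_zpow, SubgroupClass.coe_zpow, hφ]
  have h2 : s * f (x ^ k) * s⁻¹ = f (y ^ k) := by
    rw [map_zpow, map_zpow, ← conj_zpow, h, mul_inv_cancel_right]
  rw [h1, ← h2, inv_mul_cancel_right]

/-- the word `x₀ x₁ x₀⁻¹ x₂⁻¹` -/
def b04_w : FreeGroup (Fin 3) :=
  FreeGroup.of 0 * FreeGroup.of 1 * (FreeGroup.of 0)⁻¹ * (FreeGroup.of 2)⁻¹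

theorem b04_lift {G : Type} [Group G] (b : Fin 3 → G) :
    FreeGroup.lift b b04_w = b 0 * b 1 * (b 0)⁻¹ * (b 2)⁻¹ := by
  simp [b04_w]

theorem b04_fox (b : Fin 3 → Q) :
    fox b 0 b04_w = 1 - MonoidAlgebra.single (b 0 * b 1 * (b 0)⁻¹) 1 := by
  have h1 : (1 : Fin 3) ≠ 0 := by decide
  have h2 : (2 : Fin 3) ≠ 0 := by decide
  unfold b04_w
  rw [fox_mul, fox_mul, fox_mul, fox_inv, fox_inv, fox_of_self, fox_of_ne b h1, fox_of_ne b h2]
  simp [MonoidAlgebra.single_mul_single, sub_eq_add_neg]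

/-- PROOF. With `s̄ = ρ t`: `t * of k * t⁻¹ = of g` gives `s̄ ρ(k) s̄⁻¹ = ρ(g) ≠ 1`. Apply `h.lp` with
`α = Fin 3`, `w = of 0 * of 1 * (of 0)⁻¹ * (of 2)⁻¹`, `x = 0`, `v = ![1, f k, f g]`,
`b = ![s̄, ρ k, ρ g]`: `lift b w = 1`; `fox b 0 w = 1 - single (s̄ ρ(k) s̄⁻¹) 1 = 1 - single (ρ g) 1 ≠ 0`
(coefficient at `1`; `fox_mul`, `fox_inv`, …). So there is `s = v' 0` with `π s = s̄`,
`s * f k * s⁻¹ = f g`. `F = HNNExtension.lift f s _`; for the condition see `zpowers_cond` or the proof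
of `exists_ext` in `Lib/H63RA` (files Pres, Cyclic). `π.comp F = ρ`: `HNNExtension.hom_ext`. -/
theorem exists_extend {π : S →* Q} (h : Adm π) (g k : P)
    (φ : Subgroup.zpowers k ≃* Subgroup.zpowers g)
    (hφ : (φ ⟨k, Subgroup.mem_zpowers k⟩ : P) = g)
    (ρ : HNNExtension P (Subgroup.zpowers k) (Subgroup.zpowers g) φ →* Q) (hg : ρ (of g) ≠ 1)
    (f : P →* S) (hf : π.comp f = ρ.comp of) :
    ∃ F : HNNExtension P (Subgroup.zpowers k) (Subgroup.zpowers g) φ →* S,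
      F.comp of = f ∧ π.comp F = ρ := by
  have hrel : ρ t * ρ (of k) = ρ (of g) * ρ t := by
    have h1 := t_mul_of (φ := φ) ⟨k, Subgroup.mem_zpowers k⟩
    rw [hφ] at h1
    rw [← map_mul, ← map_mul]
    exact congrArg ρ h1
  have hrel2 : ρ t * ρ (of k) * (ρ t)⁻¹ = ρ (of g) := by
    rw [hrel, mul_inv_cancel_right]
  have hfk : π (f k) = ρ (of k) := DFunLike.congr_fun hf k
  have hfg : π (f g) = ρ (of g) := DFunLike.congr_fun hf g
  obtain ⟨v', hv1, hv2, hv3⟩ := h.lp (Fin 3) b04_w 0 ![1, f k, f g] ![ρ t, ρ (of k), ρ (of g)]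
    (by
      intro y hy
      fin_cases y
      · exact absurd rfl hy
      · exact hfk
      · exact hfg)
    (by
      rw [b04_lift]
      change ρ t * ρ (of k) * (ρ t)⁻¹ * (ρ (of g))⁻¹ = 1
      rw [hrel2, mul_inv_cancel])
    (by
      rw [b04_fox]
      change 1 - MonoidAlgebra.single (ρ t * ρ (of k) * (ρ t)⁻¹) (1 : ℚ) ≠ 0
      rw [hrel2]
      intro h0
      rw [sub_eq_zero, MonoidAlgebra.one_def] at h0
      have := MonoidAlgebra.single_left_injective (R := ℚ) one_ne_zero h0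
      exact hg this.symm)
  have e1 : v' 1 = f k := hv2 1 (by decide)
  have e2 : v' 2 = f g := hv2 2 (by decide)
  have e0 : π (v' 0) = ρ t := hv1 0
  rw [b04_lift, e1, e2, mul_inv_eq_one, mul_inv_eq_iff_eq_mul] at hv3
  refine ⟨HNNExtension.lift f (v' 0) (b04_cond φ hφ f (v' 0) hv3), ?_, ?_⟩
  · refine MonoidHom.ext fun x => ?_
    rw [MonoidHom.comp_apply, lift_of]
  · refine HNNExtension.hom_ext ?_ ?_
    · refine MonoidHom.ext fun x => ?_
      simp only [MonoidHom.comp_apply, lift_of]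
      exact DFunLike.congr_fun hf x
    · rw [MonoidHom.comp_apply, lift_t, e0]

end Pool.Agent.H47U
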