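import Pool.Agent.Lib.H47U.A07
import Pool.Agent.Lib.H47U.A08

/-! CHUNK B05 (M): separation of cyclic subgroups. -/

set_option autoImplicit false

namespace Pool.Agent.H47U

variable {P Q : Type} [Group P] [Group Q] {ρ : P →* Q}

theorem b05_comb {S₁ S₂ : Type} [Group S₁] [Group S₂] {π₁ : S₁ →* Q} {π₂ : S₂ →* Q}
    {f₁ : P →* S₁} {f₂ : P →* S₂} (h₁ : Adm π₁) (h₂ : Adm π₂) (e₁ : π₁.comp f₁ = ρ)
    (e₂ : π₂.comp f₂ = ρ) :
    ∃ (S : Type) (_ : Group S) (π : S →* Q) (f : P →* S), Adm π ∧ π.comp f = ρ ∧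
      (∀ p c : P, f₁ p ∉ Subgroup.zpowers (f₁ c) → f p ∉ Subgroup.zpowers (f c)) ∧
      (∀ p c : P, f₂ p ∉ Subgroup.zpowers (f₂ c) → f p ∉ Subgroup.zpowers (f c)) := by
  obtain ⟨S, iS, π, p₁, p₂, hA, hp₁, hp₂, hu⟩ := adm_fib h₁ h₂
  obtain ⟨f, hf₁, hf₂⟩ := hu P f₁ f₂ (e₁.trans e₂.symm)
  refine ⟨S, iS, π, f, hA, ?_, ?_, ?_⟩
  · rw [← hp₁, MonoidHom.comp_assoc, hf₁, e₁]
  · intro p c h h'
    apply h
    obtain ⟨n, hn⟩ := Subgroup.mem_zpowers_iff.mp h'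
    refine Subgroup.mem_zpowers_iff.mpr ⟨n, ?_⟩
    rw [← hf₁, MonoidHom.comp_apply, MonoidHom.comp_apply, ← hn, map_zpow]
  · intro p c h h'
    apply h
    obtain ⟨n, hn⟩ := Subgroup.mem_zpowers_iff.mp h'
    refine Subgroup.mem_zpowers_iff.mpr ⟨n, ?_⟩
    rw [← hf₂, MonoidHom.comp_apply, MonoidHom.comp_apply, ← hn, map_zpow]

/-- PROOF. `ρ c` has infinite order (`up_torsionfree`). If `ρ p ∉ zpowers (ρ c)`, take `Q` itself
(`adm_id`, `f = ρ`). If `ρ p = (ρ c) ^ n`, then `p * (c ^ n)⁻¹ ≠ 1`, so `hD` gives `f` over `ρ` with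
`f p ≠ (f c) ^ n`; if `f p = (f c) ^ m`, then `(ρ c) ^ m = ρ p = (ρ c) ^ n`, hence `m = n`. -/
theorem det_sep (hQ : UniqueProds Q) (hD : Det ρ) {c : P} (hc : ρ c ≠ 1) {p : P}
    (hp : p ∉ Subgroup.zpowers c) :
    ∃ (S : Type) (_ : Group S) (π : S →* Q) (f : P →* S), Adm π ∧ π.comp f = ρ ∧
      f p ∉ Subgroup.zpowers (f c) := by
  by_cases h : ρ p ∈ Subgroup.zpowers (ρ c)
  · obtain ⟨n, hn⟩ := Subgroup.mem_zpowers_iff.mp h
    have h1 : p * (c ^ n)⁻¹ ≠ 1 := by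
      intro h2
      apply hp
      rw [mul_inv_eq_one] at h2
      exact Subgroup.mem_zpowers_iff.mpr ⟨n, h2.symm⟩
    obtain ⟨S, iS, π, f, hA, hf, hne⟩ := hD _ h1
    refine ⟨S, iS, π, f, hA, hf, ?_⟩
    intro h2
    obtain ⟨m, hm⟩ := Subgroup.mem_zpowers_iff.mp h2
    have h3 : ∀ x, π (f x) = ρ x := fun x => by rw [← hf]; rfl
    have h4 : ρ c ^ m = ρ c ^ n := by
      rw [hn, ← h3 p, ← hm, map_zpow, h3]
    have h5 : m = n := by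
      by_contra h6
      apply zpow_ne_one_of_up hQ hc (sub_ne_zero.mpr h6)
      rw [zpow_sub, h4, mul_inv_cancel]
    apply hne
    rw [map_mul, map_inv, map_zpow, ← hm, h5, mul_inv_cancel]
  · exact ⟨Q, inferInstance, MonoidHom.id Q, ρ, adm_id hQ, rfl, h⟩

/-- PROOF. Induction on `L`; `[]`: `adm_id`, `f = ρ`. `p :: L`: combine the homomorphism for `L` with
those of `det_sep` for `(p, a)` and `(p, b)` (if needed) by `adm_fib`; if `f₁ p ∉ zpowers (f₁ c)` and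
`p₁.comp f = f₁`, then `f p ∉ zpowers (f c)`. -/
theorem det_good (hQ : UniqueProds Q) (hD : Det ρ) {a b : P} (ha : ρ a ≠ 1) (hb : ρ b ≠ 1)
    (L : List P) :
    ∃ (S : Type) (_ : Group S) (π : S →* Q) (f : P →* S), Adm π ∧ π.comp f = ρ ∧
      ∀ p ∈ L, (p ∉ Subgroup.zpowers a → f p ∉ Subgroup.zpowers (f a)) ∧
        (p ∉ Subgroup.zpowers b → f p ∉ Subgroup.zpowers (f b)) := by
  induction L with
  | nil => exact ⟨Q, inferInstance, MonoidHom.id Q, ρ, adm_id hQ, rfl, by simp⟩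
  | cons p L ih =>
    obtain ⟨S, iS, π, f, hA, hf, hL⟩ := ih
    have key : ∀ c : P, ρ c ≠ 1 → ∃ (S : Type) (_ : Group S) (π : S →* Q) (f : P →* S),
        Adm π ∧ π.comp f = ρ ∧
        (p ∉ Subgroup.zpowers c → f p ∉ Subgroup.zpowers (f c)) := by
      intro c hc
      by_cases hp : p ∈ Subgroup.zpowers c
      · exact ⟨Q, inferInstance, MonoidHom.id Q, ρ, adm_id hQ, rfl, fun h => absurd hp h⟩
      · obtain ⟨S', iS', π', f', hA', hf', h'⟩ := det_sep hQ hD hc hp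
        exact ⟨S', iS', π', f', hA', hf', fun _ => h'⟩
    obtain ⟨S₁, i₁, π₁, f₁, hA₁, hf₁, hk₁⟩ := key a ha
    obtain ⟨S₂, i₂, π₂, f₂, hA₂, hf₂, hk₂⟩ := key b hb
    obtain ⟨S₃, i₃, π₃, f₃, hA₃, hf₃, h31, h32⟩ := b05_comb hA hA₁ hf hf₁
    obtain ⟨S₄, i₄, π₄, f₄, hA₄, hf₄, h41, h42⟩ := b05_comb hA₃ hA₂ hf₃ hf₂
    refine ⟨S₄, i₄, π₄, f₄, hA₄, hf₄, ?_⟩
    intro q hq
    rcases List.mem_cons.mp hq with rfl | hq
    · exact ⟨fun h => h41 _ _ (h32 _ _ (hk₁ h)), fun h => h42 _ _ (hk₂ h)⟩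
    · exact ⟨fun h => h41 _ _ (h31 _ _ ((hL q hq).1 h)),
        fun h => h41 _ _ (h31 _ _ ((hL q hq).2 h))⟩

end Pool.Agent.H47U
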