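import Pool.Agent.Lib.H47U.B03
import Pool.Agent.Lib.H47U.B04
import Pool.Agent.Lib.H47U.B05

/-! CHUNK B06 (M): `Det` for HNN extensions with cyclic associated subgroups. -/

set_option autoImplicit false

open HNNExtension

namespace Pool.Agent.H47U

open Pool.Agent.H63RA

variable {P Q : Type} [Group P] [Group Q]

/-- PROOF. Let `z ≠ 1`. With `d` from `NormalWord.TransversalPair.nonempty` and
`n = NormalWord.equiv φ d z` we have `z = of n.head * wprod φ n.toList`, `n.toList.IsChain (Red _ _)`
(as in the proof of `conj_cases`, `Lib/H63RA/CycRed.lean`). If the list is empty, `z = of p`, `p ≠ 1`: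
`hD` gives `f` with `f p ≠ 1`, extend by `exists_extend`. Otherwise `det_good` for `a = k`, `b = g`
(`ρ (of k) ≠ 1` because `of g = t * of k * t⁻¹`) and the list of the second components gives `f`,
`exists_extend` gives `F₀`, which is `Good` for the syllables (`toSubgroup A B 1 = A`,
`toSubgroup A B (-1) = B`); `tower_many` gives `F` with `F (wprod φ l) ≠ F (of p)` for all `p`, in
particular for `p = n.head⁻¹`, so `F z ≠ 1`. -/
theorem det_hnn (hQ : UniqueProds Q) (g k : P) (φ : Subgroup.zpowers k ≃* Subgroup.zpowers g)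
    (hφ : (φ ⟨k, Subgroup.mem_zpowers k⟩ : P) = g)
    (ρ : HNNExtension P (Subgroup.zpowers k) (Subgroup.zpowers g) φ →* Q) (hg : ρ (of g) ≠ 1)
    (hD : Det (ρ.comp of)) : Det ρ := by
  intro z hz
  have hk : ρ (of k) ≠ 1 := by
    intro h0
    apply hg
    have h1 := t_mul_of (φ := φ) ⟨k, Subgroup.mem_zpowers k⟩
    rw [hφ] at h1
    have h2 := congrArg ρ h1
    simp only [map_mul] at h2
    rw [h0, mul_one] at h2
    exact (mul_eq_right.1 h2.symm)
  obtain ⟨d⟩ := NormalWord.TransversalPair.nonempty P (Subgroup.zpowers k) (Subgroup.zpowers g)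
  have hprod : ((NormalWord.equiv φ d) z).prod φ = z := (NormalWord.equiv φ d).symm_apply_apply z
  have hchain := ((NormalWord.equiv φ d) z).chain
  set n := (NormalWord.equiv φ d) z with hn
  have hz2 : z = of n.head * wprod φ n.toList := hprod.symm
  by_cases hl : n.toList = []
  · rw [hl] at hz2
    have hw : wprod φ ([] : List (ℤˣ × P)) = 1 := by simp [wprod]
    rw [hw, mul_one] at hz2
    have hh : n.head ≠ 1 := by
      intro h0
      rw [h0, map_one] at hz2
      exact hz hz2
    obtain ⟨S, gS, π, f, hA, hf, hne⟩ := hD n.head hh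
    obtain ⟨F, hF1, hF2⟩ := exists_extend hA g k φ hφ ρ hg f hf
    refine ⟨S, gS, π, F, hA, hF2, ?_⟩
    rw [hz2]
    have : F (of n.head) = f n.head := DFunLike.congr_fun hF1 n.head
    rw [this]
    exact hne
  · obtain ⟨S, gS, π, f, hA, hf, hgood⟩ := det_good hQ hD (a := k) (b := g) hk hg
      (n.toList.map Prod.snd)
    obtain ⟨F₀, hF1, hF2⟩ := exists_extend hA g k φ hφ ρ hg f hf
    have hof : ∀ p : P, F₀ (of p) = f p := fun p => DFunLike.congr_fun hF1 p
    have hG : ∀ p ∈ n.toList, Good F₀ p.2 := by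
      intro p hp u hu a ha heq
      rw [hof, hof] at heq
      have hp' := hgood p.2 (List.mem_map_of_mem hp)
      rcases Int.units_eq_one_or u with rfl | rfl
      · rw [toSubgroup_one] at hu ha
        apply hp'.1 hu
        rw [heq]
        obtain ⟨m, rfl⟩ := Subgroup.mem_zpowers_iff.1 ha
        rw [map_zpow]
        exact Subgroup.zpow_mem_zpowers _ _
      · rw [toSubgroup_neg_one] at hu ha
        apply hp'.2 hu
        rw [heq]
        obtain ⟨m, rfl⟩ := Subgroup.mem_zpowers_iff.1 ha
        rw [map_zpow]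
        exact Subgroup.zpow_mem_zpowers _ _
    obtain ⟨S', gS', π', F, hA', hF', hF''⟩ := tower_many hA F₀ hF2 n.toList hchain hl hG
    refine ⟨S', gS', π', F, hA', hF', ?_⟩
    intro h0
    rw [hz2, map_mul] at h0
    apply hF'' n.head⁻¹
    rw [map_inv, map_inv]
    exact (inv_eq_of_mul_eq_one_right h0).symm

end Pool.Agent.H47U
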