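import Pool.Agent.Lib.H47U.A07

/-! CHUNK B07 (M/L): `Det` for free groups. -/

set_option autoImplicit false

namespace Pool.Agent.H47U

open FreeGroup (of lift)

variable {Q : Type} [Group Q]

namespace DetFree

variable {α S : Type} [Group S]

open Classical in
/-- The lift of `v` to the wreath-like product. -/
noncomputable def upv (v : α → S) (y : α) : WG S (α → ℚ) :=
  ⟨fun s => Multiplicative.ofAdd (if s = 1 then Pi.single y 1 else 0), v y⟩

lemma right_upv (v : α → S) (w : FreeGroup α) : (lift (upv v) w).right = lift v w := by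
  have : (SemidirectProduct.rightHom (φ := mulAutArrow) (N := S → Multiplicative (α → ℚ))
      (G := S)).comp (lift (upv v)) = lift v := by
    ext y
    simp [upv]
  exact DFunLike.congr_fun this w

/-- The coordinate of the value of `w` at the edge `(s, y)`. -/
noncomputable def co (v : α → S) (y : α) (w : FreeGroup α) (s : S) : ℚ :=
  Multiplicative.toAdd ((lift (upv v) w).left s) y

lemma arrow_apply {V : Type} [AddCommGroup V] (g : S) (F : S → Multiplicative V) (x : S) :
    (mulAutArrow g : MulAut (S → Multiplicative V)) F x = F (g⁻¹ * x) := rfl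

lemma co_mul (v : α → S) (y : α) (w w' : FreeGroup α) (s : S) :
    co v y (w * w') s = co v y w s + co v y w' ((lift v w)⁻¹ * s) := by
  unfold co
  rw [map_mul, SemidirectProduct.mul_left, Pi.mul_apply, toAdd_mul, arrow_apply, right_upv,
    Pi.add_apply]

lemma co_one (v : α → S) (y : α) (s : S) : co v y 1 s = 0 := by
  unfold co
  rw [map_one]
  rfl

/-- The start of the edge traversed by a letter. -/
def pos (v : α → S) (z : α) (e : Bool) : S := if e = true then 1 else (v z)⁻¹

/-- The sign of a letter. -/
def sgn (e : Bool) : ℚ := if e = true then 1 else -1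

open Classical in
lemma co_of (v : α → S) (y z : α) (s : S) :
    co v y (of z) s = if (1 : S) = s ∧ z = y then 1 else 0 := by
  unfold co
  rw [FreeGroup.lift_apply_of]
  change (if s = 1 then (Pi.single z 1 : α → ℚ) else 0) y = _
  by_cases h1 : s = 1
  · rw [if_pos h1]
    by_cases h2 : z = y
    · rw [if_pos ⟨h1.symm, h2⟩, h2, Pi.single_eq_same]
    · rw [if_neg (fun h => h2 h.2), Pi.single_eq_of_ne (fun h => h2 h.symm)]
  · rw [if_neg h1, if_neg (fun h => h1 h.1.symm)]
    rfl

open Classical in
lemma co_letter (v : α → S) (y z : α) (e : Bool) (s : S) :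
    co v y (FreeGroup.mk [(z, e)]) s = if pos v z e = s ∧ z = y then sgn e else 0 := by
  cases e with
  | true =>
    change co v y (of z) s = _
    rw [co_of]
    rfl
  | false =>
    have h0 : (FreeGroup.mk [(z, false)] : FreeGroup α) = (of z)⁻¹ := by
      rw [FreeGroup.of, FreeGroup.inv_mk]
      rfl
    rw [h0]
    have h1 : co v y (of z * (of z)⁻¹) (v z * s) = 0 := by
      rw [mul_inv_cancel, co_one]
    rw [co_mul, FreeGroup.lift_apply_of, inv_mul_cancel_left, co_of] at h1
    have h2 : co v y (of z)⁻¹ s = -(if (1 : S) = v z * s ∧ z = y then 1 else 0) := by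
      linarith
    rw [h2]
    have h3 : (1 : S) = v z * s ↔ pos v z false = s := by
      change _ ↔ (v z)⁻¹ = s
      constructor
      · intro h
        rw [← mul_left_cancel_iff (a := v z), ← h, mul_inv_cancel]
      · rintro rfl
        rw [mul_inv_cancel]
    by_cases h : pos v z false = s ∧ z = y
    · rw [if_pos ⟨h3.2 h.1, h.2⟩, if_pos h]
      rfl
    · rw [if_neg (fun h' => h ⟨h3.1 h'.1, h'.2⟩), if_neg h, neg_zero]

lemma mk_cons (z : α) (e : Bool) (L : List (α × Bool)) :
    (FreeGroup.mk ((z, e) :: L) : FreeGroup α) = FreeGroup.mk [(z, e)] * FreeGroup.mk L := by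
  rw [FreeGroup.mul_mk]
  rfl

lemma sgn_mul_self (e : Bool) : sgn e * sgn e = 1 := by
  cases e <;> simp [sgn]

open Classical in
lemma sign_nonneg (v : α → S) (y : α) (e : Bool) (L : List (α × Bool)) : ∀ s : S,
    (∀ L₂ L₃ : List (α × Bool), L = L₂ ++ (y, !e) :: L₃ →
      lift v (FreeGroup.mk L₂) * pos v y (!e) ≠ s) →
    0 ≤ sgn e * co v y (FreeGroup.mk L) s := by
  induction L with
  | nil =>
    intro s _
    rw [← FreeGroup.one_eq_mk, co_one, mul_zero]
  | cons p L ih =>
    obtain ⟨z, d⟩ := p
    intro s hs
    rw [mk_cons, co_mul, mul_add, co_letter]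
    have h1 : 0 ≤ sgn e * (if pos v z d = s ∧ z = y then sgn d else 0) := by
      by_cases h : pos v z d = s ∧ z = y
      · rw [if_pos h]
        obtain ⟨h1, rfl⟩ := h
        by_cases hd : d = e
        · rw [hd, sgn_mul_self]
          norm_num
        · exfalso
          have hd' : d = !e := by
            cases d <;> cases e <;> simp_all
          refine hs [] L (by rw [hd']; rfl) ?_
          rw [← FreeGroup.one_eq_mk, map_one, one_mul, ← hd']
          exact h1
      · rw [if_neg h, mul_zero]
    have h2 := ih ((lift v (FreeGroup.mk [(z, d)]))⁻¹ * s) (by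
      intro L₂ L₃ hL h
      refine hs ((z, d) :: L₂) L₃ (by rw [hL]; rfl) ?_
      rw [mk_cons, map_mul, mul_assoc, h, mul_inv_cancel_left])
    linarith

/-- The induction. -/
theorem main (hQ : UniqueProds Q) (b : α → Q) (d : ℕ) :
    ∃ (S : Type) (_ : Group S) (π : S →* Q) (v : α → S), Adm π ∧ (∀ y, π (v y) = b y) ∧
      ∀ L : List (α × Bool), L ≠ [] → FreeGroup.IsReduced L → L.length ≤ d →
        lift v (FreeGroup.mk L) ≠ 1 := by
  induction d with
  | zero =>
    refine ⟨Q, inferInstance, MonoidHom.id Q, b, adm_id hQ, fun _ => rfl, ?_⟩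
    intro L hL _ hl
    exact absurd (List.length_eq_zero_iff.1 (Nat.le_zero.1 hl)) hL
  | succ d ih =>
    obtain ⟨S, hS, π, v, hadm, hv, hd⟩ := ih
    refine ⟨WG S (α → ℚ), inferInstance, π.comp SemidirectProduct.rightHom, upv v,
      adm_WG hadm _, fun y => hv y, ?_⟩
    intro L hL hr hl h
    obtain ⟨⟨y, e⟩, L₁, rfl⟩ := List.exists_cons_of_ne_nil hL
    have h1 : ∀ s, co v y (FreeGroup.mk ((y, e) :: L₁)) s = 0 := by
      intro s
      unfold co
      rw [h]
      rfl
    classical
    have h2 := h1 (pos v y e)
    rw [mk_cons, co_mul, co_letter, if_pos ⟨rfl, rfl⟩] at h2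
    have h3 : ¬ 0 ≤ sgn e * co v y (FreeGroup.mk L₁)
        ((lift v (FreeGroup.mk [(y, e)]))⁻¹ * pos v y e) := by
      have : co v y (FreeGroup.mk L₁) ((lift v (FreeGroup.mk [(y, e)]))⁻¹ * pos v y e)
          = -sgn e := by linarith
      rw [this, mul_neg, sgn_mul_self]
      norm_num
    have h4 := mt (sign_nonneg v y e L₁ _) h3
    push Not at h4
    obtain ⟨L₂, L₃, rfl, h5⟩ := h4
    have h6 : lift v (FreeGroup.mk L₂) = 1 := by
      cases e with
      | true =>
        have e1 : lift v (FreeGroup.mk [(y, true)]) = v y := FreeGroup.lift_apply_of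
        have h5' : lift v (FreeGroup.mk L₂) * (v y)⁻¹
            = (lift v (FreeGroup.mk [(y, true)]))⁻¹ * 1 := h5
        rw [e1, mul_one] at h5'
        exact mul_eq_right.1 h5'
      | false =>
        have e0 : (FreeGroup.mk [(y, false)] : FreeGroup α) = (of y)⁻¹ := by
          rw [FreeGroup.of, FreeGroup.inv_mk]
          rfl
        have h5' : lift v (FreeGroup.mk L₂) * 1
            = (lift v (FreeGroup.mk [(y, false)]))⁻¹ * (v y)⁻¹ := h5
        rw [e0, map_inv, FreeGroup.lift_apply_of, inv_inv, mul_inv_cancel, mul_one] at h5'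
        exact h5'
    have h7 : L₂ ≠ [] := by
      rintro rfl
      have := (FreeGroup.isReduced_cons_cons.1 hr).1 rfl
      cases e <;> simp at this
    have h8 : FreeGroup.IsReduced ([(y, e)] ++ L₂ ++ (y, !e) :: L₃) := by simpa using hr
    refine hd L₂ h7 h8.left_of_append.right_of_append ?_ h6
    simp only [List.length_cons, List.length_append] at hl
    omega

end DetFree

/-- PROOF. By induction on `d`: there are `S, π, v` with `Adm π`, `π (v y) = b y` and
`lift v (mk L) ≠ 1` for all reduced `L : List (α × Bool)` with `L ≠ []`, `L.length ≤ d`.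
`d = 0`: `adm_id`. Step: given `v : α → S`, let `V = α → ℚ`, `v' y = ⟨fun s => if s = 1 then
Pi.single y 1 else 0, v y⟩ : WG S V` (admissible by `adm_WG`, lies over `v`). For a word `L` the `y`-th
coordinate of `(lift v' (mk L)).left` at `s` is the number of times the path of `L` starting at `1`
in the Cayley graph of `(S, v)` traverses the edge `(s, y)` (from `s` to `s * v y`) positively minus the
number of negative traversals. Let `L = (y, ε) :: L₁` be reduced, `2 ≤ L.length` or `1`. If
`lift v' (mk L) = 1`, then the first letter contributes `±1` to its edge, so a later letter `(y, !ε)`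
must traverse the same edge in the opposite direction: `L = (y, ε) :: L₂ ++ (y, !ε) :: L₃` with
`lift v (mk L₂) = 1`; `L₂` is reduced, shorter than `L`, and non-empty because `L` is reduced:
contradiction to the induction hypothesis. (Compare `TStep.sign_le` and the proof of `tower_step` in
`Lib/H63RA/TowerStep.lean`, which is the same argument for HNN extensions; `FreeGroup.reduce`,
`FreeGroup.IsReduced` or `List.IsChain (fun a b => a.1 = b.1 → a.2 = b.2)`.) Finally for `w ≠ 1` take
`L = w.toWord`, `d = L.length`. -/
theorem det_free {α : Type} (hQ : UniqueProds Q) (b : α → Q) :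
    Det (lift b : FreeGroup α →* Q) := by
  classical
  intro w hw
  obtain ⟨S, hS, π, v, hadm, hv, hd⟩ := DetFree.main hQ b w.toWord.length
  refine ⟨S, hS, π, lift v, hadm, ?_, ?_⟩
  · ext y
    simp [hv y]
  · have := hd w.toWord (fun h => hw (FreeGroup.toWord_eq_nil_iff.1 h)) FreeGroup.isReduced_toWord
      le_rfl
    rwa [FreeGroup.mk_toWord] at this

end Pool.Agent.H47U
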