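import Pool.Agent.Lib.H47U.Defs

/-! CHUNK C01 (S/M): `Det` for presented groups in terms of tuples. -/

set_option autoImplicit false

namespace Pool.Agent.H47U

open FreeGroup (of lift)

variable {Q α : Type} [Group Q]

/-- PROOF. The elements of the presented group are `PresentedGroup.mk R w`, trivial iff
`w ∈ normalClosure R` (`QuotientGroup.eq_one_iff`); homomorphisms over `toGroup` correspond to tuples
`v y = f (PresentedGroup.of y)`; `f (mk w) = lift v w` (`FreeGroup.lift` uniqueness). -/
theorem detP_of_det {R : Set (FreeGroup α)} {b : α → Q} (hb : ∀ r ∈ R, lift b r = 1)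
    (h : Det (PresentedGroup.toGroup hb)) : DetP R b := by
  refine ⟨hb, fun w hw => ?_⟩
  have hne : PresentedGroup.mk R w ≠ 1 := by
    intro h1
    exact hw ((QuotientGroup.eq_one_iff w).mp h1)
  obtain ⟨S, gS, π, f, hA, hf, hp⟩ := h _ hne
  have hl : ∀ u : FreeGroup α,
      lift (fun y => f (PresentedGroup.of y)) u = f (PresentedGroup.mk R u) := by
    intro u
    have h' : lift (fun y => f (PresentedGroup.of y)) = f.comp (PresentedGroup.mk R) := by
      apply FreeGroup.ext_hom
      intro y
      rw [FreeGroup.lift_apply_of]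
      rfl
    exact DFunLike.congr_fun h' u
  refine ⟨S, gS, π, fun y => f (PresentedGroup.of y), hA, fun y => ?_, fun r hr => ?_, ?_⟩
  · have := DFunLike.congr_fun hf (PresentedGroup.of y)
    rw [PresentedGroup.toGroup.of] at this
    exact this
  · rw [hl]
    have h1 : PresentedGroup.mk R r = 1 :=
      (QuotientGroup.eq_one_iff r).mpr (Subgroup.subset_normalClosure hr)
    rw [h1, map_one]
  · rw [hl]
    exact hp

theorem det_of_detP {R : Set (FreeGroup α)} {b : α → Q} (hb : ∀ r ∈ R, lift b r = 1)
    (h : DetP R b) : Det (PresentedGroup.toGroup hb) := by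
  intro p hp
  obtain ⟨w, rfl⟩ := QuotientGroup.mk_surjective p
  have hw : w ∉ Subgroup.normalClosure R := fun h1 => hp ((QuotientGroup.eq_one_iff w).mpr h1)
  obtain ⟨S, gS, π, v, hA, hv, hr, hw'⟩ := h.2 w hw
  refine ⟨S, gS, π, PresentedGroup.toGroup hr, hA, ?_, ?_⟩
  · apply PresentedGroup.ext
    intro y
    rw [MonoidHom.comp_apply, PresentedGroup.toGroup.of, PresentedGroup.toGroup.of, hv]
  · intro h1
    exact hw' h1

end Pool.Agent.H47U
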