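import Pool.Agent.Lib.H47U.A04
import Pool.Agent.Lib.H47U.B06
import Pool.Agent.Lib.H47U.C01

/-! CHUNK C02 (M): adding a relator `A = u` with `A` in new letters. -/

set_option autoImplicit false

namespace Pool.Agent.H47U

open FreeGroup (of lift)

variable {Q α : Type} [Group Q]

/-- PROOF. `P = PresentedGroup R`, `ρ : P →* Q`, `ρ (mk A) = ρ (mk u) ≠ 1`, so `mk A`, `mk u` have
infinite order (`up_torsionfree hQ`); `φ : zpowers (mk A) ≃* zpowers (mk u)` from
`Pool.Agent.H63RA.exists_zpowers_equiv`, `H = HNNExtension P _ _ φ`, `ρH = HNNExtension.lift ρ 1 _`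
(`t ↦ 1`), `Det ρH` by `det_hnn` (`k = mk A`, `g = mk u`). `P' = PresentedGroup (insert (A * u⁻¹) R)`,
`θ : P' →* H`, `y ↦ t * of (y) * t⁻¹` for `y ∈ T`, `y ↦ of y` for `y ∉ T`: the relators in `R`
(avoiding `T`) go to `of (mk r) = 1`; `A ↦ t * of (mk A) * t⁻¹ = of (mk u)` (words in the letters `T`:
compare the homomorphisms `lift θ₀` and `conj t ∘ of ∘ mk` on `Av Tᶜ` by `lift_congr_av`), `u ↦ of (mk u)`
(`lift_congr_av`). `η : H →* P'`, induced by the quotient map `P →* P'` and `t ↦ 1`; `η ∘ θ = id`
(check on generators), so `θ` is injective; `ρH ∘ θ = toGroup` over `b`. So `Det` goes down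
(pull back the detecting homomorphisms along `θ`). -/
theorem detP_add_amalg (hQ : UniqueProds Q) {R : Set (FreeGroup α)} {b : α → Q} {T : Set α}
    (hR : ∀ r ∈ R, r ∈ Av T) {A u : FreeGroup α} (hA : A ∈ Av Tᶜ) (hu : u ∈ Av T)
    (h1 : lift b A = lift b u) (h2 : lift b u ≠ 1) (hD : DetP R b) :
    DetP (insert (A * u⁻¹) R) b := by
  classical
  have hb := hD.1
  have hDet : Det (PresentedGroup.toGroup hb) := det_of_detP hb hD
  have hρ : ∀ w, PresentedGroup.toGroup hb (PresentedGroup.mk R w) = lift b w := fun w => rfl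
  have hnf : ∀ w : FreeGroup α, lift b w ≠ 1 → ¬ IsOfFinOrder (PresentedGroup.mk R w) := by
    intro w hw hfin
    exact up_torsionfree hQ hw ((hρ w) ▸ MonoidHom.isOfFinOrder (PresentedGroup.toGroup hb) hfin)
  obtain ⟨φ, hφ⟩ := Pool.Agent.H63RA.exists_zpowers_equiv (hnf A (h1 ▸ h2)) (hnf u h2)
  have hcomp : ∀ a : Subgroup.zpowers (PresentedGroup.mk R A),
      (1 : Q) * PresentedGroup.toGroup hb (a : PresentedGroup R) =
        PresentedGroup.toGroup hb (φ a : PresentedGroup R) * 1 := by
    rintro ⟨a, k, rfl⟩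
    have e : (⟨PresentedGroup.mk R A ^ k, ⟨k, rfl⟩⟩ :
        Subgroup.zpowers (PresentedGroup.mk R A)) =
        ⟨PresentedGroup.mk R A, Subgroup.mem_zpowers _⟩ ^ k := by
      apply Subtype.ext
      simp
    have e2 : (φ (⟨PresentedGroup.mk R A ^ k, ⟨k, rfl⟩⟩ :
        Subgroup.zpowers (PresentedGroup.mk R A)) : PresentedGroup R) =
        PresentedGroup.mk R u ^ k := by
      rw [e, map_zpow, Subgroup.coe_zpow, hφ]
    rw [one_mul, mul_one]
    change PresentedGroup.toGroup hb (PresentedGroup.mk R A ^ k) = _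
    rw [e2, map_zpow, map_zpow, hρ, hρ, h1]
  obtain ⟨ρH, hρof, hρt⟩ : ∃ ρH : HNNExtension (PresentedGroup R)
      (Subgroup.zpowers (PresentedGroup.mk R A)) (Subgroup.zpowers (PresentedGroup.mk R u)) φ →* Q,
      (∀ p, ρH (HNNExtension.of p) = PresentedGroup.toGroup hb p) ∧ ρH HNNExtension.t = 1 :=
    ⟨HNNExtension.lift (PresentedGroup.toGroup hb) 1 hcomp,
      fun p => HNNExtension.lift_of _ _ _ p, HNNExtension.lift_t _ _ _⟩
  have hDH : Det ρH := by
    refine det_hnn hQ (PresentedGroup.mk R u) (PresentedGroup.mk R A) φ hφ ρH ?_ ?_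
    · rw [hρof, hρ]
      exact h2
    · have e : ρH.comp HNNExtension.of = PresentedGroup.toGroup hb := MonoidHom.ext hρof
      rw [e]
      exact hDet
  have hrel : (HNNExtension.t : HNNExtension (PresentedGroup R)
      (Subgroup.zpowers (PresentedGroup.mk R A)) (Subgroup.zpowers (PresentedGroup.mk R u)) φ) *
      HNNExtension.of (PresentedGroup.mk R A) * HNNExtension.t⁻¹ =
      HNNExtension.of (PresentedGroup.mk R u) := by
    have := HNNExtension.equiv_eq_conj (φ := φ)
      ⟨PresentedGroup.mk R A, Subgroup.mem_zpowers _⟩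
    rw [hφ] at this
    exact this.symm
  have hR' : ∀ r ∈ insert (A * u⁻¹) R, lift b r = 1 := by
    rintro r (rfl | hr)
    · rw [map_mul, map_inv, h1, mul_inv_cancel]
    · exact hb r hr
  refine ⟨hR', ?_⟩
  intro w hw
  set θ : α → HNNExtension (PresentedGroup R)
      (Subgroup.zpowers (PresentedGroup.mk R A)) (Subgroup.zpowers (PresentedGroup.mk R u)) φ :=
    fun y => if y ∈ T then
      HNNExtension.t * HNNExtension.of (PresentedGroup.mk R (of y)) * HNNExtension.t⁻¹
      else HNNExtension.of (PresentedGroup.mk R (of y)) with hθ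
  have hθ1 : ∀ r ∈ Av T, lift θ r = HNNExtension.of (PresentedGroup.mk R r) := by
    intro r hr
    have e := lift_congr_av hr (v := θ) (v' := fun y => HNNExtension.of (PresentedGroup.mk R (of y)))
      (fun y hy => by rw [hθ]; exact if_neg hy)
    rw [e]
    have e2 : lift (fun y => (HNNExtension.of (PresentedGroup.mk R (of y)) : HNNExtension
        (PresentedGroup R) (Subgroup.zpowers (PresentedGroup.mk R A))
        (Subgroup.zpowers (PresentedGroup.mk R u)) φ)) =
        HNNExtension.of.comp (PresentedGroup.mk R) := by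
      apply FreeGroup.ext_hom
      intro y
      rw [FreeGroup.lift_apply_of]
      rfl
    rw [e2]
    rfl
  have hθ2 : ∀ r ∈ Av Tᶜ, lift θ r =
      HNNExtension.t * HNNExtension.of (PresentedGroup.mk R r) * HNNExtension.t⁻¹ := by
    intro r hr
    have e := lift_congr_av hr (v := θ) (v' := fun y =>
      HNNExtension.t * HNNExtension.of (PresentedGroup.mk R (of y)) * HNNExtension.t⁻¹)
      (fun y hy => by rw [hθ]; exact if_pos (not_not.1 hy))
    rw [e]
    have e2 : lift (fun y => (HNNExtension.t * HNNExtension.of (PresentedGroup.mk R (of y)) *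
        HNNExtension.t⁻¹ : HNNExtension
        (PresentedGroup R) (Subgroup.zpowers (PresentedGroup.mk R A))
        (Subgroup.zpowers (PresentedGroup.mk R u)) φ)) =
        (MulAut.conj HNNExtension.t).toMonoidHom.comp
          (HNNExtension.of.comp (PresentedGroup.mk R)) := by
      apply FreeGroup.ext_hom
      intro y
      rw [FreeGroup.lift_apply_of]
      rfl
    rw [e2]
    rfl
  have hθrel : ∀ r ∈ insert (A * u⁻¹) R, lift θ r = 1 := by
    rintro r (rfl | hr)
    · rw [map_mul, map_inv, hθ2 A hA, hθ1 u hu, hrel, mul_inv_cancel]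
    · rw [hθ1 r (hR r hr), PresentedGroup.one_of_mem hr, map_one]
  have hθw : lift θ w ≠ 1 := by
    intro h0
    apply hw
    rw [← PresentedGroup.mk_eq_one_iff]
    have hq : ∀ r ∈ R, lift (fun y => PresentedGroup.mk (insert (A * u⁻¹) R) (of y)) r = 1 := by
      intro r hr
      have e : lift (fun y => PresentedGroup.mk (insert (A * u⁻¹) R) (of y)) =
          PresentedGroup.mk (insert (A * u⁻¹) R) := by
        apply FreeGroup.ext_hom
        intro y
        rw [FreeGroup.lift_apply_of]
      rw [e]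
      exact PresentedGroup.one_of_mem (Set.mem_insert_of_mem _ hr)
    have hqmk : ∀ r, PresentedGroup.toGroup hq (PresentedGroup.mk R r) =
        PresentedGroup.mk (insert (A * u⁻¹) R) r := by
      intro r
      have e : lift (fun y => PresentedGroup.mk (insert (A * u⁻¹) R) (of y)) =
          PresentedGroup.mk (insert (A * u⁻¹) R) := by
        apply FreeGroup.ext_hom
        intro y
        rw [FreeGroup.lift_apply_of]
      change lift (fun y => PresentedGroup.mk (insert (A * u⁻¹) R) (of y)) r = _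
      rw [e]
    have hAu : PresentedGroup.mk (insert (A * u⁻¹) R) A =
        PresentedGroup.mk (insert (A * u⁻¹) R) u :=
      PresentedGroup.mk_eq_mk_of_mul_inv_mem (Set.mem_insert _ _)
    have hη : ∀ a : Subgroup.zpowers (PresentedGroup.mk R A),
        (1 : PresentedGroup (insert (A * u⁻¹) R)) *
          PresentedGroup.toGroup hq (a : PresentedGroup R) =
        PresentedGroup.toGroup hq (φ a : PresentedGroup R) * 1 := by
      rintro ⟨a, k, rfl⟩
      have e : (⟨PresentedGroup.mk R A ^ k, ⟨k, rfl⟩⟩ :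
          Subgroup.zpowers (PresentedGroup.mk R A)) =
          ⟨PresentedGroup.mk R A, Subgroup.mem_zpowers _⟩ ^ k := by
        apply Subtype.ext
        simp
      have e2 : (φ (⟨PresentedGroup.mk R A ^ k, ⟨k, rfl⟩⟩ :
          Subgroup.zpowers (PresentedGroup.mk R A)) : PresentedGroup R) =
          PresentedGroup.mk R u ^ k := by
        rw [e, map_zpow, Subgroup.coe_zpow, hφ]
      rw [one_mul, mul_one]
      change PresentedGroup.toGroup hq (PresentedGroup.mk R A ^ k) = _
      rw [e2, map_zpow, map_zpow, hqmk, hqmk, hAu]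
    obtain ⟨η, hηof, hηt⟩ : ∃ η : HNNExtension (PresentedGroup R)
        (Subgroup.zpowers (PresentedGroup.mk R A)) (Subgroup.zpowers (PresentedGroup.mk R u)) φ →*
          PresentedGroup (insert (A * u⁻¹) R),
        (∀ p, η (HNNExtension.of p) = PresentedGroup.toGroup hq p) ∧ η HNNExtension.t = 1 :=
      ⟨HNNExtension.lift (PresentedGroup.toGroup hq) 1 hη,
        fun p => HNNExtension.lift_of _ _ _ p, HNNExtension.lift_t _ _ _⟩
    have e3 : η.comp (lift θ) = PresentedGroup.mk (insert (A * u⁻¹) R) := by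
      apply FreeGroup.ext_hom
      intro y
      rw [MonoidHom.comp_apply, FreeGroup.lift_apply_of, hθ]
      by_cases hy : y ∈ T
      · simp only [if_pos hy, map_mul, map_inv, hηt, hηof, hqmk, one_mul, inv_one, mul_one]
      · simp only [if_neg hy, hηof, hqmk]
    rw [← e3, MonoidHom.comp_apply, h0, map_one]
  obtain ⟨S, iS, π, f, hAdm, hπf, hfw⟩ := hDH _ hθw
  have hv : ∀ z, lift (fun y => f (θ y)) z = f (lift θ z) := by
    intro z
    have e : lift (fun y => f (θ y)) = f.comp (lift θ) := by
      apply FreeGroup.ext_hom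
      intro y
      rw [MonoidHom.comp_apply, FreeGroup.lift_apply_of, FreeGroup.lift_apply_of]
    rw [e]
    rfl
  refine ⟨S, iS, π, fun y => f (θ y), hAdm, ?_, ?_, ?_⟩
  · intro y
    have e : π (f (θ y)) = ρH (θ y) := DFunLike.congr_fun hπf _
    rw [e, hθ]
    by_cases hy : y ∈ T
    · simp only [if_pos hy, map_mul, map_inv, hρt, hρof, hρ, one_mul, inv_one, mul_one,
        FreeGroup.lift_apply_of]
    · simp only [if_neg hy, hρof, hρ, FreeGroup.lift_apply_of]
  · intro r hr
    rw [hv, hθrel r hr, map_one]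
  · rw [hv]
    exact hfw

end Pool.Agent.H47U
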