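import Pool.Agent.Lib.H47U.A04
import Pool.Agent.Lib.H47U.B06
import Pool.Agent.Lib.H47U.C01
import Pool.Agent.Lib.H63RA.Pres

/-! CHUNK C03 (M): adding a relator `x⁻¹ g x = h` with a new letter `x`. -/

set_option autoImplicit false

namespace Pool.Agent.H47U

open FreeGroup (of lift)

variable {Q α : Type} [Group Q]

/-- PROOF. As for `detP_add_amalg` (file C02): `P = PresentedGroup R`, `ρ (mk g) ≠ 1` and
`ρ (mk h) = (b x)⁻¹ ρ (mk g) (b x) ≠ 1`, `φ : zpowers (mk h) ≃* zpowers (mk g)`,
`H = HNNExtension P _ _ φ` (so `t * of (mk h) * t⁻¹ = of (mk g)`), `ρH : t ↦ b x`, `Det ρH` by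
`det_hnn` (`k = mk h`, `g = mk g`). `θ : P' → H`, `x ↦ t`, `y ↦ of y` for `y ≠ x`;
`η : H → P'`, quotient map on `P`, `t ↦ x`; `η ∘ θ = id` on generators. -/
theorem detP_add_conj (hQ : UniqueProds Q) {R : Set (FreeGroup α)} {b : α → Q} {x : α}
    (hR : ∀ r ∈ R, r ∈ Av {x}) {g h : FreeGroup α} (hg : g ∈ Av {x}) (hh : h ∈ Av {x})
    (h1 : lift b ((of x)⁻¹ * g * of x * h⁻¹) = 1) (h2 : lift b g ≠ 1) (hD : DetP R b) :
    DetP (insert ((of x)⁻¹ * g * of x * h⁻¹) R) b := by
  classical
  have hrel : ∀ r ∈ insert ((of x)⁻¹ * g * of x * h⁻¹) R, lift b r = 1 := by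
    intro r hr
    rcases Set.mem_insert_iff.1 hr with rfl | hr
    · exact h1
    · exact hD.1 r hr
  refine ⟨hrel, fun w hw => ?_⟩
  -- the base group
  let ρ : PresentedGroup R →* Q := PresentedGroup.toGroup hD.1
  have hρ : ∀ z : FreeGroup α, ρ (PresentedGroup.mk R z) = lift b z := by
    intro z
    have e : ρ.comp (PresentedGroup.mk R) = lift b := by
      refine FreeGroup.ext_hom _ _ fun y => ?_
      rw [FreeGroup.lift_apply_of]
      exact PresentedGroup.toGroup.of hD.1
    exact congrArg (fun F => F z) e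
  have hbx : b x * lift b h = lift b g * b x := by
    simp only [map_mul, map_inv, FreeGroup.lift_apply_of] at h1
    rw [mul_inv_eq_one] at h1
    rw [← h1]
    group
  have hh2 : lift b h ≠ 1 := by
    intro h0
    rw [h0, mul_one] at hbx
    apply h2
    have := congrArg (fun z => z * (b x)⁻¹) hbx
    simpa using this.symm
  have hfin : ∀ z : FreeGroup α, lift b z ≠ 1 → ¬ IsOfFinOrder (PresentedGroup.mk R z) := by
    intro z hz hf
    have h3 := ρ.isOfFinOrder hf
    rw [hρ] at h3
    exact up_torsionfree hQ hz h3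
  obtain ⟨φ, hφ⟩ := Pool.Agent.H63RA.exists_zpowers_equiv (hfin h hh2) (hfin g h2)
  have hcond : ∀ a : Subgroup.zpowers (PresentedGroup.mk R h),
      b x * ρ ↑a = ρ (φ a : PresentedGroup R) * b x := by
    refine Pool.Agent.H63RA.zpowers_cond φ hφ ρ (b x) ?_
    rw [hρ, hρ]
    exact hbx
  let ρH : HNNExtension (PresentedGroup R) (Subgroup.zpowers (PresentedGroup.mk R h))
    (Subgroup.zpowers (PresentedGroup.mk R g)) φ →* Q := HNNExtension.lift ρ (b x) hcond
  have hρHof : ρH.comp HNNExtension.of = ρ := by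
    ext1
    simp [ρH]
  have hdet : Det ρH := by
    refine det_hnn hQ (PresentedGroup.mk R g) (PresentedGroup.mk R h) φ hφ ρH ?_ ?_
    · have e : ρH (HNNExtension.of (PresentedGroup.mk R g)) = lift b g := by
        rw [← hρ]
        simp [ρH]
      rw [e]
      exact h2
    · rw [hρHof]
      exact det_of_detP hD.1 hD
  -- the map to the extension
  let v0 : α → HNNExtension (PresentedGroup R) (Subgroup.zpowers (PresentedGroup.mk R h))
      (Subgroup.zpowers (PresentedGroup.mk R g)) φ :=
    fun y => HNNExtension.of (PresentedGroup.mk R (of y))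
  let v1 : α → HNNExtension (PresentedGroup R) (Subgroup.zpowers (PresentedGroup.mk R h))
      (Subgroup.zpowers (PresentedGroup.mk R g)) φ :=
    fun y => if y = x then HNNExtension.t else v0 y
  have hv0 : ∀ z : FreeGroup α, lift v0 z = HNNExtension.of (PresentedGroup.mk R z) := by
    intro z
    have e : lift v0 = (HNNExtension.of : PresentedGroup R →* _).comp (PresentedGroup.mk R) := by
      refine FreeGroup.ext_hom _ _ fun y => ?_
      simp [v0]
    exact congrArg (fun F => F z) e
  have hv1 : ∀ z ∈ Av ({x} : Set α), lift v1 z = HNNExtension.of (PresentedGroup.mk R z) := by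
    intro z hz
    rw [← hv0]
    refine lift_congr_av hz fun y hy => ?_
    have hyx : y ≠ x := fun h0 => hy (by rw [h0]; exact Set.mem_singleton x)
    simp [v1, hyx]
  have hv1x : lift v1 (of x) = HNNExtension.t := by
    simp [v1]
  have hth : ∀ r ∈ insert ((of x)⁻¹ * g * of x * h⁻¹) R, lift v1 r = 1 := by
    intro r hr
    rcases Set.mem_insert_iff.1 hr with rfl | hr
    · rw [map_mul, map_mul, map_mul, map_inv, map_inv, hv1 g hg, hv1 h hh, hv1x]
      have e := HNNExtension.t_mul_of (G := PresentedGroup R) (φ := φ)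
        (⟨PresentedGroup.mk R h, Subgroup.mem_zpowers _⟩)
      rw [hφ] at e
      rw [mul_inv_eq_one, mul_assoc, inv_mul_eq_iff_eq_mul]
      exact e.symm
    · rw [hv1 r (hR r hr)]
      have e : PresentedGroup.mk R r = 1 :=
        (QuotientGroup.eq_one_iff _).2 (Subgroup.subset_normalClosure hr)
      rw [e, map_one]
  -- the inverse map
  set R' : Set (FreeGroup α) := insert ((of x)⁻¹ * g * of x * h⁻¹) R with hR'
  have hmk : ∀ r ∈ R', PresentedGroup.mk R' r = 1 := fun r hr =>
    (QuotientGroup.eq_one_iff _).2 (Subgroup.subset_normalClosure hr)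
  have hlmk : (lift fun y => PresentedGroup.mk R' (of y)) = PresentedGroup.mk R' := by
    refine FreeGroup.ext_hom _ _ fun y => ?_
    simp
  have hf0 : ∀ r ∈ R, lift (fun y => PresentedGroup.mk R' (of y)) r = 1 := by
    intro r hr
    rw [hlmk]
    exact hmk r (Set.mem_insert_of_mem _ hr)
  let f : PresentedGroup R →* PresentedGroup R' := PresentedGroup.toGroup hf0
  have hf : ∀ z : FreeGroup α, f (PresentedGroup.mk R z) = PresentedGroup.mk R' z := by
    intro z
    have e : f.comp (PresentedGroup.mk R) = PresentedGroup.mk R' := by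
      refine FreeGroup.ext_hom _ _ fun y => ?_
      exact PresentedGroup.toGroup.of hf0
    exact congrArg (fun F => F z) e
  have hcond' : ∀ a : Subgroup.zpowers (PresentedGroup.mk R h),
      PresentedGroup.mk R' (of x) * f ↑a =
        f (φ a : PresentedGroup R) * PresentedGroup.mk R' (of x) := by
    refine Pool.Agent.H63RA.zpowers_cond φ hφ f (PresentedGroup.mk R' (of x)) ?_
    rw [hf, hf]
    have e := hmk _ (Set.mem_insert _ _)
    rw [map_mul, map_mul, map_mul, map_inv, map_inv, mul_inv_eq_one, mul_assoc,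
      inv_mul_eq_iff_eq_mul] at e
    exact e.symm
  let η := HNNExtension.lift f (PresentedGroup.mk R' (of x)) hcond'
  have hη : ∀ z : FreeGroup α, η (lift v1 z) = PresentedGroup.mk R' z := by
    intro z
    have e : η.comp (lift v1) = PresentedGroup.mk R' := by
      refine FreeGroup.ext_hom _ _ fun y => ?_
      by_cases hy : y = x
      · subst hy
        simp [η, v1]
      · simp [η, v1, hy, v0, hf]
    exact congrArg (fun F => F z) e
  have hne : lift v1 w ≠ 1 := by
    intro h0
    apply hw
    have h3 := hη w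
    rw [h0, map_one] at h3
    exact (QuotientGroup.eq_one_iff _).1 h3.symm
  obtain ⟨S, hS, π, F, hA, hF, hFne⟩ := hdet _ hne
  have hFl : ∀ z : FreeGroup α, lift (fun y => F (v1 y)) z = F (lift v1 z) := by
    intro z
    have e : (lift fun y => F (v1 y)) = F.comp (lift v1) := by
      refine FreeGroup.ext_hom _ _ fun y => ?_
      simp
    exact congrArg (fun F => F z) e
  refine ⟨S, hS, π, fun y => F (v1 y), hA, fun y => ?_, fun r hr => ?_, ?_⟩
  · have e : π (F (v1 y)) = ρH (v1 y) := congrArg (fun G => G (v1 y)) hF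
    rw [e]
    by_cases hy : y = x
    · subst hy
      simp [ρH, v1]
    · have e2 : v1 y = HNNExtension.of (PresentedGroup.mk R (of y)) := by
        simp [v1, hy, v0]
      rw [e2]
      have e3 : ρH (HNNExtension.of (PresentedGroup.mk R (of y))) = ρ (PresentedGroup.mk R (of y)) :=
        congrArg (fun G => G (PresentedGroup.mk R (of y))) hρHof
      rw [e3, hρ]
      simp
  · rw [hFl, hth r hr, map_one]
  · rw [hFl]
    exact hFne

end Pool.Agent.H47U
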