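import Pool.Agent.Lib.H47U.B07
import Pool.Agent.Lib.H47U.C01

/-! CHUNK C04 (S/M): no relators; change of alphabet. -/

set_option autoImplicit false

namespace Pool.Agent.H47U

open FreeGroup (of lift)

variable {Q α α' : Type} [Group Q]

/-- `normalClosure ∅ = ⊥` and `det_free`. -/
theorem detP_empty (hQ : UniqueProds Q) (b : α → Q) : DetP (∅ : Set (FreeGroup α)) b := by
  refine ⟨fun r hr => absurd hr (Set.notMem_empty r), fun w hw => ?_⟩
  have h1 : w ≠ 1 := by
    rintro rfl
    exact hw (Subgroup.one_mem _)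
  obtain ⟨S, hS, π, f, hA, hf, hne⟩ := det_free hQ b w h1
  refine ⟨S, hS, π, fun y => f (of y), hA, fun y => ?_, fun r hr => absurd hr (Set.notMem_empty r),
    ?_⟩
  · have h2 := congrArg (fun F => F (of y)) hf
    simpa using h2
  · have h3 : (lift fun y => f (of y)) = f := by
      refine FreeGroup.ext_hom _ _ fun y => ?_
      simp
    rw [h3]
    exact hne

/-- Retracts: if `θ : FreeGroup α → FreeGroup α'` and `η : FreeGroup α' → FreeGroup α` respect the
relators and `η (θ w) = w` modulo `R`, then `DetP` goes from `R'` to `R`. PROOF. If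
`w ∉ normalClosure R`, then `θ w ∉ normalClosure R'` (otherwise `η (θ w) ∈ normalClosure R`, so
`w ∈ normalClosure R`); `v y = lift v' (θ (of y))`. -/
theorem detP_retract {R : Set (FreeGroup α)} {R' : Set (FreeGroup α')} {b : α → Q} {b' : α' → Q}
    (θ : FreeGroup α →* FreeGroup α') (η : FreeGroup α' →* FreeGroup α)
    (hθ : ∀ r ∈ R, θ r ∈ Subgroup.normalClosure R')
    (hη : ∀ r ∈ R', η r ∈ Subgroup.normalClosure R)
    (hηθ : ∀ w, (η (θ w))⁻¹ * w ∈ Subgroup.normalClosure R)
    (hb : ∀ y, lift b' (θ (of y)) = b y) (hD : DetP R' b') : DetP R b := by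
  have hker : ∀ {T : Type} [Group T] (F : FreeGroup α' →* T), (∀ r ∈ R', F r = 1) →
      ∀ z ∈ Subgroup.normalClosure R', F z = 1 := by
    intro T _ F hF z hz
    have h1 : Subgroup.normalClosure R' ≤ F.ker := Subgroup.normalClosure_le_normal fun r hr => hF r hr
    exact h1 hz
  have hlift : ∀ {T : Type} [Group T] (v' : α' → T) (w : FreeGroup α),
      lift (fun y => lift v' (θ (of y))) w = lift v' (θ w) := by
    intro T _ v' w
    have h1 : (lift fun y => lift v' (θ (of y))) = (lift v').comp θ := by
      refine FreeGroup.ext_hom _ _ fun y => ?_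
      simp
    rw [h1]
    rfl
  have hbb : (fun y => lift b' (θ (of y))) = b := funext hb
  refine ⟨fun r hr => ?_, fun w hw => ?_⟩
  · rw [← hbb, hlift]
    exact hker (lift b') hD.1 _ (hθ r hr)
  · have h1 : θ w ∉ Subgroup.normalClosure R' := by
      intro h2
      apply hw
      have h3 : Subgroup.normalClosure R' ≤ (Subgroup.normalClosure R).comap η :=
        Subgroup.normalClosure_le_normal fun r hr => hη r hr
      have h4 : η (θ w) ∈ Subgroup.normalClosure R := h3 h2
      have h5 := Subgroup.mul_mem _ h4 (hηθ w)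
      rwa [mul_inv_cancel_left] at h5
    obtain ⟨S, hS, π, v', hA, hv, hrel, hne⟩ := hD.2 (θ w) h1
    refine ⟨S, hS, π, fun y => lift v' (θ (of y)), hA, fun y => ?_, fun r hr => ?_, ?_⟩
    · have h2 : π.comp (lift v') = lift b' := by
        refine FreeGroup.ext_hom _ _ fun z => ?_
        simp [hv]
      have h3 := congrArg (fun F => F (θ (of y))) h2
      simp only [MonoidHom.comp_apply] at h3
      rw [h3, hb]
    · rw [hlift]
      exact hker (lift v') hrel _ (hθ r hr)
    · rw [hlift]
      exact hne

end Pool.Agent.H47U
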