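import Pool.Agent.Lib.H47U.A04

/-! CHUNK C05 (S/M, 6 small lemmas): the shift. -/

set_option autoImplicit false

namespace Pool.Agent.H47U

open FreeGroup (of lift)

variable {Q β : Type} [Group Q]

/-- PROOF. `lift b (sh j w) = lift (fun p => b (p.1, p.2 + j)) w = lift (conj ∘ b) w`. -/
theorem lift_sh {τ : Q} {b : β × ℤ → Q} (hb : Eqv τ b) (j : ℤ) (w : FreeGroup (β × ℤ)) :
    lift b (sh j w) = τ ^ (-j) * lift b w * τ ^ j := by
  have h : (lift b).comp (sh j) = (MulAut.conj (τ ^ (-j))).toMonoidHom.comp (lift b) := by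
    ext p
    simp only [sh, MonoidHom.comp_apply, FreeGroup.map.of, FreeGroup.lift_apply_of,
      MulEquiv.coe_toMonoidHom, MulAut.conj_apply]
    rw [hb p.1 p.2 j]
    simp
  have h2 := DFunLike.congr_fun h w
  rw [MonoidHom.comp_apply, MonoidHom.comp_apply, MulEquiv.coe_toMonoidHom,
    MulAut.conj_apply] at h2
  rw [h2]
  simp

theorem sh_sh (i j : ℤ) (w : FreeGroup (β × ℤ)) : sh i (sh j w) = sh (i + j) w := by
  have h : (sh i : FreeGroup (β × ℤ) →* _).comp (sh j) = sh (i + j) := by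
    ext p
    simp only [sh, MonoidHom.comp_apply, FreeGroup.map.of]
    rw [add_assoc, add_comm j i]
  exact DFunLike.congr_fun h w

theorem sh_zero (w : FreeGroup (β × ℤ)) : sh 0 w = w := by
  have h : (sh 0 : FreeGroup (β × ℤ) →* _) = MonoidHom.id _ := by
    ext p
    simp only [sh, FreeGroup.map.of, add_zero, MonoidHom.id_apply]
  exact DFunLike.congr_fun h w

/-- `fox_rename` for the shift of letters and `fox_map` for the conjugation by `τ ^ (-j)`
(injective, so `mapDomain` is injective). -/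
theorem fox_sh {τ : Q} {b : β × ℤ → Q} (hb : Eqv τ b) (y : β) (i j : ℤ) (w : FreeGroup (β × ℤ))
    (h : fox b (y, i) w ≠ 0) : fox b (y, i + j) (sh j w) ≠ 0 := by
  have he : Function.Injective (fun p : β × ℤ => (p.1, p.2 + j)) := by
    intro p p' hp
    simp only [Prod.mk.injEq, add_left_inj] at hp
    exact Prod.ext hp.1 hp.2
  have h1 := fox_rename (fun p : β × ℤ => (p.1, p.2 + j)) he b (y, i) w
  simp only at h1
  have h2 : (fun p : β × ℤ => b (p.1, p.2 + j)) =
      fun p => (MulAut.conj (τ ^ (-j))).toMonoidHom (b p) := by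
    funext p
    simp only [MulEquiv.coe_toMonoidHom, MulAut.conj_apply]
    rw [hb p.1 p.2 j]
    simp
  rw [h2, fox_map] at h1
  unfold sh
  rw [h1]
  intro h3
  apply h
  have hinj : Function.Injective (MulAut.conj (τ ^ (-j))).toMonoidHom :=
    (MulAut.conj (τ ^ (-j))).injective
  exact MonoidAlgebra.mapDomain_injective hinj (h3.trans (MonoidAlgebra.mapDomain_zero _).symm)

/-- `map_mem_Av`. -/
theorem sh_mem_Av {T : Set (β × ℤ)} (j : ℤ) {w : FreeGroup (β × ℤ)} (hw : w ∈ Av T) :
    sh j w ∈ Av {p : β × ℤ | (p.1, p.2 - j) ∈ T} := by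
  refine map_mem_Av (fun y hy => ?_) hw
  simpa using hy

/-- The word `w` has only finitely many letters (`FreeGroup.induction_on`). -/
theorem exists_bound (w : FreeGroup (β × ℤ)) : ∃ N : ℕ, w ∈ Av {p : β × ℤ | (N : ℤ) ≤ |p.2|} := by
  induction w using FreeGroup.induction_on with
  | C1 => exact ⟨0, one_mem _⟩
  | of p =>
    refine ⟨p.2.natAbs + 1, of_mem_Av ?_⟩
    simp only [Set.mem_ofPred_eq, not_le]
    push_cast
    exact lt_add_one _
  | inv_of p h =>
    obtain ⟨N, hN⟩ := h
    exact ⟨N, inv_mem hN⟩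
  | mul a b ha hb =>
    obtain ⟨N, hN⟩ := ha
    obtain ⟨M, hM⟩ := hb
    refine ⟨max N M, mul_mem (Av_anti ?_ hN) (Av_anti ?_ hM)⟩
    · intro p hp
      simp only [Set.mem_ofPred_eq] at hp ⊢
      exact le_trans (by exact_mod_cast le_max_left N M) hp
    · intro p hp
      simp only [Set.mem_ofPred_eq] at hp ⊢
      exact le_trans (by exact_mod_cast le_max_right N M) hp

end Pool.Agent.H47U
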