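import Pool.Agent.Lib.H47U.C05

/-! CHUNK C05B (S/M, 5 small lemmas): the words `kap w`. -/

set_option autoImplicit false

namespace Pool.Agent.H47U

open FreeGroup (of lift)

variable {Q β : Type} [Group Q]

/-- `kap (sh j w) = t⁻ʲ (kap w) tʲ`. -/
theorem kap_sh (j : ℤ) (w : FreeGroup (β × ℤ)) :
    kap (sh j w) = (of none) ^ (-j) * kap w * (of none) ^ j := by
  have h : (kap (β := β)).comp (sh j) =
      (MulAut.conj ((of none : FreeGroup (Option β)) ^ (-j))).toMonoidHom.comp kap := by
    refine FreeGroup.ext_hom _ _ fun p => ?_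
    simp only [MonoidHom.comp_apply, sh, FreeGroup.map.of, kap, FreeGroup.lift_apply_of,
      MulEquiv.coe_toMonoidHom, MulAut.conj_apply]
    rw [neg_add_rev, zpow_add, zpow_add, zpow_neg (of none : FreeGroup (Option β)) j, inv_inv]
    simp only [mul_assoc]
  have h1 := congrArg (fun F => F w) h
  simp only [MonoidHom.comp_apply, MulEquiv.coe_toMonoidHom, MulAut.conj_apply] at h1
  rw [h1, zpow_neg, inv_inv]

/-- PROOF. By `FreeGroup.induction_on` / closure: `of (some y) = kap (of (y, 0))`, `of none`;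
`kap w * t ^ n * (kap w' * t ^ n') = kap (w * sh (-n) w') * t ^ (n + n')` (`kap_sh`). -/
theorem exists_kap (z : FreeGroup (Option β)) :
    ∃ (w : FreeGroup (β × ℤ)) (n : ℤ), z = kap w * (of none) ^ n := by
  have hof : ∀ y : β, kap (of (y, (0 : ℤ))) = (of (some y) : FreeGroup (Option β)) := by
    intro y
    simp [kap]
  induction z using FreeGroup.induction_on with
  | C1 => exact ⟨1, 0, by simp⟩
  | of x =>
    cases x with
    | none => exact ⟨1, 1, by simp⟩
    | some y => exact ⟨of (y, 0), 0, by rw [hof]; simp⟩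
  | inv_of x _ =>
    cases x with
    | none => exact ⟨1, -1, by simp⟩
    | some y => exact ⟨(of (y, 0))⁻¹, 0, by rw [map_inv, hof]; simp⟩
  | mul x y hx hy =>
    obtain ⟨w, n, rfl⟩ := hx
    obtain ⟨w', n', rfl⟩ := hy
    refine ⟨w * sh (-n) w', n + n', ?_⟩
    rw [map_mul, kap_sh, neg_neg, zpow_add, zpow_neg]
    group

/-- The images of the letters in a one-relator group are compatible with the shift
(`kap_sh` for `w = of (y, i)`). -/
theorem eqv_bar {r : FreeGroup (β × ℤ)} (φ : OR r →* Q) :
    Eqv (φ (PresentedGroup.mk _ (of none))) (bar φ) := by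
  intro y i j
  have h : sh j (of (y, i)) = (of (y, i + j) : FreeGroup (β × ℤ)) := by
    simp [sh]
  simp only [bar]
  rw [← h, kap_sh]
  simp only [map_mul, map_zpow]

/-- (comparison of homomorphisms on generators) -/
theorem lift_bar {r : FreeGroup (β × ℤ)} (φ : OR r →* Q) (w : FreeGroup (β × ℤ)) :
    lift (bar φ) w = φ (PresentedGroup.mk _ (kap w)) := by
  have h : (lift (bar φ) : FreeGroup (β × ℤ) →* Q) =
      φ.comp ((PresentedGroup.mk _).comp kap) := by
    refine FreeGroup.ext_hom _ _ fun p => ?_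
    simp [bar]
  rw [h]
  rfl

/-- The relator is trivial: `lift_bar`. -/
theorem lift_bar_rel {r : FreeGroup (β × ℤ)} (φ : OR r →* Q) : lift (bar φ) r = 1 := by
  rw [lift_bar]
  have h : PresentedGroup.mk ({kap r} : Set (FreeGroup (Option β))) (kap r) = 1 := by
    refine (QuotientGroup.eq_one_iff _).2 ?_
    exact Subgroup.subset_normalClosure (Set.mem_singleton _)
  rw [h, map_one]

end Pool.Agent.H47U
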