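import Pool.Agent.Lib.H47U.C02
import Pool.Agent.Lib.H47U.C04
import Pool.Agent.Lib.H47U.C05

/-! CHUNK C06 (S/M): windows for the relator `A u⁻¹`. -/

set_option autoImplicit false

namespace Pool.Agent.H47U

open FreeGroup (of lift)

variable {Q β : Type} [Group Q]

theorem win_zero (r : FreeGroup (β × ℤ)) : win r 0 = ∅ := by
  unfold win
  rw [Set.image_eq_empty]
  ext x
  simp

theorem win_succ (r : FreeGroup (β × ℤ)) (m : ℕ) :
    win r (m + 1) = insert (sh (m : ℤ) r) (win r m) := by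
  unfold win
  rw [← Set.image_insert_eq (f := fun j : ℕ => sh (j : ℤ) r)]
  congr 1
  ext x
  simp only [Set.mem_Iio, Set.mem_insert_iff]
  omega

theorem c06_ne {τ : Q} {b : β × ℤ → Q} (hb : Eqv τ b) {w : FreeGroup (β × ℤ)}
    (h : lift b w ≠ 1) (j : ℤ) : lift b (sh j w) ≠ 1 := by
  rw [lift_sh hb]
  intro h1
  apply h
  rw [zpow_neg] at h1
  have h2 : lift b w = τ ^ j * ((τ ^ j)⁻¹ * lift b w * τ ^ j) * (τ ^ j)⁻¹ := by group
  rw [h2, h1]
  group

/-- PROOF. Induction on `m`: `detP_empty`; step: `win_succ`, `sh m (A * u⁻¹) = sh m A * (sh m u)⁻¹`,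
`detP_add_amalg` with `T = {p | p.1 ∈ X ∧ p.2 = k p.1 + m}`. The relators `sh j (A * u⁻¹)`, `j < m`,
avoid `T` (`sh_mem_Av`, `Av_anti`: the letters `(x, i)`, `x ∈ X`, of `sh j A` have `i = k x + j`, those
of `sh j u` have `i < k x + j`). The values: `lift_sh`. -/
theorem win_amalg (hQ : UniqueProds Q) {τ : Q} {b : β × ℤ → Q} (hb : Eqv τ b) {X : Set β}
    {k : β → ℤ} {A u : FreeGroup (β × ℤ)} (hA : A ∈ Av {p : β × ℤ | p.1 ∈ X ∧ p.2 = k p.1}ᶜ)
    (hu : u ∈ Av {p : β × ℤ | p.1 ∈ X ∧ k p.1 ≤ p.2}) (h1 : lift b A = lift b u)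
    (h2 : lift b u ≠ 1) (m : ℕ) : DetP (win (A * u⁻¹) m) b := by
  induction m with
  | zero =>
    rw [win_zero]
    exact detP_empty hQ b
  | succ m ih =>
    rw [win_succ, map_mul, map_inv]
    refine detP_add_amalg hQ (T := {p : β × ℤ | p.1 ∈ X ∧ p.2 = k p.1 + m}) ?_ ?_ ?_ ?_
      (c06_ne hb h2 _) ih
    · rintro r ⟨j, hj, rfl⟩
      rw [Set.mem_Iio] at hj
      simp only [map_mul, map_inv]
      refine mul_mem (Av_anti ?_ (sh_mem_Av (j : ℤ) hA)) (inv_mem (Av_anti ?_ (sh_mem_Av (j : ℤ) hu)))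
      · rintro p ⟨hp1, hp2⟩
        simp only [Set.mem_ofPred_eq, Set.mem_compl_iff, not_and]
        intro _
        omega
      · rintro p ⟨hp1, hp2⟩
        simp only [Set.mem_ofPred_eq]
        exact ⟨hp1, by omega⟩
    · refine Av_anti ?_ (sh_mem_Av (m : ℤ) hA)
      intro p hp
      simp only [Set.mem_ofPred_eq, Set.mem_compl_iff, not_and] at hp ⊢
      intro hx h3
      exact hp hx (by omega)
    · refine Av_anti ?_ (sh_mem_Av (m : ℤ) hu)
      rintro p ⟨hp1, hp2⟩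
      simp only [Set.mem_ofPred_eq]
      exact ⟨hp1, by omega⟩
    · rw [lift_sh hb, lift_sh hb, h1]

end Pool.Agent.H47U
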