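import Pool.Agent.Lib.H47U.C03
import Pool.Agent.Lib.H47U.C06

/-! CHUNK C07 (S/M): windows for the relator `x⁻¹ g x h⁻¹`. -/

set_option autoImplicit false

namespace Pool.Agent.H47U

open FreeGroup (of lift)

variable {Q β : Type} [Group Q]

theorem c07_sh_of (j : ℤ) (x : β) (i : ℤ) : sh j (of (x, i)) = of (x, i + j) := by
  simp only [sh, FreeGroup.map.of]

theorem c07_av {x : β} {k : ℤ} {g : FreeGroup (β × ℤ)}
    (hg : g ∈ Av {p : β × ℤ | p.1 = x ∧ k ≤ p.2}) {j m : ℕ} (hj : j ≤ m) :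
    sh (j : ℤ) g ∈ Av {((x, k + m) : β × ℤ)} := by
  refine Av_anti ?_ (sh_mem_Av (j : ℤ) hg)
  intro p hp
  rw [Set.mem_singleton_iff] at hp
  subst hp
  simp only [Set.mem_ofPred_eq, true_and]
  omega

/-- PROOF. Induction on `m` as for `win_amalg`, with `detP_add_conj` for the letter `(x, k + m)`. -/
theorem win_conj (hQ : UniqueProds Q) {τ : Q} {b : β × ℤ → Q} (hb : Eqv τ b) {x : β}
    {k : ℤ} {g h : FreeGroup (β × ℤ)} (hg : g ∈ Av {p : β × ℤ | p.1 = x ∧ k ≤ p.2})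
    (hh : h ∈ Av {p : β × ℤ | p.1 = x ∧ k ≤ p.2})
    (h1 : lift b ((of (x, k))⁻¹ * g * of (x, k) * h⁻¹) = 1) (h2 : lift b g ≠ 1) (m : ℕ) :
    DetP (win ((of (x, k))⁻¹ * g * of (x, k) * h⁻¹) m) b := by
  induction m with
  | zero =>
    rw [win_zero]
    exact detP_empty hQ b
  | succ m ih =>
    have e : ∀ j : ℤ, sh j ((of (x, k))⁻¹ * g * of (x, k) * h⁻¹) =
        (of (x, k + j))⁻¹ * sh j g * of (x, k + j) * (sh j h)⁻¹ := by
      intro j
      simp only [map_mul, map_inv, c07_sh_of]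
    have e1 : lift b (sh (m : ℤ) ((of (x, k))⁻¹ * g * of (x, k) * h⁻¹)) = 1 := by
      rw [lift_sh hb, h1, mul_one, ← zpow_add, neg_add_cancel, zpow_zero]
    rw [e] at e1
    rw [win_succ, e]
    refine detP_add_conj hQ ?_ (c07_av hg le_rfl) (c07_av hh le_rfl) e1 (c06_ne hb h2 _) ih
    rintro r ⟨j, hj, rfl⟩
    rw [Set.mem_Iio] at hj
    change sh (j : ℤ) ((of (x, k))⁻¹ * g * of (x, k) * h⁻¹) ∈ _
    rw [e]
    have h3 : (of (x, k + (j : ℤ)) : FreeGroup (β × ℤ)) ∈ Av {((x, k + m) : β × ℤ)} := by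
      refine of_mem_Av ?_
      rw [Set.mem_singleton_iff, Prod.mk.injEq, not_and]
      intro _
      omega
    exact mul_mem (mul_mem (mul_mem (inv_mem h3) (c07_av hg hj.le)) h3)
      (inv_mem (c07_av hh hj.le))

end Pool.Agent.H47U
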