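import Pool.Agent.Lib.H47U.C03
import Pool.Agent.Lib.H47U.C06

/-! CHUNK C08 (M): windows for the relator `A⁻¹ g A h⁻¹`. -/

set_option autoImplicit false

namespace Pool.Agent.H47U

open FreeGroup (of lift)

variable {Q β : Type} [Group Q]

namespace WinConjA

/-- The new alphabet. -/
abbrev NA (β : Type) : Type := (β × ℤ) ⊕ ℕ

/-- The inclusion of the old words. -/
def io : FreeGroup (β × ℤ) →* FreeGroup (NA β) := FreeGroup.map Sum.inl

/-- The new letters. -/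
def X (j : ℕ) : FreeGroup (NA β) := of (Sum.inr j)

/-- The first relator. -/
def rel1 (A : FreeGroup (β × ℤ)) (j : ℕ) : FreeGroup (NA β) := io (sh (j : ℤ) A) * (X j)⁻¹

/-- The second relator. -/
def rel2 (g h : FreeGroup (β × ℤ)) (j : ℕ) : FreeGroup (NA β) :=
  (X j)⁻¹ * io (sh (j : ℤ) g) * X j * (io (sh (j : ℤ) h))⁻¹

/-- The relators. -/
def RR (A g h : FreeGroup (β × ℤ)) : ℕ → Set (FreeGroup (NA β))
  | 0 => ∅
  | m + 1 => insert (rel1 A m) (insert (rel2 g h m) (RR A g h m))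

lemma mem_RR {A g h : FreeGroup (β × ℤ)} {m : ℕ} {r : FreeGroup (NA β)} :
    r ∈ RR A g h m ↔ ∃ j < m, r = rel1 A j ∨ r = rel2 g h j := by
  induction m with
  | zero => simp [RR]
  | succ m ih =>
    rw [RR, Set.mem_insert_iff, Set.mem_insert_iff, ih]
    constructor
    · rintro (h | h | ⟨j, hj, h⟩)
      · exact ⟨m, Nat.lt_succ_self m, Or.inl h⟩
      · exact ⟨m, Nat.lt_succ_self m, Or.inr h⟩
      · exact ⟨j, Nat.lt_succ_of_lt hj, h⟩
    · rintro ⟨j, hj, h⟩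
      rcases Nat.lt_succ_iff_lt_or_eq.1 hj with hj | rfl
      · exact Or.inr (Or.inr ⟨j, hj, h⟩)
      · rcases h with h | h
        · exact Or.inl h
        · exact Or.inr (Or.inl h)

/-- The letters avoided by the first `m` pairs of relators. -/
def TT (Xs : Set β) (k : β → ℤ) (m : ℕ) : Set (NA β) :=
  Sum.inl '' {p : β × ℤ | p.1 ∈ Xs ∧ k p.1 + m ≤ p.2} ∪ Sum.inr '' {j : ℕ | m ≤ j}

/-- The letters avoided by the words `g`. -/
def T0 (Xs : Set β) (k : β → ℤ) (m : ℕ) : Set (NA β) :=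
  Sum.inl '' {p : β × ℤ | p.1 ∈ Xs ∧ k p.1 + m ≤ p.2} ∪ Set.range Sum.inr

/-- The letters of `A`. -/
def TA (Xs : Set β) (k : β → ℤ) (m : ℕ) : Set (NA β) :=
  Sum.inl '' {p : β × ℤ | p.1 ∈ Xs ∧ p.2 = k p.1 + m}

lemma io_mem_T0 {Xs : Set β} {k : β → ℤ} {g : FreeGroup (β × ℤ)}
    (hg : g ∈ Av {p : β × ℤ | p.1 ∈ Xs ∧ k p.1 ≤ p.2}) (m : ℕ) :
    io (sh (m : ℤ) g) ∈ Av (T0 Xs k m) := by
  refine map_mem_Av (T := {p : β × ℤ | (p.1, p.2 - (m : ℤ)) ∈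
    {p : β × ℤ | p.1 ∈ Xs ∧ k p.1 ≤ p.2}}) ?_ (sh_mem_Av (m : ℤ) hg)
  rintro y hy (⟨p, hp, h⟩ | ⟨j, h⟩)
  · obtain rfl := Sum.inl_injective h
    refine hy ⟨hp.1, ?_⟩
    have := hp.2
    change k p.1 ≤ p.2 - m
    linarith
  · exact absurd h (by simp)

lemma io_mem_TA {Xs : Set β} {k : β → ℤ} {A : FreeGroup (β × ℤ)}
    (hA : A ∈ Av {p : β × ℤ | p.1 ∈ Xs ∧ p.2 = k p.1}ᶜ) (m : ℕ) :
    io (sh (m : ℤ) A) ∈ Av (TA Xs k m)ᶜ := by
  refine map_mem_Av (T := {p : β × ℤ | (p.1, p.2 - (m : ℤ)) ∈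
    {p : β × ℤ | p.1 ∈ Xs ∧ p.2 = k p.1}ᶜ}) ?_ (sh_mem_Av (m : ℤ) hA)
  intro y hy hy'
  refine hy ?_
  intro h
  refine hy' ⟨y, ⟨h.1, ?_⟩, rfl⟩
  have := h.2
  change y.2 - m = k y.1 at this
  linarith

lemma X_mem {T : Set (NA β)} {m : ℕ} (h : Sum.inr m ∉ T) : (X m : FreeGroup (NA β)) ∈ Av T :=
  of_mem_Av h

lemma rel1_mem {T : Set (NA β)} {A : FreeGroup (β × ℤ)} {m : ℕ}
    (h1 : io (sh (m : ℤ) A) ∈ Av T) (h2 : Sum.inr m ∉ T) : rel1 A m ∈ Av T :=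
  mul_mem h1 (inv_mem (X_mem h2))

lemma rel2_mem {T : Set (NA β)} {g h : FreeGroup (β × ℤ)} {m : ℕ}
    (h1 : io (sh (m : ℤ) g) ∈ Av T) (h2 : io (sh (m : ℤ) h) ∈ Av T) (h3 : Sum.inr m ∉ T) :
    rel2 g h m ∈ Av T :=
  mul_mem (mul_mem (mul_mem (inv_mem (X_mem h3)) h1) (X_mem h3)) (inv_mem h2)

lemma RR_mem {Xs : Set β} {k : β → ℤ} {A g h : FreeGroup (β × ℤ)}
    (hA : A ∈ Av {p : β × ℤ | p.1 ∈ Xs ∧ p.2 = k p.1}ᶜ)
    (hg : g ∈ Av {p : β × ℤ | p.1 ∈ Xs ∧ k p.1 ≤ p.2})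
    (hh : h ∈ Av {p : β × ℤ | p.1 ∈ Xs ∧ k p.1 ≤ p.2}) {m : ℕ} {r : FreeGroup (NA β)}
    (hr : r ∈ RR A g h m) : r ∈ Av (TT Xs k m) := by
  obtain ⟨j, hj, h⟩ := mem_RR.1 hr
  have hjn : Sum.inr j ∉ TT Xs k m := by
    rintro (⟨p, _, h⟩ | ⟨i, hi, h⟩)
    · exact absurd h (by simp)
    · obtain rfl := Sum.inr_injective h
      exact absurd hi (not_le.2 hj)
  have hj' : (j : ℤ) < m := by exact_mod_cast hj
  have hsub : TT Xs k m ⊆ T0 Xs k j := by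
    rintro y (⟨p, hp, rfl⟩ | ⟨i, _, rfl⟩)
    · refine Or.inl ⟨p, ⟨hp.1, ?_⟩, rfl⟩
      have := hp.2
      linarith
    · exact Or.inr ⟨i, rfl⟩
  have hsubA : TT Xs k m ⊆ (TA Xs k j)ᶜ := by
    rintro y hy ⟨p, hp, rfl⟩
    rcases hy with ⟨q, hq, h⟩ | ⟨i, _, h⟩
    · obtain rfl := Sum.inl_injective h
      have h1 := hp.2
      have h2 := hq.2
      linarith
    · exact absurd h (by simp)
  rcases h with rfl | rfl
  · exact rel1_mem (Av_anti hsubA (io_mem_TA hA j)) hjn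
  · exact rel2_mem (Av_anti hsub (io_mem_T0 hg j)) (Av_anti hsub (io_mem_T0 hh j)) hjn

/-- The values of the letters. -/
def b' (b : β × ℤ → Q) (A : FreeGroup (β × ℤ)) : NA β → Q :=
  Sum.elim b fun j => lift b (sh (j : ℤ) A)

lemma lift_io (b : β × ℤ → Q) (A w : FreeGroup (β × ℤ)) : lift (b' b A) (io w) = lift b w := by
  have : (lift (b' b A)).comp io = lift b := by
    ext y
    simp [io, b']
  exact DFunLike.congr_fun this w

lemma lift_X (b : β × ℤ → Q) (A : FreeGroup (β × ℤ)) (j : ℕ) :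
    lift (b' b A) (X j) = lift b (sh (j : ℤ) A) := by
  simp [X, b']

lemma conj_ne {τ : Q} {a : Q} (h : a ≠ 1) (j : ℤ) : τ ^ (-j) * a * τ ^ j ≠ 1 := by
  intro h'
  apply h
  rw [zpow_neg, mul_assoc, inv_mul_eq_one] at h'
  exact right_eq_mul.1 h'

/-- `DetP` for the big presentation. -/
lemma detP_RR (hQ : UniqueProds Q) {τ : Q} {b : β × ℤ → Q} (hb : Eqv τ b) {Xs : Set β}
    {k : β → ℤ} {A g h : FreeGroup (β × ℤ)} (hA : A ∈ Av {p : β × ℤ | p.1 ∈ Xs ∧ p.2 = k p.1}ᶜ)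
    (hg : g ∈ Av {p : β × ℤ | p.1 ∈ Xs ∧ k p.1 ≤ p.2})
    (hh : h ∈ Av {p : β × ℤ | p.1 ∈ Xs ∧ k p.1 ≤ p.2})
    (h1 : lift b (A⁻¹ * g * A * h⁻¹) = 1) (h2 : lift b g ≠ 1) (h3 : lift b A ≠ 1) (m : ℕ) :
    DetP (RR A g h m) (b' b A) := by
  induction m with
  | zero => exact detP_empty hQ _
  | succ m ih =>
    have e1 : DetP (insert (rel2 g h m) (RR A g h m)) (b' b A) := by
      refine detP_add_conj (x := Sum.inr m) hQ ?_ ?_ ?_ ?_ ?_ ih
      · intro r hr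
        refine Av_anti ?_ (RR_mem hA hg hh hr)
        rintro y rfl
        exact Or.inr ⟨m, le_refl m, rfl⟩
      · refine Av_anti ?_ (io_mem_T0 hg m)
        rintro y rfl
        exact Or.inr ⟨m, rfl⟩
      · refine Av_anti ?_ (io_mem_T0 hh m)
        rintro y rfl
        exact Or.inr ⟨m, rfl⟩
      · have : (X m : FreeGroup (NA β)) = of (Sum.inr m) := rfl
        rw [← this, map_mul, map_mul, map_mul, map_inv, map_inv, lift_io, lift_io, lift_X,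
          ← map_inv, ← map_inv, ← map_mul, ← map_mul, ← map_mul, ← map_inv, ← map_inv, ← map_mul,
          ← map_mul, ← map_mul, lift_sh hb, h1, mul_one, zpow_neg, inv_mul_cancel]
      · rw [lift_io, lift_sh hb]
        exact conj_ne h2 _
    refine detP_add_amalg (T := TA Xs k m) hQ ?_ (io_mem_TA hA m) ?_ ?_ ?_ e1
    · rintro r (rfl | hr)
      · have hsub : TA Xs k m ⊆ T0 Xs k m := by
          rintro y ⟨p, hp, rfl⟩
          exact Or.inl ⟨p, ⟨hp.1, hp.2.ge⟩, rfl⟩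
        refine rel2_mem (Av_anti hsub (io_mem_T0 hg m)) (Av_anti hsub (io_mem_T0 hh m)) ?_
        rintro ⟨p, _, h⟩
        exact absurd h (by simp)
      · refine Av_anti ?_ (RR_mem hA hg hh hr)
        rintro y ⟨p, hp, rfl⟩
        exact Or.inl ⟨p, ⟨hp.1, hp.2.ge⟩, rfl⟩
    · refine X_mem ?_
      rintro ⟨p, _, h⟩
      exact absurd h (by simp)
    · rw [lift_io, lift_X]
    · rw [lift_X, lift_sh hb]
      exact conj_ne h3 _

end WinConjA

open WinConjA in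
/-- PROOF. Alphabet `α' = (β × ℤ) ⊕ ℕ`, `ι = FreeGroup.map Sum.inl`, `X j = of (Sum.inr j)`,
`A_j = sh j A` etc., `b' (inl p) = b p`, `b' (inr j) = lift b (sh j A)`, relators
`R' m = {(X j)⁻¹ * ι g_j * X j * (ι h_j)⁻¹ | j < m} ∪ {ι A_j * (X j)⁻¹ | j < m}`.
(1) `DetP (R' m) b'` by induction on `m`: `detP_empty`; step: `detP_add_conj` for the letter `inr m`
(not occurring in `R' m`; `lift b' (ι g_m) = τ⁻ᵐ (lift b g) τᵐ ≠ 1`), then `detP_add_amalg` for the word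
`ι A_m`, `u = X m` and `T = Sum.inl '' {p | p.1 ∈ X ∧ p.2 = k p.1 + m}` (avoided by all the relators up
to now; `lift b' (X m) = lift b (sh m A) = τ⁻ᵐ (lift b A) τᵐ ≠ 1`). (2) `detP_retract` with `θ = ι`,
`η = lift (Sum.elim of (fun j => sh j A))`: `θ (sh j r)` is a consequence of the two relators with
index `j`; `η` of the first kind is `sh j r`, of the second kind `1`; `η (θ w) = w`. -/
theorem win_conjA (hQ : UniqueProds Q) {τ : Q} {b : β × ℤ → Q} (hb : Eqv τ b) {X : Set β}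
    {k : β → ℤ} {A g h : FreeGroup (β × ℤ)} (hA : A ∈ Av {p : β × ℤ | p.1 ∈ X ∧ p.2 = k p.1}ᶜ)
    (hg : g ∈ Av {p : β × ℤ | p.1 ∈ X ∧ k p.1 ≤ p.2})
    (hh : h ∈ Av {p : β × ℤ | p.1 ∈ X ∧ k p.1 ≤ p.2})
    (h1 : lift b (A⁻¹ * g * A * h⁻¹) = 1) (h2 : lift b g ≠ 1) (h3 : lift b A ≠ 1) (m : ℕ) :
    DetP (win (A⁻¹ * g * A * h⁻¹) m) b := by
  have eη : ∀ w : FreeGroup (β × ℤ),
      lift (Sum.elim of fun j : ℕ => sh (j : ℤ) A : NA β → FreeGroup (β × ℤ)) (io w) = w := by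
    intro w
    have : (lift (Sum.elim of fun j : ℕ => sh (j : ℤ) A : NA β → FreeGroup (β × ℤ))).comp io
        = MonoidHom.id _ := by
      ext y
      simp [io]
    exact DFunLike.congr_fun this w
  have eX : ∀ j : ℕ, lift (Sum.elim of fun j : ℕ => sh (j : ℤ) A : NA β → FreeGroup (β × ℤ))
      (WinConjA.X j) = sh (j : ℤ) A := by
    intro j
    simp [WinConjA.X]
  refine detP_retract (R' := RR A g h m) (b' := b' b A) io
    (lift (Sum.elim of fun j : ℕ => sh (j : ℤ) A)) ?_ ?_ ?_ ?_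
    (detP_RR hQ hb hA hg hh h1 h2 h3 m)
  · rintro r ⟨j, hj, rfl⟩
    have m1 : rel1 A j ∈ Subgroup.normalClosure (RR A g h m) :=
      Subgroup.subset_normalClosure (mem_RR.2 ⟨j, hj, Or.inl rfl⟩)
    have m2 : rel2 g h j ∈ Subgroup.normalClosure (RR A g h m) :=
      Subgroup.subset_normalClosure (mem_RR.2 ⟨j, hj, Or.inr rfl⟩)
    rw [← QuotientGroup.eq_one_iff] at m1 m2 ⊢
    have m1' : ((io (sh (j : ℤ) A) : FreeGroup (NA β)) :
        FreeGroup (NA β) ⧸ Subgroup.normalClosure (RR A g h m))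
        = ((WinConjA.X j : FreeGroup (NA β)) :
        FreeGroup (NA β) ⧸ Subgroup.normalClosure (RR A g h m)) := by
      rw [rel1, QuotientGroup.mk_mul, QuotientGroup.mk_inv] at m1
      exact mul_inv_eq_one.1 m1
    rw [rel2] at m2
    rw [← m2]
    simp only [map_mul, map_inv, QuotientGroup.mk_mul, QuotientGroup.mk_inv, m1']
  · intro r hr
    obtain ⟨j, hj, h | h⟩ := mem_RR.1 hr
    · rw [h, rel1, map_mul, map_inv, eη, eX, mul_inv_cancel]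
      exact one_mem _
    · refine Subgroup.subset_normalClosure ⟨j, hj, ?_⟩
      rw [h, rel2]
      simp only [map_mul, map_inv, eη, eX]
  · intro w
    rw [eη, inv_mul_cancel]
    exact one_mem _
  · intro y
    rw [lift_io, FreeGroup.lift_apply_of]

end Pool.Agent.H47U
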