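import Pool.Agent.Lib.H47U.A04

/-! CHUNK C09 (M): solving infinitely many equations one after the other. -/

set_option autoImplicit false

namespace Pool.Agent.H47U

open FreeGroup (of lift)

variable {Q S α : Type} [Group Q] [Group S]

/-- PROOF. `y j` occurs in `rel j` (`fox ≠ 0`, `fox_av`) but not in `rel i`, `i < j`; so the `y j` are
distinct. Choose `v_0 = v` and, by `h.lp`, `v_{j+1}` over `b` with `v_{j+1} z = v_j z` for `z ≠ y j` and
`lift v_{j+1} (rel j) = 1` (recursion in the subtype of tuples over `b`). Let `v' z = v_{j+1} z` if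
`z = y j`, `v' z = v z` if `z` is none of the `y j`. Then `v' z = v_{j+1} z` for every `z` which is not
some `y i`, `i > j`, and `rel j` avoids these by `hav` (`lift_congr_av`). (If `y i = y j` with `i < j`,
then `rel i ∈ Av {y j}`-like avoidance and `fox_av` contradict `fox b (y i) (rel i) ≠ 0`.) -/
theorem ext_seq {π : S →* Q} (h : Adm π) (v : α → S) (b : α → Q) (hv : ∀ z, π (v z) = b z)
    (rel : ℕ → FreeGroup α) (y : ℕ → α) (hav : ∀ i, rel i ∈ Av {z | ∃ j, i < j ∧ z = y j})
    (hb : ∀ j, lift b (rel j) = 1) (hf : ∀ j, fox b (y j) (rel j) ≠ 0) :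
    ∃ v' : α → S, (∀ z, π (v' z) = b z) ∧ (∀ z, (∀ j, z ≠ y j) → v' z = v z) ∧
      ∀ j, lift v' (rel j) = 1 := by
  classical
  have hdist : ∀ i j, i < j → y i ≠ y j := by
    intro i j hij he
    exact hf i (fox_av (hav i) ⟨j, hij, he⟩ b)
  have hstep : ∀ (j : ℕ) (u : {u : α → S // ∀ z, π (u z) = b z}),
      ∃ u' : {u : α → S // ∀ z, π (u z) = b z},
        (∀ z, z ≠ y j → u'.1 z = u.1 z) ∧ lift u'.1 (rel j) = 1 := by
    intro j u
    obtain ⟨u', h1, h2, h3⟩ := h.lp α (rel j) (y j) u.1 b (fun z _ => u.2 z) (hb j) (hf j)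
    exact ⟨⟨u', h1⟩, h2, h3⟩
  choose F hF1 hF2 using hstep
  obtain ⟨V, hV0, hVs⟩ : ∃ V : ℕ → {u : α → S // ∀ z, π (u z) = b z},
      V 0 = ⟨v, hv⟩ ∧ ∀ j, V (j + 1) = F j (V j) :=
    ⟨fun n => Nat.rec ⟨v, hv⟩ (fun j u => F j u) n, rfl, fun _ => rfl⟩
  have hchain : ∀ (z : α) (j k : ℕ), j ≤ k → (∀ i, j ≤ i → i < k → z ≠ y i) →
      (V k).1 z = (V j).1 z := by
    intro z j k hjk
    induction k, hjk using Nat.le_induction with
    | base => intro _; rfl
    | succ k hk ih =>
      intro hi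
      rw [hVs k, hF1 k (V k) z (hi k hk (Nat.lt_succ_self k))]
      exact ih fun i h1 h2 => hi i h1 (h2.trans (Nat.lt_succ_self k))
  refine ⟨fun z => if hz : ∃ j, z = y j then (V (hz.choose + 1)).1 z else v z, ?_, ?_, ?_⟩
  · intro z
    by_cases hz : ∃ j, z = y j
    · simp only [dif_pos hz]
      exact (V _).2 z
    · simp only [dif_neg hz]
      exact hv z
  · intro z hz
    have hz' : ¬ ∃ j, z = y j := fun ⟨j, hj⟩ => hz j hj
    simp only [dif_neg hz']
  · intro j
    have hkey : ∀ z, z ∉ {z | ∃ j', j < j' ∧ z = y j'} →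
        (fun z => if hz : ∃ j, z = y j then (V (hz.choose + 1)).1 z else v z) z =
          (V (j + 1)).1 z := by
      intro z hz
      have hz1 : ∀ i, j < i → z ≠ y i := fun i hi he => hz ⟨i, hi, he⟩
      by_cases hzz : ∃ j, z = y j
      · simp only [dif_pos hzz]
        have hc := hzz.choose_spec
        set i := hzz.choose with hi
        have hij : i ≤ j := by
          by_contra hlt
          exact hz1 i (by omega) hc
        exact (hchain z (i + 1) (j + 1) (by omega) fun i' h1 h2 => by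
          rw [hc]
          exact hdist i i' (by omega)).symm
      · simp only [dif_neg hzz]
        have := hchain z 0 (j + 1) (Nat.zero_le _) fun i _ _ he => hzz ⟨i, he⟩
        rw [this, hV0]
    rw [lift_congr_av (hav j) hkey, hVs j]
    exact hF2 j (V j)

end Pool.Agent.H47U
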