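import Pool.Agent.Lib.H47U.C05
import Pool.Agent.Lib.H47U.C09

/-! CHUNK C10 (M): extension of solutions in both directions. -/

set_option autoImplicit false

namespace Pool.Agent.H47U

open FreeGroup (of lift)

variable {Q S β : Type} [Group Q] [Group S]

/-- PROOF. First `ext_seq` with `rel j = sh (m + j) r`, `y j = (x, k + m + j)`; then (for the new tuple)
`ext_seq` with `rel j = sh (-1 - j) r`, `y j = (x', l - 1 - j)`. `fox_sh` gives the non-vanishing,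
`sh_mem_Av`, `Av_anti` the avoidance (`hr`, `hr'`), `lift_sh` gives `lift b (sh j r) = 1`. The first step
does not change the values of the relators `sh j r`, `0 ≤ j < m` (avoid the letters `(x, i)`,
`i ≥ k + m`), the second does not change those of `sh j r`, `j ≥ 0` (avoid `(x', i)`, `i < l`). -/
theorem ext_all {π : S →* Q} (h : Adm π) {τ : Q} {b : β × ℤ → Q} (hb : Eqv τ b)
    {r : FreeGroup (β × ℤ)} {x x' : β} {k l : ℤ} (hr : r ∈ Av {p : β × ℤ | p.1 = x ∧ k < p.2})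
    (hr' : r ∈ Av {p : β × ℤ | p.1 = x' ∧ p.2 < l}) (h1 : lift b r = 1)
    (hf : fox b (x, k) r ≠ 0) (hf' : fox b (x', l) r ≠ 0) (m : ℕ) (v : β × ℤ → S)
    (hv : ∀ p, π (v p) = b p) (hvr : ∀ s ∈ win r m, lift v s = 1) :
    ∃ v' : β × ℤ → S, (∀ p, π (v' p) = b p) ∧
      (∀ p : β × ℤ, ¬ (p.1 = x ∧ k + m ≤ p.2) → ¬ (p.1 = x' ∧ p.2 < l) → v' p = v p) ∧
      ∀ j : ℤ, lift v' (sh j r) = 1 := by
  have hlb : ∀ j : ℤ, lift b (sh j r) = 1 := by
    intro j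
    rw [lift_sh hb, h1, mul_one, ← zpow_add]
    simp
  have hA : ∀ j : ℤ, sh j r ∈ Av {p : β × ℤ | p.1 = x ∧ k < p.2 - j} := by
    intro j
    have h := sh_mem_Av j hr
    exact h
  have hA' : ∀ j : ℤ, sh j r ∈ Av {p : β × ℤ | p.1 = x' ∧ p.2 - j < l} := by
    intro j
    have h := sh_mem_Av j hr'
    exact h
  have g1 : ∀ i : ℕ, sh ((m : ℤ) + i) r ∈
      Av {z : β × ℤ | ∃ j : ℕ, i < j ∧ z = (x, k + ((m : ℤ) + j))} := by
    intro i
    refine Av_anti ?_ (hA ((m : ℤ) + i))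
    rintro z ⟨j, hj, rfl⟩
    refine ⟨rfl, ?_⟩
    show k < k + ((m : ℤ) + j) - ((m : ℤ) + i)
    omega
  have g2 : ∀ i : ℕ, sh (-1 - (i : ℤ)) r ∈
      Av {z : β × ℤ | ∃ j : ℕ, i < j ∧ z = (x', l + (-1 - (j : ℤ)))} := by
    intro i
    refine Av_anti ?_ (hA' (-1 - (i : ℤ)))
    rintro z ⟨j, hj, rfl⟩
    refine ⟨rfl, ?_⟩
    show l + (-1 - (j : ℤ)) - (-1 - (i : ℤ)) < l
    omega
  have g3 : ∀ j : ℕ, fox b (x, k + ((m : ℤ) + j)) (sh ((m : ℤ) + j) r) ≠ 0 := fun j =>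
    fox_sh hb x k _ r hf
  have g4 : ∀ j : ℕ, fox b (x', l + (-1 - (j : ℤ))) (sh (-1 - (j : ℤ)) r) ≠ 0 := fun j =>
    fox_sh hb x' l _ r hf'
  obtain ⟨v1, a1, a2, a3⟩ := ext_seq h v b hv (fun j : ℕ => sh ((m : ℤ) + j) r)
    (fun j : ℕ => (x, k + ((m : ℤ) + j))) g1 (fun j => hlb ((m : ℤ) + j)) g3
  obtain ⟨v2, c1, c2, c3⟩ := ext_seq h v1 b a1 (fun j : ℕ => sh (-1 - (j : ℤ)) r)
    (fun j : ℕ => (x', l + (-1 - (j : ℤ)))) g2 (fun j => hlb (-1 - (j : ℤ))) g4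
  have e1 : ∀ p : β × ℤ, ¬ (p.1 = x ∧ k + m ≤ p.2) → v1 p = v p := by
    intro p hp
    refine a2 p fun j he => hp ?_
    rw [he]
    refine ⟨rfl, ?_⟩
    simp only
    omega
  have e2 : ∀ p : β × ℤ, ¬ (p.1 = x' ∧ p.2 < l) → v2 p = v1 p := by
    intro p hp
    refine c2 p fun j he => hp ?_
    rw [he]
    refine ⟨rfl, ?_⟩
    simp only
    omega
  have f2 : ∀ j : ℤ, 0 ≤ j → lift v2 (sh j r) = lift v1 (sh j r) := by
    intro j hj
    refine lift_congr_av (hA' j) fun p hp => e2 p fun hq => hp ⟨hq.1, ?_⟩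
    have := hq.2
    omega
  have f1 : ∀ j : ℤ, j < m → lift v1 (sh j r) = lift v (sh j r) := by
    intro j hj
    refine lift_congr_av (hA j) fun p hp => e1 p fun hq => hp ⟨hq.1, ?_⟩
    have := hq.2
    omega
  refine ⟨v2, c1, ?_, ?_⟩
  · intro p hp hp'
    rw [e2 p hp', e1 p hp]
  · intro j
    rcases lt_or_ge j 0 with hj | hj
    · have hn : j = -1 - (((-1 - j).toNat : ℕ) : ℤ) := by omega
      rw [hn]
      exact c3 _
    · rw [f2 j hj]
      rcases lt_or_ge j m with hj2 | hj2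
      · rw [f1 j hj2]
        refine hvr _ ⟨j.toNat, ?_, ?_⟩
        · simp only [Set.mem_Iio]; omega
        · simp only
          rw [Int.toNat_of_nonneg hj]
      · have hn : j = (m : ℤ) + (((j - m).toNat : ℕ) : ℤ) := by omega
        rw [hn]
        exact a3 _

end Pool.Agent.H47U
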