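import Pool.Agent.Lib.H47U.A03

/-! CHUNK C11 (M): the group of compatible sequences with the shift. -/

set_option autoImplicit false

namespace Pool.Agent.H47U

variable {Q S : Type} [Group Q] [Group S]

/-- The sequences `s : ℤ → S` with `π (s j) = τ⁻ʲ π (s 0) τʲ`. -/
def TN (π : S →* Q) (τ : Q) : Subgroup (ℤ → S) where
  carrier := {s | ∀ j : ℤ, π (s j) = τ ^ (-j) * π (s 0) * τ ^ j}
  one_mem' := by intro j; simp
  mul_mem' := by
    intro a b ha hb j
    simp only [Pi.mul_apply, map_mul, ha j, hb j]
    group
  inv_mem' := by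
    intro a ha j
    simp only [Pi.inv_apply, map_inv, ha j]
    group

theorem c11_mem {π : S →* Q} {τ : Q} (n : ℤ) (s : TN π τ) :
    (fun j : ℤ => s.1 (j - n)) ∈ TN π τ := by
  intro j
  show π (s.1 (j - n)) = τ ^ (-j) * π (s.1 (0 - n)) * τ ^ j
  rw [s.2 (j - n), s.2 (0 - n)]
  group

/-- The action of `ℤ` by translations. -/
def c11_phi (π : S →* Q) (τ : Q) : Multiplicative ℤ →* MulAut (TN π τ) where
  toFun n :=
    { toFun := fun s => ⟨fun j => s.1 (j - Multiplicative.toAdd n), c11_mem _ s⟩
      invFun := fun s => ⟨fun j => s.1 (j - (-Multiplicative.toAdd n)), c11_mem _ s⟩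
      left_inv := by
        intro s
        apply Subtype.ext
        funext j
        show s.1 (j - (-Multiplicative.toAdd n) - Multiplicative.toAdd n) = s.1 j
        ring_nf
      right_inv := by
        intro s
        apply Subtype.ext
        funext j
        show s.1 (j - Multiplicative.toAdd n - (-Multiplicative.toAdd n)) = s.1 j
        ring_nf
      map_mul' := by
        intro s s'
        rfl }
  map_one' := by
    ext s j
    show s.1 (j - 0) = s.1 j
    rw [sub_zero]
  map_mul' := by
    intro n m
    ext s j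
    show s.1 (j - (Multiplicative.toAdd n + Multiplicative.toAdd m)) =
      s.1 (j - Multiplicative.toAdd n - Multiplicative.toAdd m)
    ring_nf

/-- The value at `0`. -/
def c11_f (π : S →* Q) (τ : Q) : TN π τ →* Q where
  toFun s := π (s.1 0)
  map_one' := by
    show π 1 = 1
    rw [map_one]
  map_mul' := by
    intro s s'
    show π (s.1 0 * s'.1 0) = _
    rw [map_mul]

theorem c11_comp (π : S →* Q) (τ : Q) (n : Multiplicative ℤ) :
    (c11_f π τ).comp (c11_phi π τ n).toMonoidHom =
      (MulAut.conj (zpowersHom Q τ n)).toMonoidHom.comp (c11_f π τ) := by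
  ext s
  show π (s.1 (0 - Multiplicative.toAdd n)) =
    zpowersHom Q τ n * π (s.1 0) * (zpowersHom Q τ n)⁻¹
  rw [s.2 (0 - Multiplicative.toAdd n), zpowersHom_apply]
  group

/-- PROOF. `T = TN π τ ⋊ ℤ` with `(n • s) j = s (j - n)` (again in `TN`: `π (s (j - n)) =
τ^(-j) (τ^n π (s 0) τ^(-n)) τ^j`), `ι = inl`, `t = inr (ofAdd 1)`, `p (s, n) = π (s 0) * τ ^ n` (a
homomorphism because `π (s' (-n)) = τ ^ n * π (s' 0) * τ ^ (-n)`). `UniqueProds T`: `up_semidirect`,
`up_int`, `TN` is a subgroup of a product (`UniqueProds.instForall`). `p.ker` is solvable: the map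
`rightHom : p.ker → ℤ` has kernel `{(s, 0) | ∀ j, π (s j) = 1}`, which embeds in `ℤ → π.ker`
(`solvable_pi`). -/
theorem exists_T (π : S →* Q) (hS : UniqueProds S) (hk : Group.IsSolvable π.ker) (τ : Q) :
    ∃ (T : Type) (_ : Group T) (p : T →* Q) (ι : TN π τ →* T) (t : T),
      UniqueProds T ∧ Group.IsSolvable p.ker ∧ Function.Injective ι ∧
      (∀ s : TN π τ, p (ι s) = π (s.1 0)) ∧ p t = τ ∧
      ∀ s s' : TN π τ, (∀ j : ℤ, s'.1 j = s.1 (j + 1)) → t⁻¹ * ι s * t = ι s' := by
  refine ⟨TN π τ ⋊[c11_phi π τ] Multiplicative ℤ, inferInstance,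
    SemidirectProduct.lift (c11_f π τ) (zpowersHom Q τ) (c11_comp π τ), SemidirectProduct.inl,
    SemidirectProduct.inr (Multiplicative.ofAdd 1), ?_, ?_, SemidirectProduct.inl_injective, ?_,
    ?_, ?_⟩
  · refine up_semidirect _ ?_ up_int
    have hpi : UniqueProds (ℤ → S) := by
      have : ∀ _ : ℤ, UniqueProds S := fun _ => hS
      infer_instance
    exact up_of_injective hpi (TN π τ).subtype (Subgroup.subtype_injective _)
  · set p := SemidirectProduct.lift (c11_f π τ) (zpowersHom Q τ) (c11_comp π τ) with hp
    have hpi : Group.IsSolvable (ℤ → π.ker) := solvable_pi hk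
    let f : p.ker →* Multiplicative ℤ := SemidirectProduct.rightHom.comp p.ker.subtype
    have hmem : ∀ (x : f.ker) (j : ℤ), x.1.1.left.1 j ∈ π.ker := by
      intro x j
      have h1 : p x.1.1 = 1 := x.1.2
      have h2 : x.1.1.right = 1 := x.2
      have h3 : π (x.1.1.left.1 0) * zpowersHom Q τ x.1.1.right = 1 := h1
      rw [h2, map_one, mul_one] at h3
      rw [MonoidHom.mem_ker, x.1.1.left.2 j, h3]
      simp
    let g : f.ker →* (ℤ → π.ker) :=
      { toFun := fun x j => ⟨x.1.1.left.1 j, hmem x j⟩
        map_one' := rfl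
        map_mul' := by
          intro x y
          funext j
          apply Subtype.ext
          have h2 : x.1.1.right = 1 := x.2
          show (x.1.1 * y.1.1).left.1 j = x.1.1.left.1 j * y.1.1.left.1 j
          rw [SemidirectProduct.mul_left, h2, map_one]
          rfl }
    have hg : Function.Injective g := by
      intro x y hxy
      apply Subtype.ext
      apply Subtype.ext
      have h2 : x.1.1.right = 1 := x.2
      have h3 : y.1.1.right = 1 := y.2
      refine SemidirectProduct.ext ?_ (h2.trans h3.symm)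
      apply Subtype.ext
      funext j
      exact congrArg Subtype.val (congrFun hxy j)
    have : Group.IsSolvable f.ker := Group.isSolvable_of_isSolvable_injective hg
    exact Group.isSolvable_of_ker_le_range f.ker.subtype f (by rw [Subgroup.range_subtype])
  · intro s
    rw [SemidirectProduct.lift_inl]
    rfl
  · rw [SemidirectProduct.lift_inr]
    simp
  · intro s s' hs
    rw [← map_inv, ← SemidirectProduct.inl_aut_inv]
    congr 1
    apply Subtype.ext
    funext j
    rw [hs j]
    rfl

end Pool.Agent.H47U
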