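import Pool.Agent.Lib.H47U.C05B
import Pool.Agent.Lib.H47U.C11

/-! CHUNK C12 (M): from tuples to homomorphisms of the one-relator group. -/

set_option autoImplicit false

namespace Pool.Agent.H47U

open FreeGroup (of lift)

variable {Q S β : Type} [Group Q] [Group S]

/-- The compatible sequence of a letter. -/
def c12s {π : S →* Q} {r : FreeGroup (β × ℤ)} (φ : OR r →* Q)
    (v : β × ℤ → S) (hv : ∀ p, π (v p) = bar φ p) (q : β × ℤ) :
    TN π (φ (PresentedGroup.mk _ (of none))) :=
  ⟨fun j => v (q.1, q.2 + j), by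
    intro j
    have h1 := eqv_bar φ q.1 q.2 j
    change π (v (q.1, q.2 + j)) = _ * π (v (q.1, q.2 + 0)) * _
    rw [hv, hv, h1, add_zero]⟩

theorem c12_shift {T : Type} [Group T] {π : S →* Q} {r : FreeGroup (β × ℤ)} (φ : OR r →* Q)
    (v : β × ℤ → S) (hv : ∀ p, π (v p) = bar φ p)
    (ι : TN π (φ (PresentedGroup.mk _ (of none))) →* T) (t : T)
    (ht : ∀ s s' : TN π (φ (PresentedGroup.mk _ (of none))),
      (∀ j : ℤ, s'.1 j = s.1 (j + 1)) → t⁻¹ * ι s * t = ι s') (x : β) (i : ℤ) :
    t ^ (-i) * ι (c12s φ v hv (x, 0)) * t ^ i = ι (c12s φ v hv (x, i)) := by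
  have hstep : ∀ k : ℤ, t⁻¹ * ι (c12s φ v hv (x, k)) * t = ι (c12s φ v hv (x, k + 1)) := by
    intro k
    apply ht
    intro j
    change v (x, k + 1 + j) = v (x, k + (j + 1))
    rw [add_right_comm, add_assoc]
  induction i using Int.induction_on with
  | zero => simp
  | succ n ih =>
    rw [← hstep, ← ih]
    group
  | pred n ih =>
    have h1 := hstep (-(n : ℤ) - 1)
    rw [sub_add_cancel, ← ih] at h1
    have h2 : ι (c12s φ v hv (x, -(n : ℤ) - 1)) =
        t * (t ^ (-(-(n : ℤ))) * ι (c12s φ v hv (x, 0)) * t ^ (-(n : ℤ))) * t⁻¹ := by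
      rw [← h1]
      group
    rw [h2]
    group

theorem c12_coord {π : S →* Q} {r : FreeGroup (β × ℤ)} (φ : OR r →* Q)
    (v : β × ℤ → S) (hv : ∀ p, π (v p) = bar φ p) (w : FreeGroup (β × ℤ)) (j : ℤ) :
    (lift (c12s φ v hv) w).1 j = lift v (sh j w) := by
  have h : ((Pi.evalMonoidHom (fun _ : ℤ => S) j).comp
      (TN π (φ (PresentedGroup.mk _ (of none)))).subtype).comp (lift (c12s φ v hv)) =
      (lift v).comp (sh j) := by
    apply FreeGroup.ext_hom
    intro q
    simp only [MonoidHom.comp_apply, FreeGroup.lift_apply_of, sh, FreeGroup.map.of]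
    rfl
  exact DFunLike.congr_fun h w

/-- PROOF. `exists_T` with `τ = φ (mk (of none))`. Let `s_{x,i} ∈ TN π τ`, `s_{x,i} j = v (x, i + j)`
(in `TN` by `hv` and `eqv_bar`). The homomorphism `g : FreeGroup (Option β) →* T`, `some x ↦ ι s_{x,0}`,
`none ↦ t`. By `t⁻¹ ι(s_{x,i}) t = ι(s_{x,i+1})` (both directions) `g (kap (of (x, i))) = ι s_{x,i}`, so
`g (kap w) = ι (fun j => lift v (sh j w))` for all `w`. Hence `g (kap r) = 1`, `f` is induced.
`p ∘ f = φ` on generators. If `lift v w ≠ 1`, the coordinate `0` (`sh_zero`) shows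
`f (mk (kap w)) ≠ 1` (`ι` injective). -/
theorem realize {π : S →* Q} (h : Adm π) {r : FreeGroup (β × ℤ)} (φ : OR r →* Q)
    (v : β × ℤ → S) (hv : ∀ p, π (v p) = bar φ p) (hr : ∀ j : ℤ, lift v (sh j r) = 1) :
    ∃ (T : Type) (_ : Group T) (f : OR r →* T) (p : T →* Q), UniqueProds T ∧
      Group.IsSolvable p.ker ∧ p.comp f = φ ∧
      ∀ w : FreeGroup (β × ℤ), lift v w ≠ 1 → f (PresentedGroup.mk _ (kap w)) ≠ 1 := by
  obtain ⟨T, gT, p, ι, t, hUP, hker, hι, hp, hpt, hconj⟩ :=
    exists_T π h.up h.solv (φ (PresentedGroup.mk _ (of none)))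
  have hgk : ∀ w : FreeGroup (β × ℤ),
      lift (fun o : Option β => o.elim t fun x => ι (c12s φ v hv (x, 0))) (kap w) =
        ι (lift (c12s φ v hv) w) := by
    intro w
    have hh : (lift (fun o : Option β => o.elim t fun x => ι (c12s φ v hv (x, 0)))).comp kap =
        ι.comp (lift (c12s φ v hv)) := by
      apply FreeGroup.ext_hom
      rintro ⟨x, i⟩
      simp only [MonoidHom.comp_apply, kap, FreeGroup.lift_apply_of, map_mul, map_zpow,
        Option.elim]
      exact (c12_shift φ v hv ι t hconj x i).trans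
        (congrArg ι (FreeGroup.lift_apply_of (β := TN π (φ (PresentedGroup.mk _ (of none))))
          (f := c12s φ v hv)).symm)
    exact DFunLike.congr_fun hh w
  have hrel : ∀ z ∈ ({kap r} : Set (FreeGroup (Option β))),
      lift (fun o : Option β => o.elim t fun x => ι (c12s φ v hv (x, 0))) z = 1 := by
    intro z hz
    rw [Set.mem_singleton_iff.1 hz, hgk]
    have h1 : lift (c12s φ v hv) r = 1 := by
      apply Subtype.ext
      funext j
      rw [c12_coord, hr]
      rfl
    rw [h1, map_one]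
  refine ⟨T, gT, PresentedGroup.toGroup hrel, p, hUP, hker, ?_, ?_⟩
  · apply PresentedGroup.ext
    intro o
    rw [MonoidHom.comp_apply, PresentedGroup.toGroup.of]
    cases o with
    | none => exact hpt
    | some x =>
      change p (ι (c12s φ v hv (x, 0))) = _
      rw [hp]
      change π (v (x, 0 + 0)) = _
      have e1 : kap (of (x, (0 : ℤ) + 0)) = (of (some x) : FreeGroup (Option β)) := by
        simp [kap]
      rw [hv]
      change φ (PresentedGroup.mk _ (kap (of (x, (0 : ℤ) + 0)))) = _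
      rw [e1]
      rfl
  · intro w hw h1
    have h2 : PresentedGroup.toGroup hrel (PresentedGroup.mk _ (kap w)) =
        lift (fun o : Option β => o.elim t fun x => ι (c12s φ v hv (x, 0))) (kap w) := rfl
    rw [h2, hgk] at h1
    have h3 : lift (c12s φ v hv) w = 1 := hι (by rw [h1, map_one])
    apply hw
    have h4 := c12_coord φ v hv w 0
    rw [h3, sh_zero] at h4
    exact h4.symm

end Pool.Agent.H47U
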