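import Pool.Agent.Lib.H47U.C05B
import Pool.Agent.Lib.H47U.C10
import Pool.Agent.Lib.H47U.C12

/-! The general principle: if all windows are detected, so is the one-relator group. -/

set_option autoImplicit false

namespace Pool.Agent.H47U

open FreeGroup (of lift)

variable {Q β : Type} [Group Q]

/-- The non-trivial elements of the one-relator group are detected by homomorphisms over `φ` to unique
product groups which are solvable-by-`Q`. -/
def RS {r : FreeGroup (β × ℤ)} (φ : OR r →* Q) : Prop :=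
  ∀ γ : OR r, γ ≠ 1 → ∃ (T : Type) (_ : Group T) (f : OR r →* T) (p : T →* Q),
    UniqueProds T ∧ Group.IsSolvable p.ker ∧ p.comp f = φ ∧ f γ ≠ 1

theorem conj_back {G : Type} [Group G] (t a : G) (M : ℤ) :
    a = t ^ M * (t ^ (-M) * a * t ^ M) * t ^ (-M) := by group

theorem conj_eq_one {G : Type} [Group G] (t : G) (M : ℤ) : t ^ M * 1 * t ^ (-M) = 1 := by group

theorem conj_ne_one {G : Type} [Group G] {t a : G} (M : ℤ) (h : a ≠ 1) :
    t ^ M * a * t ^ (-M) ≠ 1 := by
  intro h1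
  apply h
  rw [zpow_neg, mul_inv_eq_one] at h1
  exact mul_eq_left.1 h1

/-- The exponent of `t` kills the words `kap w`. -/
theorem expo_kap (w : FreeGroup (β × ℤ)) (f : Option β → Multiplicative ℤ)
    (hf : ∀ y, f (some y) = 1) : lift f (kap w) = 1 := by
  have h : (lift f).comp (kap (β := β)) = 1 := by
    ext p
    simp [kap, hf]
  exact DFunLike.congr_fun h w

theorem mk_kap_ncl {r : FreeGroup (β × ℤ)} {m : ℕ} {w : FreeGroup (β × ℤ)}
    (hw : w ∈ Subgroup.normalClosure (win r m)) :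
    (PresentedGroup.mk ({kap r} : Set (FreeGroup (Option β))) (kap w)) = 1 := by
  have h : Subgroup.normalClosure (win r m) ≤
      ((PresentedGroup.mk ({kap r} : Set (FreeGroup (Option β)))).comp kap).ker := by
    apply Subgroup.normalClosure_le_normal
    rintro _ ⟨j, -, rfl⟩
    rw [SetLike.mem_coe, MonoidHom.mem_ker, MonoidHom.comp_apply, kap_sh, map_mul, map_mul,
      PresentedGroup.one_of_mem (Set.mem_singleton _), map_zpow, map_zpow]
    have := conj_eq_one (PresentedGroup.mk ({kap r} : Set (FreeGroup (Option β))) (of none)) (-(j : ℤ))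
    rwa [neg_neg] at this
  exact h hw

/-- elements `kap w` -/
theorem main_kap {r : FreeGroup (β × ℤ)} {x x' : β} {k l : ℤ}
    (hr : r ∈ Av {p : β × ℤ | p.1 = x ∧ k < p.2}) (hr' : r ∈ Av {p : β × ℤ | p.1 = x' ∧ p.2 < l})
    (φ : OR r →* Q) (hf : fox (bar φ) (x, k) r ≠ 0) (hf' : fox (bar φ) (x', l) r ≠ 0)
    (hw : ∀ m, DetP (win r m) (bar φ)) (w : FreeGroup (β × ℤ))
    (hγ : PresentedGroup.mk ({kap r} : Set (FreeGroup (Option β))) (kap w) ≠ 1) :
    ∃ (T : Type) (_ : Group T) (f : OR r →* T) (p : T →* Q), UniqueProds T ∧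
      Group.IsSolvable p.ker ∧ p.comp f = φ ∧ f (PresentedGroup.mk _ (kap w)) ≠ 1 := by
  obtain ⟨N, hN⟩ := exists_bound w
  obtain ⟨M, hM⟩ : ∃ M : ℤ, M = N + |l| := ⟨_, rfl⟩
  obtain ⟨m, hm⟩ : ∃ m : ℕ, M + N + |k| ≤ (m : ℤ) := ⟨_, Int.self_le_toNat _⟩
  have hw' : sh M w ∈ Av {p : β × ℤ | (N : ℤ) ≤ |p.2 - M|} := by
    refine Av_anti ?_ (sh_mem_Av (T := {p : β × ℤ | (N : ℤ) ≤ |p.2|}) M hN)
    intro p hp
    rw [Set.mem_ofPred_eq] at hp ⊢
    rw [Set.mem_ofPred_eq]
    exact hp
  have hkap : (PresentedGroup.mk ({kap r} : Set (FreeGroup (Option β))) (kap w)) =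
      (PresentedGroup.mk _ (of none)) ^ M * PresentedGroup.mk _ (kap (sh M w)) *
        (PresentedGroup.mk _ (of none)) ^ (-M) := by
    rw [kap_sh, map_mul, map_mul, map_zpow, map_zpow]
    exact conj_back _ _ _
  have hne : sh M w ∉ Subgroup.normalClosure (win r m) := by
    intro hcon
    apply hγ
    rw [hkap, mk_kap_ncl hcon]
    exact conj_eq_one _ _
  obtain ⟨S, iS, π, v, hA, hv, hvr, hvw⟩ := (hw m).2 _ hne
  obtain ⟨v', hv'b, hv'e, hv'r⟩ := ext_all hA (eqv_bar φ) hr hr' (lift_bar_rel φ) hf hf' m v hv hvr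
  have hv'w : lift v' (sh M w) ≠ 1 := by
    have : lift v' (sh M w) = lift v (sh M w) := by
      apply lift_congr_av hw'
      intro p hp
      rw [Set.mem_ofPred_eq, not_le, abs_lt] at hp
      have h1 := le_abs_self l
      have h2 := neg_abs_le k
      apply hv'e
      · rintro ⟨-, h3⟩
        omega
      · rintro ⟨-, h3⟩
        omega
    rw [this]
    exact hvw
  obtain ⟨T, iT, f, p, hT, hp, hpf, hfw⟩ := realize hA φ v' hv'b hv'r
  refine ⟨T, iT, f, p, hT, hp, hpf, ?_⟩
  rw [hkap, map_mul, map_mul, map_zpow, map_zpow]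
  exact conj_ne_one _ (hfw _ hv'w)

theorem main_of_win (hQ : UniqueProds Q) {r : FreeGroup (β × ℤ)} {x x' : β} {k l : ℤ}
    (hr : r ∈ Av {p : β × ℤ | p.1 = x ∧ k < p.2}) (hr' : r ∈ Av {p : β × ℤ | p.1 = x' ∧ p.2 < l})
    (φ : OR r →* Q) (hf : fox (bar φ) (x, k) r ≠ 0) (hf' : fox (bar φ) (x', l) r ≠ 0)
    (hw : ∀ m, DetP (win r m) (bar φ)) : RS φ := by
  classical
  intro γ hγ
  obtain ⟨z, rfl⟩ := PresentedGroup.mk_surjective _ γ
  obtain ⟨w, n, rfl⟩ := exists_kap z
  by_cases hn : n = 0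
  · subst hn
    rw [zpow_zero, mul_one] at hγ ⊢
    exact main_kap hr hr' φ hf hf' hw w hγ
  · obtain ⟨e, he, he'⟩ : ∃ e : Option β → Multiplicative ℤ, (∀ y, e (some y) = 1) ∧
        e none = Multiplicative.ofAdd 1 :=
      ⟨fun o => if o = none then Multiplicative.ofAdd (1 : ℤ) else 1, fun y => by simp, by simp⟩
    have hE : ∀ s ∈ ({kap r} : Set (FreeGroup (Option β))), lift e s = 1 := by
      intro s hs
      rw [Set.mem_singleton_iff] at hs
      subst hs
      exact expo_kap r e he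
    have hup := up_int
    refine ⟨Q × Multiplicative ℤ, inferInstance, φ.prod (PresentedGroup.toGroup hE),
      MonoidHom.fst _ _, inferInstance, ?_, MonoidHom.fst_comp_prod _ _, ?_⟩
    · refine Group.isSolvable_of_isSolvable_injective
        (f := (MonoidHom.snd Q (Multiplicative ℤ)).comp
          (MonoidHom.fst Q (Multiplicative ℤ)).ker.subtype) ?_
      rintro ⟨⟨a, b⟩, hab⟩ ⟨⟨a', b'⟩, hab'⟩ h
      have h1 : a = 1 := hab
      have h2 : a' = 1 := hab'
      have h3 : b = b' := h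
      subst h1 h2 h3
      rfl
    · intro h1
      have h2 : (PresentedGroup.toGroup hE) (PresentedGroup.mk _ (kap w * (of none) ^ n)) = 1 :=
        congrArg Prod.snd h1
      have h3 : ∀ z, (PresentedGroup.toGroup hE) (PresentedGroup.mk _ z) = lift e z := fun z => rfl
      rw [h3, map_mul, expo_kap w e he, one_mul, map_zpow, FreeGroup.lift_apply_of, he'] at h2
      have h4 := congrArg Multiplicative.toAdd h2
      simp at h4
      exact hn h4

end Pool.Agent.H47U
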