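import Pool.Agent.Lib.H47U.C07
import Pool.Agent.Lib.H47U.C08
import Pool.Agent.Lib.H47U.C13

/-! The two forms of relators. -/

set_option autoImplicit false

namespace Pool.Agent.H47U

open FreeGroup (of lift)

variable {Q β : Type} [Group Q]

/-- kernels of compositions -/
theorem solvable_comp {T₂ T₁ Q : Type} [Group T₂] [Group T₁] [Group Q] (p₂ : T₂ →* T₁) (p₁ : T₁ →* Q)
    (h₂ : Group.IsSolvable p₂.ker) (h₁ : Group.IsSolvable p₁.ker) :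
    Group.IsSolvable (p₁.comp p₂).ker := by
  let a : p₂.ker →* (p₁.comp p₂).ker :=
    Subgroup.inclusion (fun x hx => by
      rw [MonoidHom.mem_ker] at hx ⊢
      rw [MonoidHom.comp_apply, hx, map_one])
  let c : (p₁.comp p₂).ker →* p₁.ker :=
    { toFun := fun x => ⟨p₂ x.1, x.2⟩
      map_one' := by ext; simp
      map_mul' := fun x y => by ext; simp }
  refine Group.isSolvable_of_ker_le_range a c ?_
  intro x hx
  rw [MonoidHom.mem_ker] at hx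
  exact ⟨⟨x.1, congrArg Subtype.val hx⟩, rfl⟩

theorem RS.of_comp {r : FreeGroup (β × ℤ)} {φ : OR r →* Q} {T₁ : Type} [Group T₁]
    (f₁ : OR r →* T₁) (p₁ : T₁ →* Q) (h1 : Group.IsSolvable p₁.ker) (h2 : p₁.comp f₁ = φ)
    (h : RS f₁) : RS φ := by
  intro γ hγ
  obtain ⟨T, iT, f, p, hT, hp, hpf, hγ'⟩ := h γ hγ
  refine ⟨T, iT, f, p₁.comp p, hT, solvable_comp p p₁ hp h1, ?_, hγ'⟩
  rw [MonoidHom.comp_assoc, hpf, h2]

/-- Fox derivatives go down. -/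
theorem fox_bar_of_comp {r : FreeGroup (β × ℤ)} {φ : OR r →* Q} {T₁ : Type} [Group T₁]
    {f₁ : OR r →* T₁} {p₁ : T₁ →* Q} (h : p₁.comp f₁ = φ) {e : β × ℤ} {w : FreeGroup (β × ℤ)}
    (hf : fox (bar φ) e w ≠ 0) : fox (bar f₁) e w ≠ 0 := by
  intro h0
  apply hf
  have : bar φ = fun y => p₁ (bar f₁ y) := by
    subst h
    rfl
  rw [this, fox_map, h0, MonoidAlgebra.mapDomain_zero]

/-- **Form (i)**: `r = A u⁻¹`, `A` in the top letters, `u` in lower letters. -/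
theorem rs_amalg (hQ : UniqueProds Q) {X : Set β} {k : β → ℤ} {A u : FreeGroup (β × ℤ)}
    (hA : A ∈ Av {p : β × ℤ | p.1 ∈ X ∧ p.2 = k p.1}ᶜ)
    (hu : u ∈ Av {p : β × ℤ | p.1 ∈ X ∧ k p.1 ≤ p.2}) (hu1 : u ≠ 1) {x x' : β} {l : ℤ}
    (hx : x ∈ X) (hA' : A ∈ Av {p : β × ℤ | p.1 = x' ∧ p.2 < l})
    (hu' : u ∈ Av {p : β × ℤ | p.1 = x' ∧ p.2 < l}) (φ : OR (A * u⁻¹) →* Q)
    (hf : fox (bar φ) (x, k x) (A * u⁻¹) ≠ 0) (hf' : fox (bar φ) (x', l) (A * u⁻¹) ≠ 0) :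
    RS φ := by
  have hr : A * u⁻¹ ∈ Av {p : β × ℤ | p.1 = x ∧ k x < p.2} := by
    refine mul_mem (Av_anti ?_ hA) (inv_mem (Av_anti ?_ hu))
    · rintro ⟨y, i⟩ ⟨h1, h2⟩ ⟨-, h3⟩
      simp only at h1 h2 h3
      subst h1
      omega
    · rintro ⟨y, i⟩ ⟨h1, h2⟩
      simp only at h1 h2
      subst h1
      exact ⟨hx, h2.le⟩
  have hr' : A * u⁻¹ ∈ Av {p : β × ℤ | p.1 = x' ∧ p.2 < l} := mul_mem hA' (inv_mem hu')
  -- the case of a non-trivial value of `u`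
  have key : ∀ (Q₁ : Type) [Group Q₁], UniqueProds Q₁ → ∀ φ₁ : OR (A * u⁻¹) →* Q₁,
      fox (bar φ₁) (x, k x) (A * u⁻¹) ≠ 0 → fox (bar φ₁) (x', l) (A * u⁻¹) ≠ 0 →
      lift (bar φ₁) u ≠ 1 → RS φ₁ := by
    intro Q₁ _ hQ₁ φ₁ h1 h2 h3
    refine main_of_win hQ₁ hr hr' φ₁ h1 h2 (win_amalg hQ₁ (eqv_bar φ₁) hA hu ?_ h3)
    have := lift_bar_rel φ₁
    rw [map_mul, map_inv, mul_inv_eq_one] at this
    exact this
  by_cases h : lift (bar φ) u = 1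
  swap
  · exact key Q hQ φ hf hf' h
  · obtain ⟨S, iS, π, g, hS, hg, hgu⟩ := det_free hQ (bar φ) u hu1
    have hgv : g = lift (fun y => g (of y)) := by
      ext y
      simp
    have hv : ∀ p, π (g (of p)) = bar φ p := by
      intro p
      have := DFunLike.congr_fun hg (of p)
      rw [FreeGroup.lift_apply_of] at this
      exact this
    obtain ⟨v', h1, h2, h3⟩ := ext_all hS (eqv_bar φ) hr hr' (lift_bar_rel φ) hf hf' 0
      (fun y => g (of y)) hv (by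
        intro s hs
        rw [win_zero] at hs
        exact absurd hs (Set.notMem_empty s))
    obtain ⟨T, iT, f, p, hT, hp, hpf, hfw⟩ := realize hS φ v' h1 h3
    have hu2 : lift v' u ≠ 1 := by
      have : lift v' u = lift (fun y => g (of y)) u := by
        have hu3 : u ∈ Av ({p : β × ℤ | p.1 ∈ X ∧ k p.1 ≤ p.2} ∪
            {p : β × ℤ | p.1 = x' ∧ p.2 < l}) := Av_union hu hu'
        apply lift_congr_av hu3
        intro q hq
        rw [Set.mem_union, not_or] at hq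
        apply h2
        · rintro ⟨h4, h5⟩
          apply hq.1
          refine ⟨h4 ▸ hx, ?_⟩
          rw [h4]
          simpa using h5
        · exact hq.2
      rw [this, ← hgv]
      exact hgu
    refine RS.of_comp f p hp hpf (key T hT f (fox_bar_of_comp hpf hf) (fox_bar_of_comp hpf hf') ?_)
    rw [lift_bar]
    exact hfw u hu2

/-- The Fox derivative of `A⁻¹ g A h⁻¹` with respect to a letter not occurring in `g`, `h`. -/
theorem fox_conj {α : Type} {b : α → Q} {x : α} {A g h : FreeGroup α} (hg : fox b x g = 0)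
    (hh : fox b x h = 0) (h1 : lift b g = 1) : fox b x (A⁻¹ * g * A * h⁻¹) = 0 := by
  rw [fox_mul, fox_mul, fox_mul, fox_inv, fox_inv, hg, hh, map_mul, h1]
  simp

/-- **Form (ii)**: `r = A⁻¹ g A h⁻¹`, `A` in the top letters, `g`, `h` in lower letters. -/
theorem rs_conj (hQ : UniqueProds Q) {X : Set β} {k : β → ℤ} {A g h : FreeGroup (β × ℤ)}
    (hA : A ∈ Av {p : β × ℤ | p.1 ∈ X ∧ p.2 = k p.1}ᶜ)
    (hg : g ∈ Av {p : β × ℤ | p.1 ∈ X ∧ k p.1 ≤ p.2})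
    (hh : h ∈ Av {p : β × ℤ | p.1 ∈ X ∧ k p.1 ≤ p.2}) {x x' : β} {l : ℤ}
    (hx : x ∈ X) (hr' : A⁻¹ * g * A * h⁻¹ ∈ Av {p : β × ℤ | p.1 = x' ∧ p.2 < l})
    (φ : OR (A⁻¹ * g * A * h⁻¹) →* Q) (hA1 : A = of (x, k x) ∨ lift (bar φ) A ≠ 1)
    (hf : fox (bar φ) (x, k x) (A⁻¹ * g * A * h⁻¹) ≠ 0)
    (hf' : fox (bar φ) (x', l) (A⁻¹ * g * A * h⁻¹) ≠ 0) :
    RS φ := by
  have hA2 : A ∈ Av {p : β × ℤ | p.1 = x ∧ k x < p.2} := by
    refine Av_anti ?_ hA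
    rintro ⟨y, i⟩ ⟨h1, h2⟩ ⟨-, h3⟩
    simp only at h1 h2 h3
    subst h1
    omega
  have hsub : {p : β × ℤ | p.1 = x ∧ k x < p.2} ⊆ {p : β × ℤ | p.1 ∈ X ∧ k p.1 ≤ p.2} := by
    rintro ⟨y, i⟩ ⟨h1, h2⟩
    simp only at h1 h2
    subst h1
    exact ⟨hx, h2.le⟩
  have hr : A⁻¹ * g * A * h⁻¹ ∈ Av {p : β × ℤ | p.1 = x ∧ k x < p.2} :=
    mul_mem (mul_mem (mul_mem (inv_mem hA2) (Av_anti hsub hg)) hA2) (inv_mem (Av_anti hsub hh))
  have hxk : ((x, k x) : β × ℤ) ∈ {p : β × ℤ | p.1 ∈ X ∧ k p.1 ≤ p.2} := ⟨hx, le_rfl⟩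
  have hg1 : lift (bar φ) g ≠ 1 := by
    intro h1
    exact hf (fox_conj (fox_av hg hxk _) (fox_av hh hxk _) h1)
  have h1 := lift_bar_rel φ
  rcases hA1 with hA1 | hA1
  · subst hA1
    have hsub' : {p : β × ℤ | p.1 = x ∧ k x ≤ p.2} ⊆ {p : β × ℤ | p.1 ∈ X ∧ k p.1 ≤ p.2} := by
      rintro ⟨y, i⟩ ⟨h1, h2⟩
      simp only at h1 h2
      subst h1
      exact ⟨hx, h2⟩
    exact main_of_win hQ hr hr' φ hf hf' (win_conj hQ (eqv_bar φ) (Av_anti hsub' hg)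
      (Av_anti hsub' hh) h1 hg1)
  · exact main_of_win hQ hr hr' φ hf hf' (win_conjA hQ (eqv_bar φ) hA hg hh h1 hg1 hA1)

end Pool.Agent.H47U
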