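import Pool.Agent.Lib.H47U.A03
import Pool.Agent.Lib.H63RA.Ext

/-! CHUNK D01 (S/M, small lemmas): amenable groups with unique products. -/

set_option autoImplicit false

namespace Pool.Agent.H47U

open Pool.Agent.H63RA (Amen)

/-- Amenable groups with unique products. -/
def AU (G : Type) [Group G] : Prop := Amen G ∧ UniqueProds G

/-- Two finite subsets `A, B` lie in a subgroup with unique products. -/
theorem up_of_local {G : Type} [Group G]
    (h : ∀ S : Finset G, ∃ K : Subgroup G, (∀ s ∈ S, s ∈ K) ∧ UniqueProds K) :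
    UniqueProds G := by
  classical
  refine ⟨fun {A B} hA hB => ?_⟩
  obtain ⟨K, hK, hU⟩ := h (A ∪ B)
  have hAK : ∀ a ∈ A, a ∈ K := fun a ha => hK a (Finset.mem_union_left _ ha)
  have hBK : ∀ b ∈ B, b ∈ K := fun b hb => hK b (Finset.mem_union_right _ hb)
  obtain ⟨a, ha⟩ := hA
  obtain ⟨b, hb⟩ := hB
  obtain ⟨a0, ha0, b0, hb0, hu⟩ := hU.uniqueMul_of_nonempty
    (A := A.subtype (· ∈ K)) (B := B.subtype (· ∈ K))
    ⟨⟨a, hAK a ha⟩, Finset.mem_subtype.2 ha⟩ ⟨⟨b, hBK b hb⟩, Finset.mem_subtype.2 hb⟩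
  refine ⟨a0, Finset.mem_subtype.1 ha0, b0, Finset.mem_subtype.1 hb0, ?_⟩
  intro x y hx hy hxy
  have := hu (a := ⟨x, hAK x hx⟩) (b := ⟨y, hBK y hy⟩) (Finset.mem_subtype.2 hx)
    (Finset.mem_subtype.2 hy) (Subtype.ext hxy)
  exact ⟨congrArg Subtype.val this.1, congrArg Subtype.val this.2⟩

theorem AU.of_injective {G H : Type} [Group G] [Group H] (hH : AU H) (f : G →* H)
    (hf : Function.Injective f) : AU G :=
  ⟨Amen.of_injective hH.1 f hf, up_of_injective hH.2 f hf⟩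

theorem AU.semidirect {N G : Type} [Group N] [Group G] (φ : G →* MulAut N) (hN : AU N)
    (hG : AU G) : AU (N ⋊[φ] G) :=
  ⟨Amen.semidirect φ hN.1 hG.1, up_semidirect φ hN.2 hG.2⟩

theorem AU.pi {ι G : Type} [Finite ι] [Group G] (hG : AU G) : AU (ι → G) := by
  have := hG.2
  exact ⟨Amen.pi hG.1, inferInstance⟩

theorem AU.int : AU (Multiplicative ℤ) := ⟨Amen.of_comm, up_int⟩

/-- A rational vector space. -/
theorem AU.vec (V : Type) [AddCommGroup V] [Module ℚ V] : AU (Multiplicative V) :=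
  ⟨Amen.of_comm, inferInstance⟩

/-- `amen_of_ker`. -/
theorem AU.of_ker {T Q : Type} [Group T] [Group Q] (hT : UniqueProds T) (p : T →* Q)
    (hk : Group.IsSolvable p.ker) (hQ : AU Q) : AU T :=
  ⟨amen_of_ker p hk hQ.1, hT⟩

end Pool.Agent.H47U
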