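import Pool.Agent.Lib.H47U.C14
import Pool.Agent.Lib.H47U.D01

/-! The exponent sum is the augmentation of the Fox derivative; trivial quotients. -/

set_option autoImplicit false

namespace Pool.Agent.H47U

open FreeGroup (of lift)
open Pool.Agent.H63RA (Amen)

variable {Q α β : Type} [Group Q]

open Classical in
/-- The exponent sum of the letter `x` in the word `w` (as an element of `ℤ`, multiplicative
notation). -/
noncomputable def expo (x : α) : FreeGroup α →* Multiplicative ℤ :=
  lift fun y => if y = x then Multiplicative.ofAdd 1 else 1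

/-- The sum of the coefficients. -/
noncomputable def aug (Q : Type) [Group Q] : MonoidAlgebra ℚ Q →+* ℚ :=
  (MonoidAlgebra.lift ℚ ℚ Q (1 : Q →* ℚ)).toRingHom

theorem aug_single (g : Q) (c : ℚ) : aug Q (MonoidAlgebra.single g c) = c := by
  simp [aug]

theorem aug_fox (v : α → Q) (x : α) (w : FreeGroup α) :
    aug Q (fox v x w) = ((Multiplicative.toAdd (expo x w) : ℤ) : ℚ) := by
  classical
  induction w using FreeGroup.induction_on with
  | C1 => rw [fox_one, map_zero, map_one]; simp
  | of y =>
    by_cases h : y = x
    · subst h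
      change aug Q (fox v y (of y)) = ((Multiplicative.toAdd (expo y (of y)) : ℤ) : ℚ)
      rw [fox_of_self, map_one, expo, FreeGroup.lift_apply_of, if_pos rfl]
      simp
    · change aug Q (fox v x (of y)) = ((Multiplicative.toAdd (expo x (of y)) : ℤ) : ℚ)
      rw [fox_of_ne v h, map_zero, expo, FreeGroup.lift_apply_of, if_neg h]
      simp
  | inv_of y hy =>
    rw [fox_inv, map_neg, map_mul, aug_single, hy, map_inv]
    simp
  | mul a b ha hb =>
    rw [fox_mul, map_add, map_mul, aug_single, ha, hb, map_mul]
    simp

theorem fox_ne_zero_of_expo (v : α → Q) {x : α} {w : FreeGroup α} (h : expo x w ≠ 1) :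
    fox v x w ≠ 0 := by
  intro h0
  have := aug_fox v x w
  rw [h0, map_zero] at this
  apply h
  have h2 : Multiplicative.toAdd (expo x w) = 0 := by exact_mod_cast this.symm
  exact toAdd_eq_zero.1 h2

end Pool.Agent.H47U
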