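import Pool.Agent.Lib.H47U.D01

/-! CHUNK D02 (S/M): double colimits, with unique products. -/

set_option autoImplicit false

namespace Pool.Agent.H47U

open Pool.Agent.H63RA

/-- COPY the proof of `Pool.Agent.H63RA.exists_doubleColim` (file `Lib/H63RA/Colim.lean`), replacing
`Amen` by `AU` (`Amen.of_local` by `Amen.of_local` and `up_of_local`, `Amen.semidirect` by
`AU.semidirect`, `Amen.of_comm` by `AU.int`). -/
theorem exists_doubleColimU (Q : ℕ → Type) [∀ n, Group (Q n)] (i σ : ∀ n, Q n →* Q (n + 1))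
    (hi : ∀ n, Function.Injective (i n)) (hσ : ∀ n, Function.Injective (σ n))
    (hc : ∀ n q, σ (n + 1) (i n q) = i (n + 1) (σ n q)) (ham : ∀ n, AU (Q n)) :
    ∃ (Γ : Type) (_ : Group Γ) (v : Q 0 →* Γ) (w : Q 1 →* Γ) (s : Γ), AU Γ ∧
      Function.Injective v ∧ (∀ q, w (i 0 q) = v q) ∧ (∀ q, w (σ 0 q) = s * v q * s⁻¹) := by
  let R : ℕ → Type := fun k => Q (2 * k)
  let u : ∀ k, R k →* R (k + 1) := fun k => (σ (2 * k + 1)).comp (i (2 * k))
  have hu : ∀ k, Function.Injective (u k) := fun k => (hσ (2 * k + 1)).comp (hi (2 * k))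
  obtain ⟨N, gN, v, hvi, hvu, hvr, hvs, hvU⟩ := exists_natColim R u hu
  let ss : ∀ k, R k →* R (k + 1) := fun k => (σ (2 * k + 1)).comp (σ (2 * k))
  let ii : ∀ k, R k →* R (k + 1) := fun k => (i (2 * k + 1)).comp (i (2 * k))
  have hssu : ∀ k (x : R k), ss (k + 1) (u k x) = u (k + 1) (ss k x) := by
    intro k x
    change σ (2 * k + 3) (σ (2 * k + 2) (σ (2 * k + 1) (i (2 * k) x))) =
      σ (2 * k + 3) (i (2 * k + 2) (σ (2 * k + 1) (σ (2 * k) x)))
    rw [hc (2 * k), hc (2 * k + 1)]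
  have hiiu : ∀ k (x : R k), ii (k + 1) (u k x) = u (k + 1) (ii k x) := by
    intro k x
    change i (2 * k + 3) (i (2 * k + 2) (σ (2 * k + 1) (i (2 * k) x))) =
      σ (2 * k + 3) (i (2 * k + 2) (i (2 * k + 1) (i (2 * k) x)))
    rw [hc (2 * k + 2), hc (2 * k + 1)]
  have hsi : ∀ k (x : R k), ss (k + 1) (ii k x) = u (k + 1) (u k x) := by
    intro k x
    change σ (2 * k + 3) (σ (2 * k + 2) (i (2 * k + 1) (i (2 * k) x))) =
      σ (2 * k + 3) (i (2 * k + 2) (σ (2 * k + 1) (i (2 * k) x)))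
    rw [hc (2 * k + 1)]
  have his : ∀ k (x : R k), ii (k + 1) (ss k x) = u (k + 1) (u k x) := by
    intro k x
    change i (2 * k + 3) (i (2 * k + 2) (σ (2 * k + 1) (σ (2 * k) x))) =
      σ (2 * k + 3) (i (2 * k + 2) (σ (2 * k + 1) (i (2 * k) x)))
    rw [hc (2 * k + 2), hc (2 * k), hc (2 * k + 1)]
  obtain ⟨τ, hτ⟩ := hvU N gN (fun k => (v (k + 1)).comp (ss k)) (by
    intro k x
    simp only [MonoidHom.comp_apply]
    rw [hssu, hvu])
  obtain ⟨ρ, hρ⟩ := hvU N gN (fun k => (v (k + 1)).comp (ii k)) (by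
    intro k x
    simp only [MonoidHom.comp_apply]
    rw [hiiu, hvu])
  have hτρ : ∀ z, τ (ρ z) = z := by
    intro z
    obtain ⟨k, x, rfl⟩ := hvs z
    rw [hρ, MonoidHom.comp_apply, hτ, MonoidHom.comp_apply, hsi, hvu, hvu]
  have hρτ : ∀ z, ρ (τ z) = z := by
    intro z
    obtain ⟨k, x, rfl⟩ := hvs z
    rw [hτ, MonoidHom.comp_apply, hρ, MonoidHom.comp_apply, his, hvu, hvu]
  let T : MulAut N :=
    { toFun := τ, invFun := ρ, left_inv := hρτ, right_inv := hτρ, map_mul' := map_mul τ }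
  let φ : Multiplicative ℤ →* MulAut N := zpowersHom (MulAut N) T
  have hφ : φ (Multiplicative.ofAdd 1) = T := by simp [φ]
  have hloc : ∀ S : Finset N, ∃ K : Subgroup N, (∀ s ∈ S, s ∈ K) ∧ AU K := by
    intro S
    have : ∃ n, ∀ s ∈ S, s ∈ (v n).range := by
      classical
      induction S using Finset.induction_on with
      | empty => exact ⟨0, by simp⟩
      | insert a S ha ih =>
        obtain ⟨n, hn⟩ := ih
        obtain ⟨m, x, hx⟩ := hvs a
        refine ⟨max m n, ?_⟩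
        intro s hs
        rcases Finset.mem_insert.mp hs with rfl | hs
        · exact hvr m _ (le_max_left _ _) ⟨x, hx⟩
        · exact hvr n _ (le_max_right _ _) (hn s hs)
    obtain ⟨n, hn⟩ := this
    refine ⟨(v n).range, hn, ?_⟩
    exact (ham (2 * n)).of_injective (MonoidHom.ofInjective (hvi n)).symm.toMonoidHom
      (MonoidHom.ofInjective (hvi n)).symm.injective
  have hN : AU N := by
    constructor
    · apply Amen.of_local
      intro S
      obtain ⟨K, h1, h2⟩ := hloc S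
      exact ⟨K, h1, h2.1⟩
    · apply up_of_local
      intro S
      obtain ⟨K, h1, h2⟩ := hloc S
      exact ⟨K, h1, h2.2⟩
  refine ⟨N ⋊[φ] Multiplicative ℤ, inferInstance, SemidirectProduct.inl.comp (v 0),
    SemidirectProduct.inl.comp ((v 1).comp (σ 1)), SemidirectProduct.inr (Multiplicative.ofAdd 1),
    AU.semidirect φ hN AU.int, ?_, ?_, ?_⟩
  · exact SemidirectProduct.inl_injective.comp (hvi 0)
  · intro q
    simp only [MonoidHom.comp_apply]
    congr 1
    exact hvu 0 q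
  · intro q
    simp only [MonoidHom.comp_apply]
    rw [← map_inv, ← SemidirectProduct.inl_aut, hφ]
    congr 1
    exact (hτ 0 q).symm

end Pool.Agent.H47U
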