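import Pool.Agent.Lib.H47U.D02

/-! CHUNK D03 (M): telescoping, with unique products. -/

set_option autoImplicit false

namespace Pool.Agent.H47U

open Pool.Agent.H63RA

/-- `amen_Ind` and: `Ind r γ` is a subgroup of `Q → G₀` (`UniqueProds.instForall`,
`up_of_injective`). -/
theorem AU_Ind {G₀ Q : Type} [Group G₀] [Group Q] (hG : AU G₀) (r : G₀ →* G₀) (γ : G₀ →* Q) :
    AU (Ind r γ) := by
  have := hG.2
  exact ⟨amen_Ind hG.1 r γ, up_of_injective (H := Q → G₀) inferInstance (Ind r γ).subtype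
    (Ind r γ).subtype_injective⟩

theorem AU_Ext {G₀ Q : Type} [Group G₀] [Group Q] (hG : AU G₀) (hQ : AU Q) (r : G₀ →* G₀)
    (γ : G₀ →* Q) : AU (Ext r γ) :=
  AU.semidirect _ (AU_Ind hG r γ) hQ

section d03

variable {G₀ : Type} [Group G₀]

/-- The data of the telescoping construction. -/
structure D03TD (r ε : G₀ →* G₀) : Prop where
  am : AU G₀
  rr : ∀ g, r (r g) = r g
  εr : ∀ g, ε (r g) = ε g
  ker : ∀ g, ε g = 1 → r g = 1

/-- An amenable group with unique products and an embedding of `G₀`. -/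
structure D03Stage (G₀ : Type) [Group G₀] where
  Q : Type
  inst : Group Q
  j : G₀ →* Q
  inj : Function.Injective j
  am : AU Q

attribute [instance] D03Stage.inst

theorem D03TD.rh {r ε : G₀ →* G₀} (h : D03TD r ε) (S : D03Stage G₀) : RH r (S.j.comp ε) where
  rr := h.rr
  γr := fun g => by simp [h.εr]
  ker := fun g hg => h.ker g (S.inj (by rw [map_one]; exact hg))

/-- The next stage. -/
noncomputable def d03_nextStage {r ε : G₀ →* G₀} (h : D03TD r ε) (S : D03Stage G₀) :
    D03Stage G₀ :=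
  ⟨Ext r (S.j.comp ε), inferInstance, jmap (h.rh S), jmap_injective (h.rh S),
    AU_Ext h.am S.am r (S.j.comp ε)⟩

/-- The sequence of stages. -/
noncomputable def d03_stage {r ε : G₀ →* G₀} (h : D03TD r ε) : ℕ → D03Stage G₀
  | 0 => ⟨G₀, inferInstance, MonoidHom.id G₀, Function.injective_id, h.am⟩
  | n + 1 => d03_nextStage h (d03_stage h n)

/-- The inclusion of a stage as second factor of the next. -/
noncomputable def d03_iMap {r ε : G₀ →* G₀} (h : D03TD r ε) (n : ℕ) :
    (d03_stage h n).Q →* (d03_stage h (n + 1)).Q :=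
  (SemidirectProduct.inr : (d03_stage h n).Q →* Ext r ((d03_stage h n).j.comp ε))

/-- The shift embedding of a stage in the next. -/
noncomputable def d03_sMap {r ε : G₀ →* G₀} (h : D03TD r ε) : ∀ n : ℕ,
    {s : (d03_stage h n).Q →* (d03_stage h (n + 1)).Q //
      Function.Injective s ∧ ∀ g, s ((d03_stage h n).j g) = (d03_stage h (n + 1)).j g}
  | 0 => ⟨jmap (h.rh (d03_stage h 0)), jmap_injective _, fun _ => rfl⟩
  | n + 1 => ⟨(extMap (r := r) (γ := (d03_stage h n).j.comp ε)
      (γ' := (d03_stage h (n + 1)).j.comp ε)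
      (d03_sMap h n).1 (d03_sMap h n).2.1 (fun g => (d03_sMap h n).2.2 (ε g)) :
        Ext r ((d03_stage h n).j.comp ε) →* Ext r ((d03_stage h (n + 1)).j.comp ε)),
      extMap_injective _ _ _, fun g => extMap_jmap _ _ _ (h.rh (d03_stage h n))
        (h.rh (d03_stage h (n + 1))) g⟩

end d03

/-- COPY the section `Telescoping` of `Lib/H63RA/Ext.lean` (`TD`, `Stage`, `nextStage`, `stage`,
`iMap`, `sMap`, `telescoping`) with `AU` in place of `Amen`; all the other lemmas (`jmap`, `extMap`, …)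
are used as they are; `exists_doubleColimU` at the end. -/
theorem telescopingU {G₀ : Type} [Group G₀] (hG : AU G₀) (r ε : G₀ →* G₀)
    (hrr : ∀ g, r (r g) = r g) (hεr : ∀ g, ε (r g) = ε g) (hker : ∀ g, ε g = 1 → r g = 1) :
    ∃ (Γ : Type) (_ : Group Γ) (ι : G₀ →* Γ) (s : Γ), AU Γ ∧ Function.Injective ι ∧
      ∀ g, s * ι (r g) * s⁻¹ = ι (ε g) := by
  have h : D03TD r ε := ⟨hG, hrr, hεr, hker⟩
  obtain ⟨Γ, inst, v, w, s, hΓ, hv, h1, h2⟩ := exists_doubleColimU (fun n => (d03_stage h n).Q)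
    (d03_iMap h) (fun n => (d03_sMap h n).1) (fun n => SemidirectProduct.inr_injective)
    (fun n => (d03_sMap h n).2.1)
    (fun n q => extMap_inr _ (d03_sMap h n).2.1 (fun g => (d03_sMap h n).2.2 (ε g)) q)
    (fun n => (d03_stage h n).am)
  exact ⟨Γ, inst, v, s, hΓ, hv, fun g =>
    (h2 (r g)).symm.trans ((congrArg w (jmap_r (h.rh (d03_stage h 0)) g)).trans (h1 (ε g)))⟩

end Pool.Agent.H47U
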