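import Mathlib

/-! CHUNK D04 (S/M, pure linear algebra): an automorphism with a scalar `e`-th power. -/

set_option autoImplicit false

namespace Pool.Agent.H47U

/-- the space -/
def d04_V (e : ℤ) (c : ℚ) : Submodule ℚ (ℤ → ℚ) where
  carrier := {f | ∀ i, f (i + e) = c * f i}
  add_mem' := by
    intro f g hf hg i
    have h1 := hf i
    have h2 := hg i
    simp only [Pi.add_apply, h1, h2]
    ring
  zero_mem' := by
    intro i
    simp
  smul_mem' := by
    intro r f hf i
    have h1 := hf i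
    simp only [Pi.smul_apply, smul_eq_mul, h1]
    ring

/-- the shift -/
def d04_T (e : ℤ) (c : ℚ) : d04_V e c ≃ₗ[ℚ] d04_V e c where
  toFun f := ⟨fun i => f.1 (i + 1), fun i => by
    have h : i + e + 1 = i + 1 + e := by ring
    show f.1 (i + e + 1) = c * f.1 (i + 1)
    rw [h]
    exact f.2 (i + 1)⟩
  invFun f := ⟨fun i => f.1 (i - 1), fun i => by
    have h : i + e - 1 = i - 1 + e := by ring
    show f.1 (i + e - 1) = c * f.1 (i - 1)
    rw [h]
    exact f.2 (i - 1)⟩
  map_add' f g := rfl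
  map_smul' r f := rfl
  left_inv f := by
    apply Subtype.ext
    funext i
    show f.1 (i - 1 + 1) = f.1 i
    rw [sub_add_cancel]
  right_inv f := by
    apply Subtype.ext
    funext i
    show f.1 (i + 1 - 1) = f.1 i
    rw [add_sub_cancel_right]

theorem d04_pow (e : ℤ) (c : ℚ) (n : ℤ) : ∀ (f : d04_V e c) (i : ℤ), (((d04_T e c) ^ n) f).1 i = f.1 (i + n) := by
  induction n using Int.induction_on with
  | zero =>
    intro f i
    simp
  | succ n ih =>
    intro f i
    rw [zpow_add_one, LinearEquiv.mul_apply, ih]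
    show f.1 (i + n + 1) = _
    rw [add_assoc]
  | pred n ih =>
    intro f i
    rw [zpow_sub_one, LinearEquiv.mul_apply, ih]
    show f.1 (i + -n - 1) = _
    congr 1
    ring

/-- PROOF. `V = {f : ℤ → ℚ | ∀ i, f (i + e) = c * f i}` (a submodule of `ℤ → ℚ`), `T f = f (· + 1)`
(inverse `f (· - 1)`), so `(T ^ n) f = f (· + n)` for all `n : ℤ` and `(T ^ e) f = c • f` for all
`f ∈ V`. `v i = if e ∣ i then c ^ (i / e) else 0`, `v 0 = 1`. -/
theorem exists_scalar_root (e : ℤ) (he : e ≠ 0) (c : ℚ) (hc : c ≠ 0) :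
    ∃ (V : Type) (_ : AddCommGroup V) (_ : Module ℚ V) (T : V ≃ₗ[ℚ] V) (v : V), v ≠ 0 ∧
      (T ^ e : V ≃ₗ[ℚ] V) v = c • v := by
  have hv : (fun i : ℤ => if e ∣ i then c ^ (i / e) else (0 : ℚ)) ∈ d04_V e c := by
    intro i
    by_cases h : e ∣ i
    · have h' : e ∣ i + e := dvd_add_self_right.mpr h
      show (if e ∣ i + e then c ^ ((i + e) / e) else (0 : ℚ)) = c * (if e ∣ i then c ^ (i / e) else (0 : ℚ))
      rw [if_pos h', if_pos h, Int.add_ediv_of_dvd_left h, Int.ediv_self he, zpow_add_one₀ hc, mul_comm]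
    · have h' : ¬ e ∣ i + e := fun h2 => h (dvd_add_self_right.mp h2)
      show (if e ∣ i + e then c ^ ((i + e) / e) else (0 : ℚ)) = c * (if e ∣ i then c ^ (i / e) else (0 : ℚ))
      rw [if_neg h', if_neg h, mul_zero]
  refine ⟨d04_V e c, inferInstance, inferInstance, d04_T e c, ⟨_, hv⟩, ?_, ?_⟩
  · intro h0
    have := congrFun (congrArg Subtype.val h0) 0
    simp at this
  · apply Subtype.ext
    funext i
    rw [d04_pow]
    exact hv i

end Pool.Agent.H47U
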