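import Pool.Agent.Lib.H47U.D03
import Pool.Agent.Lib.H47U.D04

/-! CHUNK D05 (M): the base group. -/

set_option autoImplicit false

namespace Pool.Agent.H47U

/-- the automorphism of the multiplicative version of `V` -/
def d05_aut {V : Type} [AddCommGroup V] [Module ℚ V] (T : V ≃ₗ[ℚ] V) :
    MulAut (Multiplicative V) :=
  AddEquiv.toMultiplicative T.toAddEquiv

theorem d05_aut_apply {V : Type} [AddCommGroup V] [Module ℚ V] (T : V ≃ₗ[ℚ] V) (x : V) :
    d05_aut T (Multiplicative.ofAdd x) = Multiplicative.ofAdd (T x) := rfl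

theorem d05_aut_mul {V : Type} [AddCommGroup V] [Module ℚ V] (S T : V ≃ₗ[ℚ] V) :
    d05_aut (S * T) = d05_aut S * d05_aut T := rfl

/-- the homomorphism `T ↦ d05_aut T` -/
def d05_hom (V : Type) [AddCommGroup V] [Module ℚ V] :
    (V ≃ₗ[ℚ] V) →* MulAut (Multiplicative V) where
  toFun := d05_aut
  map_one' := rfl
  map_mul' := d05_aut_mul

/-- PROOF. `c = m' / m`, `V, T, v` from `exists_scalar_root e`, `G₀ = Multiplicative V ⋊ Multiplicative ℤ`,
`n : ℤ` acting by `T ^ (-n)`; `AU G₀` (`AU.semidirect`, `AU.vec`, `AU.int`). `r (x, n) = (1, n)`,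
`ε (x, n) = (ofAdd (n • v), 1)`: homomorphisms with the same kernel. `telescopingU` gives `Γ, ι, s`,
`s * ι (1, 1) * s⁻¹ = ι (v, 1)`. `b = ι (v, 1)`, so `s⁻¹ * b * s = ι (1, 1)` (the generator of `ℤ`), and
`(s⁻¹ * b * s) ^ (-e) * b ^ m * (s⁻¹ * b * s) ^ e = ι (T ^ e (m • v)) = ι (m' • v) = b ^ m'`. `b ≠ 1` since
`v ≠ 0`; `(s⁻¹ * b * s) ^ e = ι (1, e)` is not a power `ι (k • v, 1)` of `b`, since `e ≠ 0`. -/
theorem exists_Gamma (e m m' : ℤ) (he : e ≠ 0) (hm : m ≠ 0) (hm' : m' ≠ 0) :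
    ∃ (Γ : Type) (_ : Group Γ) (b s : Γ), AU Γ ∧ b ≠ 1 ∧
      (s⁻¹ * b * s) ^ (-e) * b ^ m * (s⁻¹ * b * s) ^ e = b ^ m' ∧
      (s⁻¹ * b * s) ^ e ∉ Subgroup.zpowers b := by
  have hmq : (m : ℚ) ≠ 0 := by exact_mod_cast hm
  have hmq' : (m' : ℚ) ≠ 0 := by exact_mod_cast hm'
  obtain ⟨V, _, _, T, v, hv, hT⟩ := exists_scalar_root e he ((m' : ℚ) / m) (div_ne_zero hmq' hmq)
  let φ : Multiplicative ℤ →* MulAut (Multiplicative V) := zpowersHom _ (d05_hom V T⁻¹)
  have hφ : ∀ n : ℤ, φ (Multiplicative.ofAdd n) = d05_hom V (T ^ (-n)) := by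
    intro n
    show (d05_hom V T⁻¹) ^ n = _
    rw [← map_zpow, zpow_neg, inv_zpow]
  have hG : AU (Multiplicative V ⋊[φ] Multiplicative ℤ) := AU.semidirect φ (AU.vec V) AU.int
  let ψ : Multiplicative ℤ →* Multiplicative V := zpowersHom _ (Multiplicative.ofAdd v)
  have hψ : ∀ n : ℤ, ψ (Multiplicative.ofAdd n) = Multiplicative.ofAdd (n • v) := by
    intro n
    rfl
  let r : (Multiplicative V ⋊[φ] Multiplicative ℤ) →* (Multiplicative V ⋊[φ] Multiplicative ℤ) :=
    SemidirectProduct.inr.comp SemidirectProduct.rightHom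
  let ε : (Multiplicative V ⋊[φ] Multiplicative ℤ) →* (Multiplicative V ⋊[φ] Multiplicative ℤ) :=
    (SemidirectProduct.inl.comp ψ).comp SemidirectProduct.rightHom
  have hr : ∀ g, r g = SemidirectProduct.inr g.right := fun g => rfl
  have hε : ∀ g, ε g = SemidirectProduct.inl (ψ g.right) := fun g => rfl
  obtain ⟨Γ, _, ι, s, hΓ, hι, hs⟩ := telescopingU hG r ε
    (fun g => by rw [hr, hr]; rfl) (fun g => by rw [hε, hε, hr]; rfl) (fun g hg => by
      rw [hε] at hg
      have h1 : ψ g.right = 1 := by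
        apply SemidirectProduct.inl_injective (φ := φ)
        rw [hg, map_one]
      have h2 : g.right = 1 := by
        obtain ⟨n, hn⟩ : ∃ n : ℤ, Multiplicative.ofAdd n = g.right := ⟨g.right.toAdd, rfl⟩
        rw [← hn, hψ] at h1
        have h3 : n • v = 0 := h1
        have h4 : (n : ℚ) • v = 0 := by
          rw [Int.cast_smul_eq_zsmul]
          exact h3
        rcases smul_eq_zero.1 h4 with h5 | h5
        · have h6 : n = 0 := by exact_mod_cast h5
          rw [← hn, h6]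
          rfl
        · exact absurd h5 hv
      rw [hr, h2, map_one])
  have hb : s * ι (SemidirectProduct.inr (Multiplicative.ofAdd (1 : ℤ))) * s⁻¹ =
      ι (SemidirectProduct.inl (Multiplicative.ofAdd v)) := by
    have h1 := hs (SemidirectProduct.inr (Multiplicative.ofAdd (1 : ℤ)))
    rw [hr, hε] at h1
    rw [SemidirectProduct.right_inr, hψ, one_smul] at h1
    exact h1
  set b : Γ := ι (SemidirectProduct.inl (Multiplicative.ofAdd v)) with hbdef
  have hsb : s⁻¹ * b * s = ι (SemidirectProduct.inr (Multiplicative.ofAdd (1 : ℤ))) := by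
    rw [← hb]
    group
  have hpow : ∀ n : ℤ, (s⁻¹ * b * s) ^ n =
      ι (SemidirectProduct.inr (Multiplicative.ofAdd n)) := by
    intro n
    rw [hsb, ← map_zpow, ← map_zpow, ← ofAdd_zsmul, smul_eq_mul, mul_one]
  have hbpow : ∀ n : ℤ, b ^ n = ι (SemidirectProduct.inl (Multiplicative.ofAdd (n • v))) := by
    intro n
    rw [hbdef, ← map_zpow, ← map_zpow, ← ofAdd_zsmul]
  refine ⟨Γ, inferInstance, b, s, hΓ, ?_, ?_, ?_⟩
  · intro h1
    rw [hbdef] at h1
    have h2 := hι (h1.trans (map_one ι).symm)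
    have h3 := SemidirectProduct.inl_injective (φ := φ) (h2.trans (map_one _).symm)
    exact hv h3
  · rw [hpow, hpow, hbpow, hbpow, ← map_mul, ← map_mul]
    congr 1
    have h1 := SemidirectProduct.inl_aut (φ := φ) (Multiplicative.ofAdd (-e))
      (Multiplicative.ofAdd (m • v))
    have h2 : (Multiplicative.ofAdd (-e))⁻¹ = Multiplicative.ofAdd e := by
      rw [← ofAdd_neg, neg_neg]
    rw [h2] at h1
    rw [← h1, hφ, neg_neg]
    congr 1
    show Multiplicative.ofAdd ((T ^ e) (m • v)) = Multiplicative.ofAdd (m' • v)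
    congr 1
    rw [map_zsmul, hT, ← Int.cast_smul_eq_zsmul ℚ m, ← Int.cast_smul_eq_zsmul ℚ m', smul_smul]
    congr 1
    field_simp
  · rintro ⟨k, hk⟩
    simp only at hk
    rw [hpow, hbpow] at hk
    have h1 := hι hk
    have h2 := congrArg SemidirectProduct.right h1
    rw [SemidirectProduct.right_inl, SemidirectProduct.right_inr] at h2
    exact he (Multiplicative.ofAdd.injective h2).symm

end Pool.Agent.H47U
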