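import Pool.Agent.Lib.H47U.Defs

/-! Definitions for the two-sided families. -/

set_option autoImplicit false

namespace Pool.Agent.H47U

open FreeGroup (of lift)

variable {Γ β : Type} [Group Γ]

open Classical in
/-- `(a, n i) ↦ s⁻ⁱ b sⁱ`, all other letters `↦ 1`. -/
noncomputable def vG (a : β) (n : ℤ) (b s : Γ) : β × ℤ → Γ :=
  fun p => if p.1 = a ∧ n ∣ p.2 then s ^ (-(p.2 / n)) * b * s ^ (p.2 / n) else 1

/-- The relator `A⁻¹ g A h⁻¹` with `A = a_n ^ e`, `g = κ₁⁻¹ a_0 ^ m κ₁`, `h = κ₂ a_0 ^ m' κ₂⁻¹`. -/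
def rel (a : β) (n e m m' : ℤ) (κ₁ κ₂ : FreeGroup (β × ℤ)) : FreeGroup (β × ℤ) :=
  (of (a, n) ^ e)⁻¹ * (κ₁⁻¹ * of (a, 0) ^ m * κ₁) * of (a, n) ^ e * (κ₂ * of (a, 0) ^ m' * κ₂⁻¹)⁻¹

open Classical in
/-- `(a, 0) ↦ 1 ∈ ℤ`, all other letters `↦ 0` (multiplicative notation). -/
noncomputable def vZ (a : β) : β × ℤ → Multiplicative ℤ :=
  fun p => if p = (a, 0) then Multiplicative.ofAdd 1 else 1

end Pool.Agent.H47U
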