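import Pool.Agent.Lib.H47U.C05
import Pool.Agent.Lib.H47U.DDefs

/-! CHUNK D06 (M): the relator holds. -/

set_option autoImplicit false

namespace Pool.Agent.H47U

open FreeGroup (of lift)

variable {Γ β : Type} [Group Γ]

theorem d06_sh (v : β × ℤ → Γ) (j : ℤ) (w : FreeGroup (β × ℤ)) :
    lift v (sh j w) = lift (fun p : β × ℤ => v (p.1, p.2 + j)) w := by
  have h : (lift v).comp (sh j) = lift (fun p : β × ℤ => v (p.1, p.2 + j)) := by
    apply FreeGroup.ext_hom
    intro p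
    simp [sh]
  exact DFunLike.congr_fun h w

theorem d06_mem {T : Set (β × ℤ)} {v : β × ℤ → Γ} {H : Subgroup Γ} (h : ∀ p, p ∉ T → v p ∈ H)
    {w : FreeGroup (β × ℤ)} (hw : w ∈ Av T) : lift v w ∈ H := by
  have h1 : Av T ≤ H.comap (lift v) := by
    unfold Av
    rw [Subgroup.closure_le]
    rintro _ ⟨p, hp, rfl⟩
    simp only [Subgroup.coe_comap, Set.mem_preimage, SetLike.mem_coe, FreeGroup.lift_apply_of]
    exact h p hp
  exact h1 hw

/-- The value of the relator. PROOF. The words `κ₁`, `κ₂` involve letters `(a, i)` only with `|i| < n`.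
For `j` with `n ∣ j`: the letters `(a, i)`, `0 < |i| < n`, have value `vG (a, i + j) = 1`, so
`κ₁ ↦ b_j ^ σ₁`, `κ₂ ↦ b_j ^ σ₂` with `b_j = vG (a, j)`, and `vG (a, n + j) = s⁻¹ b_j s`; the relator is
trivial by `hrel` conjugated by `s ^ (j / n)`. For `j` with `¬ n ∣ j`: `vG (a, j) = vG (a, n + j) = 1`,
so the relator is `κ₁⁻¹ κ₁ (κ₂ κ₂⁻¹)⁻¹ = 1`. -/
theorem vG_rel (a : β) (n : ℤ) (hn : 0 < n) (b s : Γ) (e m m' : ℤ)
    (hrel : (s⁻¹ * b * s) ^ (-e) * b ^ m * (s⁻¹ * b * s) ^ e = b ^ m') {κ₁ κ₂ : FreeGroup (β × ℤ)}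
    (h₁ : κ₁ ∈ Av {p : β × ℤ | p.1 = a ∧ n ≤ |p.2|}) (h₂ : κ₂ ∈ Av {p : β × ℤ | p.1 = a ∧ n ≤ |p.2|})
    (j : ℤ) : lift (vG a n b s) (sh j (rel a n e m m' κ₁ κ₂)) = 1 := by
  rw [d06_sh]
  set v : β × ℤ → Γ := fun p => vG a n b s (p.1, p.2 + j) with hv
  have hrw : lift v (rel a n e m m' κ₁ κ₂) =
      (v (a, n) ^ e)⁻¹ * ((lift v κ₁)⁻¹ * v (a, 0) ^ m * lift v κ₁) * v (a, n) ^ e *
        (lift v κ₂ * v (a, 0) ^ m' * (lift v κ₂)⁻¹)⁻¹ := by
    simp only [rel, map_mul, map_inv, map_zpow, FreeGroup.lift_apply_of]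
  rw [hrw]
  by_cases hj : n ∣ j
  · obtain ⟨k, rfl⟩ := hj
    have hn0 : n ≠ 0 := hn.ne'
    have hA : v (a, n) = s ^ (-k) * (s⁻¹ * b * s) * s ^ k := by
      simp only [hv, vG]
      rw [if_pos ⟨trivial, dvd_add (dvd_refl n) (dvd_mul_right n k)⟩]
      have h1 : (n + n * k) / n = 1 + k := by
        rw [show n + n * k = n * (1 + k) by ring, Int.mul_ediv_cancel_left _ hn0]
      rw [h1, neg_add, zpow_add, zpow_add, zpow_neg_one, zpow_one]
      have h2 : s⁻¹ * s ^ (-k) = s ^ (-k) * s⁻¹ := by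
        rw [← zpow_neg_one, ← zpow_add, ← zpow_add, add_comm]
      rw [h2]
      group
    have hB : v (a, 0) = s ^ (-k) * b * s ^ k := by
      simp only [hv, vG]
      rw [if_pos ⟨trivial, by rw [zero_add]; exact dvd_mul_right n k⟩, zero_add,
        Int.mul_ediv_cancel_left _ hn0]
    have hmem : ∀ p : β × ℤ, p ∉ {p : β × ℤ | p.1 = a ∧ n ≤ |p.2|} →
        v p ∈ Subgroup.zpowers (v (a, 0)) := by
      rintro ⟨x, i⟩ hp
      rw [Set.mem_ofPred_eq, not_and, not_le] at hp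
      by_cases hx : x = a
      · have hi : |i| < n := hp hx
        by_cases hi0 : i = 0
        · rw [hi0, hx]
          exact Subgroup.mem_zpowers _
        · have h1 : ¬ n ∣ i + n * k := by
            intro h2
            have h3 : n ∣ i := (Int.dvd_add_left (dvd_mul_right n k)).mp h2
            have h4 := Int.le_of_dvd (abs_pos.mpr hi0) ((dvd_abs n i).mpr h3)
            omega
          have h5 : v (x, i) = 1 := by
            simp only [hv, vG]
            rw [if_neg (fun h => h1 h.2)]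
          rw [h5]
          exact one_mem _
      · have h5 : v (x, i) = 1 := by
          simp only [hv, vG]
          rw [if_neg (fun h => hx h.1)]
        rw [h5]
        exact one_mem _
    have k1 : lift v κ₁ ∈ Subgroup.zpowers (v (a, 0)) := d06_mem hmem h₁
    have k2 : lift v κ₂ ∈ Subgroup.zpowers (v (a, 0)) := d06_mem hmem h₂
    obtain ⟨c₁, hc₁⟩ := Subgroup.mem_zpowers_iff.mp k1
    obtain ⟨c₂, hc₂⟩ := Subgroup.mem_zpowers_iff.mp k2
    rw [← hc₁, ← hc₂]
    have e1 : (v (a, 0) ^ c₁)⁻¹ * v (a, 0) ^ m * v (a, 0) ^ c₁ = v (a, 0) ^ m := by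
      rw [← zpow_neg, ← zpow_add, ← zpow_add]
      congr 1
      ring
    have e2 : v (a, 0) ^ c₂ * v (a, 0) ^ m' * (v (a, 0) ^ c₂)⁻¹ = v (a, 0) ^ m' := by
      rw [← zpow_neg, ← zpow_add, ← zpow_add]
      congr 1
      ring
    rw [e1, e2, hA, hB]
    have conj : ∀ (g : Γ) (r : ℤ), (s ^ (-k) * g * s ^ k) ^ r = s ^ (-k) * g ^ r * s ^ k := by
      intro g r
      rw [zpow_neg]
      have := conj_zpow (i := r) (a := (s ^ k)⁻¹) (b := g)
      rw [inv_inv] at this
      exact this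
    rw [conj, conj, conj, ← hrel]
    rw [zpow_neg (s⁻¹ * b * s) e]
    group
  · have hA : v (a, n) = 1 := by
      simp only [hv, vG]
      rw [if_neg]
      intro h
      exact hj ((Int.dvd_add_right (dvd_refl n)).mp h.2)
    have hB : v (a, 0) = 1 := by
      simp only [hv, vG]
      rw [if_neg]
      intro h
      rw [zero_add] at h
      exact hj h.2
    rw [hA, hB]
    simp

end Pool.Agent.H47U
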