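import Pool.Agent.Lib.H47U.C05B
import Pool.Agent.Lib.H47U.D01
import Pool.Agent.Lib.H47U.DDefs

/-! CHUNK D06B (M/L): the quotient with `n`-periodic support. -/

set_option autoImplicit false

namespace Pool.Agent.H47U

open FreeGroup (of lift)

variable {Γ β : Type} [Group Γ]

theorem d06b_sh (v : β × ℤ → Γ) (j : ℤ) (w : FreeGroup (β × ℤ)) :
    lift v (sh j w) = lift (fun p : β × ℤ => v (p.1, p.2 + j)) w := by
  have h : (lift v).comp (sh j) = lift (fun p : β × ℤ => v (p.1, p.2 + j)) := by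
    apply FreeGroup.ext_hom
    intro p
    simp [sh]
  exact DFunLike.congr_fun h w

/-- The functions with `g (j + n) = s⁻¹ g j s`. -/
def d06b_QN (n : ℤ) (s : Γ) : Subgroup (ℤ → Γ) where
  carrier := {g | ∀ j, g (j + n) = s⁻¹ * g j * s}
  one_mem' := by
    intro j
    simp
  mul_mem' := by
    intro g g' hg hg' j
    rw [Set.mem_ofPred_eq] at hg hg'
    rw [Pi.mul_apply, Pi.mul_apply, hg j, hg' j]
    group
  inv_mem' := by
    intro g hg j
    rw [Set.mem_ofPred_eq] at hg
    rw [Pi.inv_apply, Pi.inv_apply, hg j]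
    group

theorem d06b_mem {n : ℤ} {s : Γ} {g : ℤ → Γ} :
    g ∈ d06b_QN n s ↔ ∀ j, g (j + n) = s⁻¹ * g j * s := Iff.rfl

theorem d06b_per {n : ℤ} {s : Γ} {g : ℤ → Γ} (hg : g ∈ d06b_QN n s) (j q : ℤ) :
    g (j + n * q) = s ^ (-q) * g j * s ^ q := by
  induction q using Int.induction_on with
  | zero => simp
  | succ q ih =>
    rw [show j + n * ((q : ℤ) + 1) = (j + n * q) + n by ring, hg, ih, zpow_add, zpow_one,
      neg_add, zpow_add, zpow_neg_one]
    have : s ^ (-(q : ℤ)) * s⁻¹ = s⁻¹ * s ^ (-(q : ℤ)) := by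
      rw [← zpow_neg_one, ← zpow_add, ← zpow_add, add_comm]
    rw [this]
    group
  | pred q ih =>
    have h1 := hg (j + n * (-(q : ℤ) - 1))
    rw [show j + n * (-(q : ℤ) - 1) + n = j + n * (-(q : ℤ)) by ring, ih] at h1
    have h2 : g (j + n * (-(q : ℤ) - 1)) = s * (s ^ (-(-(q : ℤ))) * g j * s ^ (-(q : ℤ))) * s⁻¹ := by
      rw [h1]
      group
    rw [h2, show -(-(q : ℤ) - 1) = 1 + -(-(q : ℤ)) by ring, zpow_add, zpow_one,
      show -(q : ℤ) - 1 = -(q : ℤ) + (-1) by ring, zpow_add s (-(q : ℤ)) (-1), zpow_neg_one]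
    group

/-- Evaluation. -/
def d06b_ev (n : ℤ) (s : Γ) (j : ℤ) : d06b_QN n s →* Γ where
  toFun g := g.1 j
  map_one' := rfl
  map_mul' _ _ := rfl

theorem d06b_AU (hΓ : AU Γ) (n : ℤ) (hn : 0 < n) (s : Γ) : AU (d06b_QN n s) := by
  let f : d06b_QN n s →* (Fin n.toNat → Γ) :=
    { toFun := fun g k => g.1 k
      map_one' := rfl
      map_mul' := fun _ _ => rfl }
  refine AU.of_injective (AU.pi hΓ) f ?_
  intro g g' h
  apply Subtype.ext
  funext j
  have h0 := Int.emod_nonneg j hn.ne'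
  have h1 := Int.emod_lt_of_pos j hn
  have h2 : g.1 (j % n) = g'.1 (j % n) := by
    have h3 := congrFun h ⟨(j % n).toNat, by omega⟩
    change g.1 (((j % n).toNat : ℕ) : ℤ) = g'.1 (((j % n).toNat : ℕ) : ℤ) at h3
    rwa [Int.toNat_of_nonneg h0] at h3
  have h4 : j = j % n + n * (j / n) := (Int.emod_add_mul_ediv j n).symm
  rw [h4, d06b_per g.2, d06b_per g'.2, h2]

/-- The shift `(S g) j = g (j - 1)`. -/
def d06b_S (n : ℤ) (s : Γ) : MulAut (d06b_QN n s) where
  toFun g := ⟨fun j => g.1 (j - 1), fun j => by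
    have := g.2 (j - 1)
    change g.1 (j + n - 1) = s⁻¹ * g.1 (j - 1) * s
    rw [show j + n - 1 = (j - 1) + n by ring]
    exact this⟩
  invFun g := ⟨fun j => g.1 (j + 1), fun j => by
    have := g.2 (j + 1)
    change g.1 (j + n + 1) = s⁻¹ * g.1 (j + 1) * s
    rw [show j + n + 1 = (j + 1) + n by ring]
    exact this⟩
  left_inv g := by
    apply Subtype.ext
    funext j
    simp
  right_inv g := by
    apply Subtype.ext
    funext j
    simp
  map_mul' _ _ := rfl

theorem d06b_S_zpow (n : ℤ) (s : Γ) (i : ℤ) (g : d06b_QN n s) (j : ℤ) :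
    ((d06b_S n s ^ i) g).1 j = g.1 (j - i) := by
  induction i using Int.induction_on generalizing g j with
  | zero => simp
  | succ i ih =>
    rw [zpow_add, zpow_one, MulAut.mul_apply, ih]
    change g.1 (j - i - 1) = _
    rw [show j - (i : ℤ) - 1 = j - ((i : ℤ) + 1) by ring]
  | pred i ih =>
    rw [zpow_sub, zpow_one, MulAut.mul_apply, ih]
    change g.1 (j - -(i : ℤ) + 1) = _
    rw [show j - -(i : ℤ) + 1 = j - (-(i : ℤ) - 1) by ring]

/-- The action of `ℤ`. -/
noncomputable def d06b_act (n : ℤ) (s : Γ) : Multiplicative ℤ →* MulAut (d06b_QN n s) :=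
  zpowersHom _ (d06b_S n s)

theorem d06b_act_apply (n : ℤ) (s : Γ) (i : ℤ) (g : d06b_QN n s) (j : ℤ) :
    (d06b_act n s (Multiplicative.ofAdd i) g).1 j = g.1 (j - i) := by
  rw [d06b_act, zpowersHom_apply, toAdd_ofAdd]
  exact d06b_S_zpow n s i g j

/-- The lifted letters. -/
noncomputable def d06b_v (a : β) (n : ℤ) (hn : 0 < n) (b s : Γ) (p : β × ℤ) : d06b_QN n s :=
  ⟨fun j => vG a n b s (p.1, p.2 + j), fun j => by
    simp only [vG]
    by_cases h : p.1 = a ∧ n ∣ p.2 + j
    · have h' : p.1 = a ∧ n ∣ p.2 + (j + n) :=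
        ⟨h.1, by rw [← add_assoc]; exact dvd_add h.2 (dvd_refl n)⟩
      rw [if_pos h, if_pos h']
      have h1 : (p.2 + (j + n)) / n = (p.2 + j) / n + 1 := by
        rw [← add_assoc, Int.add_ediv_of_dvd_right (dvd_refl n), Int.ediv_self hn.ne']
      rw [h1, neg_add, zpow_add, zpow_add, zpow_one, zpow_neg_one]
      have : s ^ (-((p.2 + j) / n)) * s⁻¹ = s⁻¹ * s ^ (-((p.2 + j) / n)) := by
        rw [← zpow_neg_one, ← zpow_add, ← zpow_add, add_comm]
      rw [this]
      group
    · have h' : ¬ (p.1 = a ∧ n ∣ p.2 + (j + n)) := by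
        intro h2
        apply h
        refine ⟨h2.1, ?_⟩
        have h3 := h2.2
        rw [← add_assoc] at h3
        exact (Int.dvd_add_left (dvd_refl n)).mp h3
      rw [if_neg h, if_neg h']
      group⟩

/-- The generators. -/
noncomputable def d06b_f (a : β) (n : ℤ) (hn : 0 < n) (b s : Γ) :
    Option β → d06b_QN n s ⋊[d06b_act n s] Multiplicative ℤ
  | some x => SemidirectProduct.inl (d06b_v a n hn b s (x, 0))
  | none => SemidirectProduct.inr (Multiplicative.ofAdd 1)

theorem d06b_kap (a : β) (n : ℤ) (hn : 0 < n) (b s : Γ) (w : FreeGroup (β × ℤ)) :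
    lift (d06b_f a n hn b s) (kap w) =
      SemidirectProduct.inl (lift (d06b_v a n hn b s) w) := by
  have h : (lift (d06b_f a n hn b s)).comp kap =
      (SemidirectProduct.inl : d06b_QN n s →* d06b_QN n s ⋊[d06b_act n s] Multiplicative ℤ).comp
        (lift (d06b_v a n hn b s)) := by
    apply FreeGroup.ext_hom
    rintro ⟨x, i⟩
    simp only [MonoidHom.comp_apply, FreeGroup.lift_apply_of, kap, map_mul, map_zpow]
    have h1 : (d06b_f a n hn b s none) ^ i =
        SemidirectProduct.inr (Multiplicative.ofAdd i) := by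
      change (SemidirectProduct.inr (Multiplicative.ofAdd (1 : ℤ)) :
        d06b_QN n s ⋊[d06b_act n s] Multiplicative ℤ) ^ i = _
      rw [← map_zpow, ← ofAdd_zsmul]
      simp
    have h2 : (d06b_f a n hn b s none) ^ (-i) =
        SemidirectProduct.inr (Multiplicative.ofAdd (-i)) := by
      change (SemidirectProduct.inr (Multiplicative.ofAdd (1 : ℤ)) :
        d06b_QN n s ⋊[d06b_act n s] Multiplicative ℤ) ^ (-i) = _
      rw [← map_zpow, ← ofAdd_zsmul]
      simp
    rw [h1, h2]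
    change SemidirectProduct.inr (Multiplicative.ofAdd (-i)) *
      SemidirectProduct.inl (d06b_v a n hn b s (x, 0)) *
      SemidirectProduct.inr (Multiplicative.ofAdd i) = _
    have h3 : Multiplicative.ofAdd i = (Multiplicative.ofAdd (-i))⁻¹ := by
      rw [ofAdd_neg, inv_inv]
    rw [h3, ← SemidirectProduct.inl_aut]
    congr 1
    apply Subtype.ext
    funext j
    rw [d06b_act_apply]
    change vG a n b s (x, 0 + (j - -i)) = vG a n b s (x, i + j)
    congr 2
    ring
  exact DFunLike.congr_fun h w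

theorem d06b_val (a : β) (n : ℤ) (hn : 0 < n) (b s : Γ) (w : FreeGroup (β × ℤ)) (j : ℤ) :
    (lift (d06b_v a n hn b s) w).1 j = lift (vG a n b s) (sh j w) := by
  rw [d06b_sh]
  have h : (d06b_ev n s j).comp (lift (d06b_v a n hn b s)) =
      lift (fun p : β × ℤ => vG a n b s (p.1, p.2 + j)) := by
    apply FreeGroup.ext_hom
    intro p
    simp only [MonoidHom.comp_apply, FreeGroup.lift_apply_of]
    rfl
  exact DFunLike.congr_fun h w

theorem d06b_val0 (a : β) (n : ℤ) (hn : 0 < n) (b s : Γ) (w : FreeGroup (β × ℤ)) :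
    (lift (d06b_v a n hn b s) w).1 0 = lift (vG a n b s) w := by
  rw [d06b_val, d06b_sh]
  simp

/-- PROOF. `QN = {g : ℤ → Γ | ∀ j, g (j + n) = s⁻¹ * g j * s}` (subgroup; determined by the values at
`0, …, n-1`, so it embeds in `Fin n.toNat → Γ`, `AU.pi`), `Q = QN ⋊ ℤ` with `(i • g) j = g (j - i)`.
`v̂ (x, i) = (j ↦ vG a n b s (x, i + j)) ∈ QN`. The homomorphism `Option β → Q`, `some x ↦ inl (v̂ (x, 0))`,
`none ↦ inr 1`, maps `kap w` to `inl (lift v̂ w)` and `(lift v̂ w) j = lift (vG …) (sh j w)`; by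
`hr` it factors through `φ : OR r →* Q`, `bar φ = inl ∘ v̂`. With `ev₀ : QN → Γ`: `ev₀ ∘ v̂ = vG …`.
By `fox_map`: `fox (bar φ) e w = mapDomain inl (fox v̂ e w)` (`mapDomain` of an injective map is
injective), `fox (vG …) e w = mapDomain ev₀ (fox v̂ e w)`. -/
theorem exists_Q (hΓ : AU Γ) (a : β) (n : ℤ) (hn : 0 < n) (b s : Γ) (r : FreeGroup (β × ℤ))
    (hr : ∀ j : ℤ, lift (vG a n b s) (sh j r) = 1) :
    ∃ (Q : Type) (_ : Group Q) (φ : OR r →* Q), AU Q ∧
      (∀ (e : β × ℤ) (w : FreeGroup (β × ℤ)), fox (vG a n b s) e w ≠ 0 → fox (bar φ) e w ≠ 0) ∧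
      ∀ w : FreeGroup (β × ℤ), lift (vG a n b s) w ≠ 1 → lift (bar φ) w ≠ 1 := by
  have hrel : ∀ z ∈ ({kap r} : Set (FreeGroup (Option β))),
      lift (d06b_f a n hn b s) z = 1 := by
    rintro _ rfl
    rw [d06b_kap]
    have h1 : lift (d06b_v a n hn b s) r = 1 := by
      apply Subtype.ext
      funext j
      rw [d06b_val]
      exact hr j
    rw [h1, map_one]
  let φ : OR r →* d06b_QN n s ⋊[d06b_act n s] Multiplicative ℤ := PresentedGroup.toGroup hrel
  have hφ : ∀ z : FreeGroup (Option β),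
      φ (PresentedGroup.mk _ z) = lift (d06b_f a n hn b s) z := fun z => rfl
  have hbar : bar φ = fun p => (SemidirectProduct.inl :
      d06b_QN n s →* d06b_QN n s ⋊[d06b_act n s] Multiplicative ℤ) (d06b_v a n hn b s p) := by
    funext p
    rw [bar, hφ, d06b_kap, FreeGroup.lift_apply_of]
  have hev : (vG a n b s : β × ℤ → Γ) = fun p => d06b_ev n s 0 (d06b_v a n hn b s p) := by
    funext p
    change _ = vG a n b s (p.1, p.2 + 0)
    rw [add_zero]
  refine ⟨_, _, φ, AU.semidirect _ (d06b_AU hΓ n hn s) AU.int, ?_, ?_⟩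
  · intro e w h h'
    apply h
    rw [hbar, fox_map] at h'
    have h1 : fox (d06b_v a n hn b s) e w = 0 := by
      apply MonoidAlgebra.mapDomain_injective (R := ℚ)
        (f := (SemidirectProduct.inl :
          d06b_QN n s →* d06b_QN n s ⋊[d06b_act n s] Multiplicative ℤ))
        SemidirectProduct.inl_injective
      rw [h', MonoidAlgebra.mapDomain_zero]
    rw [hev, fox_map, h1, MonoidAlgebra.mapDomain_zero]
  · intro w h h'
    apply h
    rw [lift_bar, hφ, d06b_kap] at h'
    have h1 : lift (d06b_v a n hn b s) w = 1 := by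
      apply SemidirectProduct.inl_injective (φ := d06b_act n s)
      rw [h', map_one]
    rw [← d06b_val0 a n hn b s w, h1]
    rfl

end Pool.Agent.H47U
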