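import Pool.Agent.Lib.H47U.A02
import Pool.Agent.Lib.H47U.A04
import Pool.Agent.Lib.H47U.DDefs

/-! CHUNK D07 (M): Fox derivative, top letter. -/

set_option autoImplicit false

namespace Pool.Agent.H47U

open FreeGroup (of lift)

variable {Γ β : Type} [Group Γ]

/-- The augmentation. -/
noncomputable def D07_aug (Q : Type) [Group Q] : MonoidAlgebra ℚ Q →ₐ[ℚ] ℚ :=
  MonoidAlgebra.lift ℚ ℚ Q (1 : Q →* ℚ)

theorem D07_aug_single {Q : Type} [Group Q] (g : Q) (c : ℚ) :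
    D07_aug Q (MonoidAlgebra.single g c) = c := by
  unfold D07_aug
  rw [MonoidAlgebra.lift_single]
  simp

theorem D07_aug_mul_single {Q : Type} [Group Q] (g : Q) (x : MonoidAlgebra ℚ Q) :
    D07_aug Q (MonoidAlgebra.single g 1 * x) = D07_aug Q x := by
  rw [map_mul, D07_aug_single, one_mul]

/-- The augmented Fox derivative is a homomorphism. -/
noncomputable def D07_augHom {α Q : Type} [Group Q] (v : α → Q) (x : α) :
    FreeGroup α →* Multiplicative ℚ where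
  toFun w := Multiplicative.ofAdd (D07_aug Q (fox v x w))
  map_one' := by rw [fox_one, map_zero]; rfl
  map_mul' w w' := by rw [fox_mul, map_add, D07_aug_mul_single]; rfl

theorem D07_aug_zpow {α Q : Type} [Group Q] (v : α → Q) (x : α) (e : ℤ) :
    D07_aug Q (fox v x (of x ^ e)) = e := by
  have h := map_zpow (D07_augHom v x) (of x) e
  have h1 : (D07_augHom v x) (of x) = Multiplicative.ofAdd 1 := by
    show Multiplicative.ofAdd (D07_aug Q (fox v x (of x))) = _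
    rw [fox_of_self, map_one]
  rw [h1] at h
  have h2 : D07_aug Q (fox v x (of x ^ e)) = Multiplicative.toAdd ((D07_augHom v x) (of x ^ e)) := rfl
  rw [h2, h, toAdd_zpow, toAdd_ofAdd]
  simp

/-- Top letter. PROOF. `g`, `h` do not involve `(a, n)`, so
`fox (rel) = single (b₁ ^ e)⁻¹ * (single (b_0^(-σ₁) b ^ m b_0^σ₁) - 1) * fox (of (a, n) ^ e)` with
`b₁ = s⁻¹ b s`; the second factor is `single (b ^ m) 1 - 1 ≠ 0` (torsion-free), the third has
augmentation `e ≠ 0`; `ℚ[Γ]` has no zero divisors. -/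
theorem fox_top (hΓ : UniqueProds Γ) (a : β) (n : ℤ) (hn : 0 < n) (b s : Γ) (hb : b ≠ 1)
    (e m m' : ℤ) (he : e ≠ 0) (hm : m ≠ 0) {κ₁ κ₂ : FreeGroup (β × ℤ)}
    (h₁ : κ₁ ∈ Av {p : β × ℤ | p.1 = a ∧ n ≤ |p.2|})
    (h₂ : κ₂ ∈ Av {p : β × ℤ | p.1 = a ∧ n ≤ |p.2|}) :
    fox (vG a n b s) (a, n) (rel a n e m m' κ₁ κ₂) ≠ 0 := by
  have := hΓ
  set v := vG a n b s with hv
  set x : β × ℤ := (a, n) with hx
  set T : Set (β × ℤ) := {p : β × ℤ | p.1 = a ∧ n ≤ |p.2|} with hT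
  have hxT : x ∈ T := ⟨rfl, le_abs_self n⟩
  have h0T : ((a, 0) : β × ℤ) ∉ T := by
    rintro ⟨-, h⟩
    simp only [abs_zero] at h
    omega
  have h0 : (of ((a, 0) : β × ℤ)) ∈ (Av T : Subgroup (FreeGroup (β × ℤ))) := of_mem_Av h0T
  have hG : κ₁⁻¹ * of (a, 0) ^ m * κ₁ ∈ (Av T : Subgroup (FreeGroup (β × ℤ))) :=
    mul_mem (mul_mem (inv_mem h₁) (zpow_mem h0 m)) h₁
  have hH : (κ₂ * of (a, 0) ^ m' * κ₂⁻¹)⁻¹ ∈ (Av T : Subgroup (FreeGroup (β × ℤ))) :=
    inv_mem (mul_mem (mul_mem h₂ (zpow_mem h0 m')) (inv_mem h₂))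
  have fG := fox_av hG hxT v
  have fH := fox_av hH hxT v
  have hv0 : v (a, 0) = b := by
    rw [hv]
    simp [vG]
  have hvG : lift v (κ₁⁻¹ * of (a, 0) ^ m * κ₁) ≠ 1 := by
    intro h
    rw [map_mul, map_mul, map_inv, map_zpow, FreeGroup.lift_apply_of, hv0] at h
    have h1 : b ^ m = 1 := by
      have h2 : b ^ m = lift v κ₁ * ((lift v κ₁)⁻¹ * b ^ m * lift v κ₁) * (lift v κ₁)⁻¹ := by group
      rw [h2, h]
      group
    exact zpow_ne_one_of_up hΓ hb hm h1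
  have hrel : fox v x (rel a n e m m' κ₁ κ₂) =
      MonoidAlgebra.single (lift v (of x ^ e))⁻¹ 1 *
        ((MonoidAlgebra.single (lift v (κ₁⁻¹ * of (a, 0) ^ m * κ₁)) 1 - 1) * fox v x (of x ^ e)) := by
    unfold rel
    rw [fox_mul, fH, mul_zero, add_zero, fox_mul, fox_mul, fG, mul_zero, add_zero, fox_inv, map_mul,
      map_inv, sub_mul, mul_sub, one_mul, ← mul_assoc, MonoidAlgebra.single_mul_single, one_mul]
    abel
  rw [hrel]
  have n1 : (MonoidAlgebra.single (lift v (of x ^ e))⁻¹ (1 : ℚ)) ≠ 0 := by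
    intro h
    have := congrArg (D07_aug Γ) h
    rw [D07_aug_single, map_zero] at this
    exact one_ne_zero this
  have n2 : (MonoidAlgebra.single (lift v (κ₁⁻¹ * of (a, 0) ^ m * κ₁)) (1 : ℚ) - 1) ≠ 0 := by
    intro h
    rw [sub_eq_zero, MonoidAlgebra.one_def] at h
    exact hvG (MonoidAlgebra.of_injective (R := ℚ) (M := Γ) h)
  have n3 : fox v x (of x ^ e) ≠ 0 := by
    intro h
    have := D07_aug_zpow v x e
    rw [h, map_zero] at this
    exact he (by exact_mod_cast this.symm)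
  exact mul_ne_zero n1 (mul_ne_zero n2 n3)

end Pool.Agent.H47U
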