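import Pool.Agent.Lib.H47U.A02
import Pool.Agent.Lib.H47U.A04
import Pool.Agent.Lib.H47U.DDefs
import Pool.Agent.Lib.H47U.D07

/-! CHUNK D07B (M): Fox derivative, bottom letter `(a, 0)`. -/

set_option autoImplicit false

namespace Pool.Agent.H47U

open FreeGroup (of lift)

variable {Γ β : Type} [Group Γ]

/-- Words whose letters outside `T` have values in `B`: value and Fox derivative live over `B`. -/
theorem D07B_supp {α : Type} (v : α → Γ) (x : α) (T : Set α) (B : Subgroup Γ)
    (hB : ∀ y, y ∉ T → v y ∈ B) {w : FreeGroup α} (hw : w ∈ (Av T : Subgroup (FreeGroup α))) :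
    lift v w ∈ B ∧ ∀ g, g ∉ B → (fox v x w).coeff g = 0 := by
  classical
  unfold Av at hw
  induction hw using Subgroup.closure_induction with
  | mem w hw =>
    obtain ⟨y, hy, rfl⟩ := hw
    refine ⟨by rw [FreeGroup.lift_apply_of]; exact hB y hy, fun g hg => ?_⟩
    by_cases hyx : y = x
    · subst hyx
      rw [fox_of_self, MonoidAlgebra.one_def, MonoidAlgebra.coeff_single]
      exact Finsupp.single_eq_of_ne (fun h => hg (h ▸ one_mem B))
    · rw [fox_of_ne v hyx]; rfl
  | one => exact ⟨by rw [map_one]; exact one_mem B, fun g _ => by rw [fox_one]; rfl⟩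
  | mul w w' _ _ h h' =>
    refine ⟨by rw [map_mul]; exact mul_mem h.1 h'.1, fun g hg => ?_⟩
    rw [fox_mul, MonoidAlgebra.coeff_add, Finsupp.add_apply, h.2 g hg, MonoidAlgebra.coeff_single_mul_apply,
      h'.2 _ (fun hc => hg ?_), mul_zero, add_zero]
    have := mul_mem h.1 hc
    rwa [mul_inv_cancel_left] at this
  | inv w _ h =>
    refine ⟨by rw [map_inv]; exact inv_mem h.1, fun g hg => ?_⟩
    rw [fox_inv, MonoidAlgebra.coeff_neg, Finsupp.neg_apply, MonoidAlgebra.coeff_single_mul_apply,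
      h.2 _ (fun hc => hg ?_), mul_zero, neg_zero]
    have := mul_mem (inv_mem h.1) hc
    rwa [inv_inv, inv_mul_cancel_left] at this

/-- Bottom letter `(a, 0)`. PROOF. Let `D = fox (vG …) (a, 0)`, `B = zpowers b`, `P = b ^ m'`. The values
of the words in `κ₁`, `κ₂` (and their prefixes) lie in `B`, so `D κ₁`, `D κ₂` are supported in `B`.
`D (rel) = single (b₁ ^ (-e)) * [single (b^(-σ₁)) * ((b ^ m - 1) * D κ₁ + D (of (a,0) ^ m))]
  + (P - 1) * D κ₂ - single (b^σ₂) * D (of (a, 0) ^ m')` (use `hrel` for the value of `A⁻¹ g A`).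
Apply the functional `δ ↦ ∑_{g : b₁ ^ e * g ∈ B} δ_g`: the second line is supported in `B` and
`b₁ ^ (-e) B ≠ B` by `hbe`, so it gives `0`; the first gives the augmentation of `[…]`, which is
`0 + m ≠ 0`. -/
theorem fox_bottom (a : β) (n : ℤ) (hn : 0 < n) (b s : Γ) (e m m' : ℤ) (hm : m ≠ 0)
    (hrel : (s⁻¹ * b * s) ^ (-e) * b ^ m * (s⁻¹ * b * s) ^ e = b ^ m')
    (hbe : (s⁻¹ * b * s) ^ e ∉ Subgroup.zpowers b) {κ₁ κ₂ : FreeGroup (β × ℤ)}
    (h₁ : κ₁ ∈ Av {p : β × ℤ | p.1 = a ∧ n ≤ |p.2|})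
    (h₂ : κ₂ ∈ Av {p : β × ℤ | p.1 = a ∧ n ≤ |p.2|}) :
    fox (vG a n b s) (a, 0) (rel a n e m m' κ₁ κ₂) ≠ 0 := by
  set v := vG a n b s with hv
  set x : β × ℤ := (a, 0) with hx
  set y : β × ℤ := (a, n) with hy
  set B := Subgroup.zpowers b with hB
  set T : Set (β × ℤ) := {p : β × ℤ | p.1 = a ∧ n ≤ |p.2|} with hT
  have hxT : x ∉ T := by
    rintro ⟨-, h⟩
    simp only [hx, abs_zero] at h
    omega
  have hbB : b ∈ B := Subgroup.mem_zpowers b
  have hvx : v x = b := by rw [hv]; simp [vG, hx]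
  have hvB : ∀ z, z ∉ T → v z ∈ B := by
    intro z hz
    rw [hv]
    unfold vG
    split_ifs with h
    · obtain ⟨h1, k, hk⟩ := h
      have hk0 : k = 0 := by
        by_contra hk0
        apply hz
        refine ⟨h1, ?_⟩
        rw [hk, abs_mul, abs_of_pos hn]
        have : 1 ≤ |k| := Int.one_le_abs hk0
        nlinarith
      rw [hk, hk0]
      simpa using hbB
    · exact one_mem B
  have h0 : (of x) ∈ (Av T : Subgroup (FreeGroup (β × ℤ))) := of_mem_Av hxT
  set G := κ₁⁻¹ * of x ^ m * κ₁ with hG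
  set H := κ₂ * of x ^ m' * κ₂⁻¹ with hH
  have hGT : G ∈ (Av T : Subgroup (FreeGroup (β × ℤ))) :=
    mul_mem (mul_mem (inv_mem h₁) (zpow_mem h0 m)) h₁
  have hHT : H ∈ (Av T : Subgroup (FreeGroup (β × ℤ))) :=
    mul_mem (mul_mem h₂ (zpow_mem h0 m')) (inv_mem h₂)
  have sG := D07B_supp v x T B hvB hGT
  have sH := D07B_supp v x T B hvB hHT
  have k1 := (D07B_supp v x T B hvB h₁).1
  have k2 := (D07B_supp v x T B hvB h₂).1
  have cG : lift v G = b ^ m := by
    obtain ⟨i, hi⟩ := k1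
    simp only at hi
    rw [hG, map_mul, map_mul, map_inv, map_zpow, FreeGroup.lift_apply_of, hvx, ← hi]
    group
  have cH : lift v H = b ^ m' := by
    obtain ⟨i, hi⟩ := k2
    simp only at hi
    rw [hH, map_mul, map_mul, map_inv, map_zpow, FreeGroup.lift_apply_of, hvx, ← hi]
    group
  have hvy : v y = s⁻¹ * b * s := by
    rw [hv]
    have : n / n = 1 := Int.ediv_self hn.ne'
    simp [vG, hy, this]
  have cE : lift v (of y ^ e) = (s⁻¹ * b * s) ^ e := by rw [map_zpow, FreeGroup.lift_apply_of, hvy]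
  have fE : fox v x (of y ^ e) = 0 := by
    have hyx : y ∉ ({x} : Set (β × ℤ)) := by
      rw [Set.mem_singleton_iff, hx, hy]
      intro h
      have := congrArg Prod.snd h
      simp only at this
      omega
    exact fox_av (T := {x}) (zpow_mem (of_mem_Av hyx) e) (Set.mem_singleton x) v
  intro hz
  have hrel' : fox v x (rel a n e m m' κ₁ κ₂) =
      MonoidAlgebra.single (lift v (of y ^ e))⁻¹ 1 * fox v x G - fox v x H := by
    have r1 : rel a n e m m' κ₁ κ₂ = (of y ^ e)⁻¹ * G * of y ^ e * H⁻¹ := rfl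
    have v1 : lift v ((of y ^ e)⁻¹ * G * of y ^ e) = lift v H := by
      rw [map_mul, map_mul, map_inv, cG, cH, cE, ← zpow_neg, hrel]
    have f1 : fox v x ((of y ^ e)⁻¹ * G * of y ^ e) =
        MonoidAlgebra.single (lift v (of y ^ e))⁻¹ 1 * fox v x G := by
      rw [fox_mul, fox_mul, fE, fox_inv, fE, map_inv, mul_zero, mul_zero, neg_zero, zero_add, add_zero]
    rw [r1, fox_mul, f1, v1, fox_inv, mul_neg, ← mul_assoc (MonoidAlgebra.single (lift v H) 1),
      MonoidAlgebra.single_mul_single, mul_inv_cancel, one_mul, ← MonoidAlgebra.one_def, one_mul,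
      sub_eq_add_neg]
  rw [hrel', sub_eq_zero] at hz
  have aG : D07_aug Γ (fox v x G) = m := by
    have h1 : Multiplicative.ofAdd (D07_aug Γ (fox v x G)) = D07_augHom v x G := rfl
    have h2 : D07_augHom v x G = D07_augHom v x (of x ^ m) := by
      rw [hG, map_mul, map_mul, map_inv, mul_comm, mul_inv_cancel_left]
    have h3 : D07_augHom v x (of x ^ m) = Multiplicative.ofAdd (m : ℚ) := by
      show Multiplicative.ofAdd (D07_aug Γ (fox v x (of x ^ m))) = _
      rw [D07_aug_zpow]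
    rw [h2, h3] at h1
    exact h1
  have nG : fox v x G ≠ 0 := by
    intro h
    rw [h, map_zero] at aG
    exact hm (by exact_mod_cast aG.symm)
  obtain ⟨g, hg⟩ : ∃ g, (fox v x G).coeff g ≠ 0 := by
    by_contra hc
    push Not at hc
    apply nG
    ext g
    exact hc g
  have hgB : g ∈ B := by
    by_contra h
    exact hg (sG.2 g h)
  have h3 := congrArg (fun z : MonoidAlgebra ℚ Γ => z.coeff ((lift v (of y ^ e))⁻¹ * g)) hz
  simp only [MonoidAlgebra.coeff_single_mul_apply, inv_inv, mul_inv_cancel_left, one_mul] at h3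
  have h4 : (lift v (of y ^ e))⁻¹ * g ∉ B := by
    intro h
    have h5 := mul_mem h (inv_mem hgB)
    rw [mul_inv_cancel_right] at h5
    rw [cE] at h5
    exact hbe (by simpa using inv_mem h5)
  rw [sH.2 _ h4] at h3
  exact hg h3

end Pool.Agent.H47U
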