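import Pool.Agent.Lib.H47U.A02
import Pool.Agent.Lib.H47U.A04
import Pool.Agent.Lib.H47U.DDefs

/-! CHUNK D07C (M): Fox derivative, other bottom letters. -/

set_option autoImplicit false

namespace Pool.Agent.H47U

open FreeGroup (of lift)

variable {Γ β : Type} [Group Γ]

theorem d07c_range (f : Multiplicative ℤ →* Γ) (y : MonoidAlgebra ℚ (Multiplicative ℤ)) {g : Γ}
    (h : (MonoidAlgebra.mapDomain f y).coeff g ≠ 0) : ∃ z, f z = g := by
  by_contra hc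
  refine h (Finsupp.mapDomain_notin_range _ _ ?_)
  intro hr
  exact hc hr

theorem d07c_val (a : β) (n : ℤ) (hn : 0 < n) (b s : Γ) (y : β × ℤ)
    (hy : y ∉ {p : β × ℤ | p.1 = a ∧ n ≤ |p.2|}) :
    vG a n b s y = (zpowersHom Γ b) (vZ a y) := by
  obtain ⟨x, i⟩ := y
  simp only [Set.mem_setOf_eq, not_and, not_le] at hy
  unfold vG vZ
  by_cases h : x = a ∧ n ∣ i
  · obtain ⟨rfl, hni⟩ := h
    have h0 : i = 0 := Int.eq_zero_of_abs_lt_dvd hni (hy rfl)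
    subst h0
    simp
  · rw [if_neg h]
    have h1 : ¬ ((x, i) = (a, 0)) := by
      intro h2
      rw [Prod.mk.injEq] at h2
      exact h ⟨h2.1, by rw [h2.2]; exact dvd_zero n⟩
    rw [if_neg h1, map_one]

theorem d07c_lift (a : β) (n : ℤ) (hn : 0 < n) (b s : Γ) {κ : FreeGroup (β × ℤ)}
    (h : κ ∈ Av {p : β × ℤ | p.1 = a ∧ n ≤ |p.2|}) :
    lift (vG a n b s) κ = (zpowersHom Γ b) (lift (vZ a) κ) := by
  rw [lift_congr_av h (d07c_val a n hn b s)]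
  have h2 : lift (fun y => (zpowersHom Γ b) (vZ a y)) = (zpowersHom Γ b).comp (lift (vZ a)) := by
    apply FreeGroup.ext_hom
    intro y
    simp
  rw [h2]
  rfl

theorem d07c_fox (a : β) (n : ℤ) (hn : 0 < n) (b s : Γ) {κ : FreeGroup (β × ℤ)} (q : β × ℤ)
    (h : κ ∈ Av {p : β × ℤ | p.1 = a ∧ n ≤ |p.2|}) :
    fox (vG a n b s) q κ = MonoidAlgebra.mapDomain (zpowersHom Γ b) (fox (vZ a) q κ) := by
  rw [fox_congr_av h q (d07c_val a n hn b s), fox_map]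

theorem d07c_zpow (v : β × ℤ → Γ) {x y : β × ℤ} (h : x ≠ y) (e : ℤ) :
    fox v x (of y ^ e) = 0 := by
  have h1 : (of y ^ e : FreeGroup (β × ℤ)) ∈ Av {x} :=
    Subgroup.zpow_mem _ (of_mem_Av (by simpa using h.symm)) e
  exact fox_av h1 rfl v

theorem d07c_main (a : β) (n : ℤ) (hn : 0 < n) (b s : Γ)
    (e m m' : ℤ)
    (hrel : (s⁻¹ * b * s) ^ (-e) * b ^ m * (s⁻¹ * b * s) ^ e = b ^ m')
    {κ₁ κ₂ : FreeGroup (β × ℤ)}
    (h₁ : κ₁ ∈ Av {p : β × ℤ | p.1 = a ∧ n ≤ |p.2|})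
    (h₂ : κ₂ ∈ Av {p : β × ℤ | p.1 = a ∧ n ≤ |p.2|}) {q : β × ℤ} (hq : q ≠ (a, 0))
    (hq' : q ≠ (a, n)) :
    fox (vG a n b s) q (rel a n e m m' κ₁ κ₂) =
      MonoidAlgebra.single ((s⁻¹ * b * s) ^ (-e)) 1 * MonoidAlgebra.mapDomain (zpowersHom Γ b)
        (MonoidAlgebra.single (lift (vZ a) κ₁)⁻¹ 1 *
          ((MonoidAlgebra.single (Multiplicative.ofAdd m) 1 - 1) * fox (vZ a) q κ₁)) +
      MonoidAlgebra.mapDomain (zpowersHom Γ b)
        ((MonoidAlgebra.single (Multiplicative.ofAdd m') 1 - 1) * fox (vZ a) q κ₂) := by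
  set v := vG a n b s with hv
  set b₁ := s⁻¹ * b * s with hb₁
  have hA : fox v q (of (a, n) ^ e) = 0 := d07c_zpow v hq' e
  have hx : fox v q (of (a, 0) ^ m) = 0 := d07c_zpow v hq m
  have hx' : fox v q (of (a, 0) ^ m') = 0 := d07c_zpow v hq m'
  have hv0 : v (a, 0) = b := by simp [hv, vG]
  have hvn : v (a, n) = b₁ := by
    simp only [hv, vG, hb₁, true_and, dvd_refl, if_true, Int.ediv_self hn.ne', zpow_one, zpow_neg]
  have k1 := d07c_lift a n hn b s h₁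
  have k2 := d07c_lift a n hn b s h₂
  have f1 := d07c_fox a n hn b s q h₁
  have f2 := d07c_fox a n hn b s q h₂
  rw [← hv] at k1 k2 f1 f2
  have hφ : ∀ k : ℤ, (zpowersHom Γ b) (Multiplicative.ofAdd k) = b ^ k := fun k => by simp
  have hsub : ∀ x y : MonoidAlgebra ℚ (Multiplicative ℤ),
      MonoidAlgebra.mapDomain (zpowersHom Γ b) (x - y) =
        MonoidAlgebra.mapDomain (zpowersHom Γ b) x - MonoidAlgebra.mapDomain (zpowersHom Γ b) y :=
    fun x y => (MonoidAlgebra.mapDomainRingHom ℚ (zpowersHom Γ b)).map_sub x y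
  have hone : MonoidAlgebra.mapDomain (zpowersHom Γ b)
      (1 : MonoidAlgebra ℚ (Multiplicative ℤ)) = 1 :=
    (MonoidAlgebra.mapDomainRingHom ℚ (zpowersHom Γ b)).map_one
  rw [MonoidAlgebra.mapDomain_mul, MonoidAlgebra.mapDomain_mul, MonoidAlgebra.mapDomain_mul,
    hsub, hsub, hone, MonoidAlgebra.mapDomain_single, MonoidAlgebra.mapDomain_single,
    MonoidAlgebra.mapDomain_single, map_inv, hφ, hφ, ← k1, ← f1, ← f2]
  have hc1 : lift v κ₁ = b ^ (Multiplicative.toAdd (lift (vZ a) κ₁)) := by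
    rw [k1, ← hφ]
    rfl
  have hc2 : lift v κ₂ = b ^ (Multiplicative.toAdd (lift (vZ a) κ₂)) := by
    rw [k2, ← hφ]
    rfl
  have hG : lift v (κ₁⁻¹ * of (a, 0) ^ m * κ₁) = b ^ m := by
    rw [map_mul, map_mul, map_inv, map_zpow, FreeGroup.lift_apply_of, hv0, hc1, ← zpow_neg, ← zpow_add,
      ← zpow_add]
    congr 1
    ring
  have hH : lift v (κ₂ * of (a, 0) ^ m' * κ₂⁻¹) = b ^ m' := by
    rw [map_mul, map_mul, map_inv, map_zpow, FreeGroup.lift_apply_of, hv0, hc2, ← zpow_neg, ← zpow_add,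
      ← zpow_add]
    congr 1
    ring
  have hAv : lift v (of (a, n) ^ e) = b₁ ^ e := by
    rw [map_zpow, FreeGroup.lift_apply_of, hvn]
  have hxv : lift v (of (a, 0) ^ m) = b ^ m := by
    rw [map_zpow, FreeGroup.lift_apply_of, hv0]
  have hxv' : lift v (of (a, 0) ^ m') = b ^ m' := by
    rw [map_zpow, FreeGroup.lift_apply_of, hv0]
  have dG : fox v q (κ₁⁻¹ * of (a, 0) ^ m * κ₁) =
      MonoidAlgebra.single (lift v κ₁)⁻¹ 1 * ((MonoidAlgebra.single (b ^ m) 1 - 1) * fox v q κ₁) := by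
    rw [fox_mul, fox_mul, fox_inv, hx, mul_zero, add_zero, map_mul, map_inv, hxv, sub_mul, one_mul,
      mul_sub, ← mul_assoc, MonoidAlgebra.single_mul_single, one_mul]
    abel
  have dH : fox v q (κ₂ * of (a, 0) ^ m' * κ₂⁻¹) =
      fox v q κ₂ - MonoidAlgebra.single (b ^ m') 1 * fox v q κ₂ := by
    have hcomm : lift v κ₂ * b ^ m' * (lift v κ₂)⁻¹ = b ^ m' := by
      rw [hc2, ← zpow_neg, ← zpow_add, ← zpow_add]
      congr 1
      ring
    rw [fox_mul, fox_mul, fox_inv, hx', mul_zero, add_zero, map_mul, hxv', mul_neg, ← mul_assoc,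
      MonoidAlgebra.single_mul_single, one_mul, hcomm]
    abel
  have hAGA : lift v ((of (a, n) ^ e)⁻¹ * (κ₁⁻¹ * of (a, 0) ^ m * κ₁) * of (a, n) ^ e) = b ^ m' := by
    rw [map_mul, map_mul _ _ (κ₁⁻¹ * of (a, 0) ^ m * κ₁), map_inv, hAv, hG, ← hrel, zpow_neg]
  have dAGA : fox v q ((of (a, n) ^ e)⁻¹ * (κ₁⁻¹ * of (a, 0) ^ m * κ₁) * of (a, n) ^ e) =
      MonoidAlgebra.single (b₁ ^ (-e)) 1 * fox v q (κ₁⁻¹ * of (a, 0) ^ m * κ₁) := by
    rw [fox_mul, fox_mul _ _ _ (κ₁⁻¹ * of (a, 0) ^ m * κ₁), fox_inv, hA, mul_zero, mul_zero,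
      neg_zero, zero_add, add_zero, map_inv, hAv, zpow_neg]
  rw [rel, fox_mul, fox_inv, hAGA, dAGA, dG, dH, hH, mul_neg, ← mul_assoc _ _ (fox v q κ₂ - _),
    MonoidAlgebra.single_mul_single, mul_inv_cancel, one_mul, ← MonoidAlgebra.one_def, one_mul,
    sub_mul (MonoidAlgebra.single (b ^ m') 1) 1 (fox v q κ₂), one_mul]
  congr 1
  abel

/-- Other bottom letters `q ≠ (a, 0), (a, n)`. PROOF. As before, now
`D (rel) = single (b₁ ^ (-e) b^(-σ₁)) * (b ^ m - 1) * D κ₁ + (b ^ m' - 1) * D κ₂`, the first summand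
is supported in `b₁ ^ (-e) B`, the second in `B`. `D κ_i = mapDomain (1 ↦ b) (fox (vZ a) q κ_i)`
(`fox_map` for `Multiplicative ℤ →* Γ`, `1 ↦ b`, which is injective since `b` has infinite order;
`vG` and `vZ` correspond on the letters of `κ_i`, `fox_congr_av`). If `fox (vZ a) q κ₁ ≠ 0`, the first
summand is non-zero (`ℚ[Γ]` has no zero divisors, `b ^ m ≠ 1`), and it cannot cancel with the second;
similarly for `κ₂`. -/
theorem fox_other (hΓ : UniqueProds Γ) (a : β) (n : ℤ) (hn : 0 < n) (b s : Γ) (hb : b ≠ 1)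
    (e m m' : ℤ) (hm : m ≠ 0) (hm' : m' ≠ 0)
    (hrel : (s⁻¹ * b * s) ^ (-e) * b ^ m * (s⁻¹ * b * s) ^ e = b ^ m')
    (hbe : (s⁻¹ * b * s) ^ e ∉ Subgroup.zpowers b) {κ₁ κ₂ : FreeGroup (β × ℤ)}
    (h₁ : κ₁ ∈ Av {p : β × ℤ | p.1 = a ∧ n ≤ |p.2|})
    (h₂ : κ₂ ∈ Av {p : β × ℤ | p.1 = a ∧ n ≤ |p.2|}) {q : β × ℤ} (hq : q ≠ (a, 0))
    (hq' : q ≠ (a, n)) (h : fox (vZ a) q κ₁ ≠ 0 ∨ fox (vZ a) q κ₂ ≠ 0) :
    fox (vG a n b s) q (rel a n e m m' κ₁ κ₂) ≠ 0 := by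
  rw [d07c_main a n hn b s e m m' hrel h₁ h₂ hq hq']
  set b₁ := s⁻¹ * b * s with hb₁
  obtain ⟨y₁, hy₁⟩ : ∃ y, y = MonoidAlgebra.single (lift (vZ a) κ₁)⁻¹ (1 : ℚ) *
    ((MonoidAlgebra.single (Multiplicative.ofAdd m) 1 - 1) * fox (vZ a) q κ₁) := ⟨_, rfl⟩
  obtain ⟨y₂, hy₂⟩ : ∃ y, y =
    (MonoidAlgebra.single (Multiplicative.ofAdd m') (1 : ℚ) - 1) * fox (vZ a) q κ₂ := ⟨_, rfl⟩
  rw [← hy₁, ← hy₂]
  intro hsum
  have hinj : Function.Injective (zpowersHom Γ b) := by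
    rw [injective_iff_map_eq_one]
    intro z hz
    by_contra hne
    have h1 : (zpowersHom Γ b) z = b ^ (Multiplicative.toAdd z) := rfl
    rw [h1] at hz
    exact zpow_ne_one_of_up hΓ hb (fun h0 => hne (by
      rw [← ofAdd_toAdd z, h0]
      rfl)) hz
  have hX : MonoidAlgebra.mapDomain (zpowersHom Γ b) y₂ = 0 := by
    ext g
    by_contra hg
    have hg' : (MonoidAlgebra.mapDomain (zpowersHom Γ b) y₂).coeff g ≠ 0 := hg
    obtain ⟨z, hz⟩ := d07c_range _ _ hg'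
    have h1 : (MonoidAlgebra.single (b₁ ^ (-e)) (1 : ℚ) *
        MonoidAlgebra.mapDomain (zpowersHom Γ b) y₁).coeff g +
        (MonoidAlgebra.mapDomain (zpowersHom Γ b) y₂).coeff g = 0 := by
      have := congrArg (fun t : MonoidAlgebra ℚ Γ => t.coeff g) hsum
      simpa using this
    rw [MonoidAlgebra.coeff_single_mul_apply, one_mul] at h1
    have h2 : (MonoidAlgebra.mapDomain (zpowersHom Γ b) y₁).coeff ((b₁ ^ (-e))⁻¹ * g) ≠ 0 := by
      intro h3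
      rw [h3, zero_add] at h1
      exact hg' h1
    obtain ⟨z', hz'⟩ := d07c_range _ _ h2
    apply hbe
    have e1 : b₁ ^ e = (zpowersHom Γ b) (z' * z⁻¹) := by
      rw [map_mul, map_inv, hz', hz, mul_inv_cancel_right, zpow_neg, inv_inv]
    rw [e1]
    exact ⟨Multiplicative.toAdd (z' * z⁻¹), rfl⟩
  rw [hX, add_zero] at hsum
  have hXinj : ∀ y : MonoidAlgebra ℚ (Multiplicative ℤ),
      MonoidAlgebra.mapDomain (zpowersHom Γ b) y = 0 → y = 0 := by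
    intro y hy
    apply MonoidAlgebra.mapDomain_injective (R := ℚ) hinj
    rw [hy, MonoidAlgebra.mapDomain_zero]
  have hy₂0 : y₂ = 0 := hXinj _ hX
  have hy₁0 : y₁ = 0 := by
    apply hXinj
    have h1 : MonoidAlgebra.single (b₁ ^ (-e))⁻¹ (1 : ℚ) *
        (MonoidAlgebra.single (b₁ ^ (-e)) (1 : ℚ) *
          MonoidAlgebra.mapDomain (zpowersHom Γ b) y₁) = 0 := by
      rw [hsum, mul_zero]
    rwa [← mul_assoc, MonoidAlgebra.single_mul_single, inv_mul_cancel, one_mul,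
      ← MonoidAlgebra.one_def, one_mul] at h1
  have hZ : UniqueProds (Multiplicative ℤ) := up_int
  have hne : ∀ k : ℤ, k ≠ 0 → (MonoidAlgebra.single (Multiplicative.ofAdd k) (1 : ℚ) - 1 :
      MonoidAlgebra ℚ (Multiplicative ℤ)) ≠ 0 := by
    intro k hk h0
    have h1 := congrArg (fun t : MonoidAlgebra ℚ (Multiplicative ℤ) =>
      t.coeff (Multiplicative.ofAdd k)) h0
    have h2 : (1 : Multiplicative ℤ) ≠ Multiplicative.ofAdd k := by
      intro h3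
      exact hk (Multiplicative.ofAdd.injective h3).symm
    simp [MonoidAlgebra.one_def, h2] at h1
  rcases h with h | h
  · rw [hy₁] at hy₁0
    have h1 : MonoidAlgebra.single (lift (vZ a) κ₁) (1 : ℚ) *
        (MonoidAlgebra.single (lift (vZ a) κ₁)⁻¹ (1 : ℚ) *
    ((MonoidAlgebra.single (Multiplicative.ofAdd m) 1 - 1) * fox (vZ a) q κ₁)) = 0 := by
      rw [hy₁0, mul_zero]
    rw [← mul_assoc, MonoidAlgebra.single_mul_single, mul_inv_cancel, one_mul,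
      ← MonoidAlgebra.one_def, one_mul] at h1
    exact (mul_ne_zero (hne m hm) h) h1
  · rw [hy₂] at hy₂0
    exact (mul_ne_zero (hne m' hm') h) hy₂0

end Pool.Agent.H47U
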