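import Pool.Agent.Lib.H47U.C14
import Pool.Agent.Lib.H47U.D05
import Pool.Agent.Lib.H47U.D06
import Pool.Agent.Lib.H47U.D06B
import Pool.Agent.Lib.H47U.D07
import Pool.Agent.Lib.H47U.D07B
import Pool.Agent.Lib.H47U.D07C

/-! The two-sided families. -/

set_option autoImplicit false

namespace Pool.Agent.H47U

open FreeGroup (of lift)

variable {β : Type}

/-- Residually (amenable with unique products). -/
def RAU (G : Type) [Group G] : Prop :=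
  ∀ g : G, g ≠ 1 → ∃ (T : Type) (_ : Group T) (f : G →* T), AU T ∧ f g ≠ 1

theorem RS.rau {Q : Type} [Group Q] {r : FreeGroup (β × ℤ)} {φ : OR r →* Q} (h : RS φ) (hQ : AU Q) :
    RAU (OR r) := by
  intro g hg
  obtain ⟨T, iT, f, p, hT, hp, -, hfg⟩ := h g hg
  exact ⟨T, iT, f, AU.of_ker hT p hp hQ, hfg⟩

theorem RAU.of_injective {G H : Type} [Group G] [Group H] (hH : RAU H) (f : G →* H)
    (hf : Function.Injective f) : RAU G := by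
  intro g hg
  obtain ⟨T, iT, f', hT, h⟩ := hH (f g) (fun h => hg (hf (h.trans (map_one f).symm)))
  exact ⟨T, iT, f'.comp f, hT, h⟩

theorem two_sided_rel (a : β) (n : ℤ) (hn : 0 < n) (e m m' : ℤ) (he : e ≠ 0) (hm : m ≠ 0)
    (hm' : m' ≠ 0) {κ₁ κ₂ : FreeGroup (β × ℤ)}
    (h₁ : κ₁ ∈ Av {p : β × ℤ | p.1 = a ∧ n ≤ |p.2|})
    (h₂ : κ₂ ∈ Av {p : β × ℤ | p.1 = a ∧ n ≤ |p.2|}) {y : β} {l : ℤ}
    (h₁' : κ₁ ∈ Av {p : β × ℤ | p.1 = y ∧ p.2 < l}) (h₂' : κ₂ ∈ Av {p : β × ℤ | p.1 = y ∧ p.2 < l})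
    (hl : y = a → l ≤ 0) (hD : ((y, l) : β × ℤ) = (a, 0) ∨ fox (vZ a) (y, l) κ₁ ≠ 0 ∨
      fox (vZ a) (y, l) κ₂ ≠ 0) :
    RAU (OR (rel a n e m m' κ₁ κ₂)) := by
  obtain ⟨Γ, iΓ, b, s, hΓ, hb, hrel, hbe⟩ := exists_Gamma e m m' he hm hm'
  obtain ⟨Q, iQ, φ, hQ, hfox, hlift⟩ := exists_Q hΓ a n hn b s (rel a n e m m' κ₁ κ₂)
    (vG_rel a n hn b s e m m' hrel h₁ h₂)
  have hsub : ∀ {κ : FreeGroup (β × ℤ)}, κ ∈ Av {p : β × ℤ | p.1 = a ∧ n ≤ |p.2|} →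
      κ ∈ Av {p : β × ℤ | p.1 ∈ ({a} : Set β) ∧ n ≤ p.2} := by
    intro κ hκ
    refine Av_anti ?_ hκ
    rintro ⟨p, i⟩ ⟨hp, hi⟩
    exact ⟨hp, le_trans hi (le_abs_self _)⟩
  have hof : ∀ i : ℤ, i < n → (of (a, i) : FreeGroup (β × ℤ)) ∈
      Av {p : β × ℤ | p.1 ∈ ({a} : Set β) ∧ n ≤ p.2} := by
    intro i hi
    apply of_mem_Av
    rintro ⟨-, h⟩
    simp only at h
    omega
  have hof' : ∀ i : ℤ, 0 ≤ i → (of (a, i) : FreeGroup (β × ℤ)) ∈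
      Av {p : β × ℤ | p.1 = y ∧ p.2 < l} := by
    intro i hi
    apply of_mem_Av
    rintro ⟨h, h'⟩
    simp only at h h'
    have := hl h.symm
    omega
  have hA : (of (a, n) : FreeGroup (β × ℤ)) ^ e ∈ Av {p : β × ℤ | p.1 ∈ ({a} : Set β) ∧ p.2 = n}ᶜ := by
    apply zpow_mem
    apply of_mem_Av
    rw [Set.mem_compl_iff, not_not]
    exact ⟨rfl, rfl⟩
  have hg : κ₁⁻¹ * of (a, 0) ^ m * κ₁ ∈ Av {p : β × ℤ | p.1 ∈ ({a} : Set β) ∧ n ≤ p.2} :=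
    mul_mem (mul_mem (inv_mem (hsub h₁)) (zpow_mem (hof 0 hn) m)) (hsub h₁)
  have hh : κ₂ * of (a, 0) ^ m' * κ₂⁻¹ ∈ Av {p : β × ℤ | p.1 ∈ ({a} : Set β) ∧ n ≤ p.2} :=
    mul_mem (mul_mem (hsub h₂) (zpow_mem (hof 0 hn) m')) (inv_mem (hsub h₂))
  have hr' : rel a n e m m' κ₁ κ₂ ∈ Av {p : β × ℤ | p.1 = y ∧ p.2 < l} := by
    have h1 := hof' 0 le_rfl
    have h2 := hof' n hn.le
    exact mul_mem (mul_mem (mul_mem (inv_mem (zpow_mem h2 e))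
      (mul_mem (mul_mem (inv_mem h₁') (zpow_mem h1 m)) h₁')) (zpow_mem h2 e))
      (inv_mem (mul_mem (mul_mem h₂' (zpow_mem h1 m')) (inv_mem h₂')))
  have hAn : lift (bar φ) (of (a, n) ^ e) ≠ 1 := by
    apply hlift
    rw [map_zpow, FreeGroup.lift_apply_of]
    have h1 : vG a n b s (a, n) = s⁻¹ * b * s := by
      rw [vG, if_pos ⟨rfl, dvd_rfl⟩]
      simp only
      rw [Int.ediv_self hn.ne']
      simp
    rw [h1]
    have h2 : s⁻¹ * b * s ≠ 1 := by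
      intro h
      apply hb
      have : b = s * (s⁻¹ * b * s) * s⁻¹ := by group
      rw [this, h]
      group
    exact zpow_ne_one_of_up hΓ.2 h2 he
  have hbot : fox (bar φ) (y, l) (rel a n e m m' κ₁ κ₂) ≠ 0 := by
    apply hfox
    rcases hD with hD | hD
    · rw [hD]
      exact fox_bottom a n hn b s e m m' hm hrel hbe h₁ h₂
    · by_cases h0 : ((y, l) : β × ℤ) = (a, 0)
      · rw [h0]
        exact fox_bottom a n hn b s e m m' hm hrel hbe h₁ h₂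
      · refine fox_other hΓ.2 a n hn b s hb e m m' hm hm' hrel hbe h₁ h₂ h0 ?_ hD
        intro h
        rw [Prod.mk.injEq] at h
        have := hl h.1
        omega
  exact (rs_conj hQ.2 (X := {a}) (k := fun _ => n) hA hg hh (x := a) (x' := y) (l := l) rfl hr' φ
    (Or.inr hAn) (hfox _ _ (fox_top hΓ.2 a n hn b s hb e m m' he hm h₁ h₂)) hbot).rau hQ

end Pool.Agent.H47U
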