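import Mathlib
import Pool.Agent.Lib.H63RA.Defs

/-!
# One quotient suffices: definitions (H47U, MP_ae91d5_al)

`fox v x w` is the Fox derivative of the word `w` with respect to the letter `x`, evaluated in the
rational group algebra of `Q` by means of `v`.
-/

set_option autoImplicit false

namespace Pool.Agent.H47U

open FreeGroup (of lift)

/-! ### Fox derivatives -/

/-- Pairs `(d, g)` with the product `(d, g) (d', g') = (d + g d', g g')`. -/
@[ext]
structure Aff (Q : Type) where
  /-- the element of the group algebra -/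
  d : MonoidAlgebra ℚ Q
  /-- the group element -/
  g : Q

noncomputable instance (Q : Type) [Group Q] : Mul (Aff Q) :=
  ⟨fun a b => ⟨a.d + MonoidAlgebra.single a.g 1 * b.d, a.g * b.g⟩⟩

noncomputable instance (Q : Type) [Group Q] : One (Aff Q) := ⟨⟨0, 1⟩⟩

noncomputable instance (Q : Type) [Group Q] : Inv (Aff Q) :=
  ⟨fun a => ⟨-(MonoidAlgebra.single a.g⁻¹ 1 * a.d), a.g⁻¹⟩⟩

variable {Q : Type} [Group Q]

@[simp] theorem Aff.mul_d (a b : Aff Q) :
    (a * b).d = a.d + MonoidAlgebra.single a.g 1 * b.d := rfl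
@[simp] theorem Aff.mul_g (a b : Aff Q) : (a * b).g = a.g * b.g := rfl
@[simp] theorem Aff.one_d : (1 : Aff Q).d = 0 := rfl
@[simp] theorem Aff.one_g : (1 : Aff Q).g = 1 := rfl
@[simp] theorem Aff.inv_d (a : Aff Q) :
    (a⁻¹).d = -(MonoidAlgebra.single a.g⁻¹ 1 * a.d) := rfl
@[simp] theorem Aff.inv_g (a : Aff Q) : (a⁻¹).g = a.g⁻¹ := rfl

noncomputable instance : Group (Aff Q) :=
  Group.ofLeftAxioms
    (fun a b c => by
      ext1
      · simp only [Aff.mul_d, Aff.mul_g, mul_add, add_assoc, ← mul_assoc,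
          MonoidAlgebra.single_mul_single, one_mul]
      · simp only [Aff.mul_g, mul_assoc])
    (fun a => by
      ext1
      · simp only [Aff.mul_d, Aff.one_d, Aff.one_g, zero_add, ← MonoidAlgebra.one_def, one_mul]
      · simp)
    (fun a => by
      ext1
      · simp
      · simp)

open Classical in
/-- The homomorphism `w ↦ (∂w/∂x, v(w))`. -/
noncomputable def foxHom {α : Type} (v : α → Q) (x : α) : FreeGroup α →* Aff Q :=
  FreeGroup.lift fun y => ⟨if y = x then 1 else 0, v y⟩

/-- The Fox derivative `∂w/∂x`, evaluated in `ℚ[Q]` by means of `v : α → Q`: the unique map with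
`∂y/∂x = δ_{xy}` and `∂(w w')/∂x = ∂w/∂x + v(w) ∂w'/∂x`. -/
noncomputable def fox {α : Type} (v : α → Q) (x : α) (w : FreeGroup α) : MonoidAlgebra ℚ Q :=
  (foxHom v x w).d

/-! ### Admissible overgroups -/

/-- Lifting of solutions of equations in one variable `x` with non-zero Fox derivative. -/
def LP {S Q : Type} [Group S] [Group Q] (π : S →* Q) : Prop :=
  ∀ (α : Type) (w : FreeGroup α) (x : α) (v : α → S) (b : α → Q),
    (∀ y, y ≠ x → π (v y) = b y) → FreeGroup.lift b w = 1 → fox b x w ≠ 0 →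
    ∃ v' : α → S, (∀ y, π (v' y) = b y) ∧ (∀ y, y ≠ x → v' y = v y) ∧ FreeGroup.lift v' w = 1

/-- Admissible overgroups of `Q`. -/
structure Adm {S Q : Type} [Group S] [Group Q] (π : S →* Q) : Prop where
  up : UniqueProds S
  upQ : UniqueProds Q
  surj : Function.Surjective π
  solv : Group.IsSolvable π.ker
  lp : LP π

/-- The non-trivial elements of `P` are detected by homomorphisms over `ρ` to admissible
overgroups of `Q`. -/
def Det {P Q : Type} [Group P] [Group Q] (ρ : P →* Q) : Prop :=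
  ∀ p : P, p ≠ 1 → ∃ (S : Type) (_ : Group S) (π : S →* Q) (f : P →* S),
    Adm π ∧ π.comp f = ρ ∧ f p ≠ 1

/-- The (unrestricted) wreath-like product `(S → V) ⋊ S`, `(g • m) x = m (g⁻¹ x)`. -/
abbrev WG (S V : Type) [Group S] [AddCommGroup V] : Type :=
  (S → Multiplicative V) ⋊[mulAutArrow] S

/-! ### Words -/

/-- The words not involving the letters in `T`. -/
def Av {α : Type} (T : Set α) : Subgroup (FreeGroup α) := Subgroup.closure (FreeGroup.of '' Tᶜ)

/-- The shift of the second index. -/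
def sh {β : Type} (j : ℤ) : FreeGroup (β × ℤ) →* FreeGroup (β × ℤ) :=
  FreeGroup.map fun p => (p.1, p.2 + j)

/-- The letter `(x, i)` stands for `t⁻ⁱ x tⁱ`. -/
def kap {β : Type} : FreeGroup (β × ℤ) →* FreeGroup (Option β) :=
  FreeGroup.lift fun p => (of none) ^ (-p.2) * of (some p.1) * (of none) ^ p.2

/-- The one-relator group with the generators `x ∈ β` and `t`, and the relator `kap r`. -/
abbrev OR {β : Type} (r : FreeGroup (β × ℤ)) : Type :=
  PresentedGroup ({kap r} : Set (FreeGroup (Option β)))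

/-- The images of the letters `(x, i)` under a homomorphism `φ` of the one-relator group. -/
def bar {β : Type} {r : FreeGroup (β × ℤ)} (φ : OR r →* Q) : β × ℤ → Q :=
  fun p => φ (PresentedGroup.mk _ (kap (FreeGroup.of p)))

/-- The window relators `sh j r`, `0 ≤ j < m`. -/
def win {β : Type} (r : FreeGroup (β × ℤ)) (m : ℕ) : Set (FreeGroup (β × ℤ)) :=
  (fun j : ℕ => sh (j : ℤ) r) '' Set.Iio m

/-- `Det` for the group presented by the letters `α` and the relators `R`, over the tuple `b`. -/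
def DetP {α : Type} (R : Set (FreeGroup α)) (b : α → Q) : Prop :=
  (∀ r ∈ R, FreeGroup.lift b r = 1) ∧
  ∀ w : FreeGroup α, w ∉ Subgroup.normalClosure R →
    ∃ (S : Type) (_ : Group S) (π : S →* Q) (v : α → S), Adm π ∧ (∀ y, π (v y) = b y) ∧
      (∀ r ∈ R, FreeGroup.lift v r = 1) ∧ FreeGroup.lift v w ≠ 1

/-- `b` is compatible with the shift: `b (y, i + j) = τ⁻ʲ b (y, i) τʲ`. -/
def Eqv {β : Type} (τ : Q) (b : β × ℤ → Q) : Prop :=
  ∀ (y : β) (i j : ℤ), b (y, i + j) = τ ^ (-j) * b (y, i) * τ ^ j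

end Pool.Agent.H47U
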