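import Pool.Agent.Lib.H47U.Defs

/-! Definitions for the truncated solutions. -/

set_option autoImplicit false

namespace Pool.Agent.H47U

open FreeGroup (of lift)

variable {Γ β : Type} [Group Γ]

open Classical in
/-- The truncated base solution with values in `Γⁿ`: the letter `(a, c + n i)` has the coordinate
`s⁻ⁱ b sⁱ` at `c` (if `c + n i ≥ 0`), all other coordinates are `1`; the other letters are `1`. -/
noncomputable def vP (a : β) (n : ℕ) (b s : Γ) : β × ℤ → (Fin n → Γ) :=
  fun p c => if p.1 = a ∧ 0 ≤ p.2 ∧ (n : ℤ) ∣ p.2 - (c : ℕ) then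
    s ^ (-((p.2 - (c : ℕ)) / n)) * b * s ^ ((p.2 - (c : ℕ)) / n) else 1

/-- Sequences in `Γⁿ` which are trivial near `-∞` and compatible with the shift by `n` near `+∞`. -/
def SeqG (n : ℕ) (s : Γ) : Subgroup (ℤ → (Fin n → Γ)) where
  carrier := {g | ∃ J : ℤ, (∀ j, J ≤ j → g (j + n) = fun c => s⁻¹ * g j c * s) ∧
    ∀ j, j ≤ -J → g j = 1}
  one_mem' := ⟨0, fun j _ => by funext c; simp, fun j _ => rfl⟩
  mul_mem' := by
    rintro g h ⟨J, hJ, hJ'⟩ ⟨K, hK, hK'⟩
    refine ⟨max J K, fun j hj => ?_, fun j hj => ?_⟩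
    · funext c
      rw [Pi.mul_apply, hJ j (le_trans (le_max_left _ _) hj),
        hK j (le_trans (le_max_right _ _) hj)]
      simp only [Pi.mul_apply]
      group
    · have h1 := le_max_left J K
      have h2 := le_max_right J K
      rw [Pi.mul_apply, hJ' j (by omega), hK' j (by omega), mul_one]
  inv_mem' := by
    rintro g ⟨J, hJ, hJ'⟩
    refine ⟨J, fun j hj => ?_, fun j hj => ?_⟩
    · funext c
      rw [Pi.inv_apply, hJ j hj]
      simp only [Pi.inv_apply]
      group
    · rw [Pi.inv_apply, hJ' j hj, inv_one]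

open Classical in
/-- The endomorphism of the free group killing the letters `(a, i)`, `i < 0`. -/
noncomputable def kneg (a : β) : FreeGroup (β × ℤ) →* FreeGroup (β × ℤ) :=
  lift fun p => if p.1 = a ∧ p.2 < 0 then 1 else of p

end Pool.Agent.H47U
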