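import Pool.Agent.Lib.H47U.C05
import Pool.Agent.Lib.H47U.C15
import Pool.Agent.Lib.H47U.EDefs

/-! CHUNK E01 (M, three lemmas): the truncated base solution. -/

set_option autoImplicit false

namespace Pool.Agent.H47U

open FreeGroup (of lift)

variable {Γ β : Type} [Group Γ]

/-- PROOF. For `i + j ≥ 0` the coordinates of `vP (a, i + j + n)` are those of `vP (a, i + j)`
conjugated by `s` (`(x + n - c) / n = (x - c) / n + 1`); for `i + j < 0` everything is `1`; for `y ≠ a`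
everything is `1`. -/
theorem vP_seq (a : β) (n : ℕ) (hn : 0 < n) (b s : Γ) (p : β × ℤ) :
    (fun j : ℤ => vP a n b s (p.1, p.2 + j)) ∈ SeqG n s := by
  have hn' : (n : ℤ) ≠ 0 := by exact_mod_cast hn.ne'
  refine ⟨|p.2| + 1, fun j hj => ?_, fun j hj => ?_⟩
  · have h0 : 0 ≤ p.2 + j := by
      have := neg_abs_le p.2
      omega
    funext c
    have hx : p.2 + (j + (n : ℤ)) - ((c : ℕ) : ℤ) = (p.2 + j - ((c : ℕ) : ℤ)) + 1 * (n : ℤ) := by
      ring
    have hd : ((n : ℤ) ∣ p.2 + (j + (n : ℤ)) - ((c : ℕ) : ℤ)) ↔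
        ((n : ℤ) ∣ p.2 + j - ((c : ℕ) : ℤ)) := by
      rw [hx]
      exact dvd_add_left (Dvd.intro_left 1 rfl)
    have hq : (p.2 + (j + (n : ℤ)) - ((c : ℕ) : ℤ)) / (n : ℤ) =
        (p.2 + j - ((c : ℕ) : ℤ)) / (n : ℤ) + 1 := by
      rw [hx, Int.add_mul_ediv_right _ _ hn']
    have h0' : 0 ≤ p.2 + (j + (n : ℤ)) := by omega
    unfold vP
    dsimp only
    by_cases hc : p.1 = a ∧ 0 ≤ p.2 + j ∧ (n : ℤ) ∣ p.2 + j - ((c : ℕ) : ℤ)
    · rw [if_pos ⟨hc.1, h0', hd.2 hc.2.2⟩, if_pos hc, hq]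
      group
    · rw [if_neg (fun h => hc ⟨h.1, h0, hd.1 h.2.2⟩), if_neg hc]
      group
  · have h0 : p.2 + j < 0 := by
      have := le_abs_self p.2
      omega
    funext c
    unfold vP
    dsimp only
    rw [if_neg (fun h => absurd h.2.1 (not_le.2 h0))]
    rfl

theorem SeqG_shift {n : ℕ} {s : Γ} {g : ℤ → (Fin n → Γ)} (hg : g ∈ SeqG n s) (k : ℤ) :
    (fun j : ℤ => g (j + k)) ∈ SeqG n s := by
  obtain ⟨J, hJ, hJ'⟩ := hg
  have h1 := neg_abs_le k
  have h2 := le_abs_self k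
  refine ⟨J + |k|, fun j hj => ?_, fun j hj => ?_⟩
  · have h3 := hJ (j + k) (by omega)
    have h4 : j + (n : ℤ) + k = j + k + (n : ℤ) := by ring
    simp only [h4]
    exact h3
  · exact hJ' (j + k) (by omega)

/-- The value of a word with letters `(a, i)` only for `|i| < n`, in one coordinate. PROOF. Let
`j ≥ 0`. In the coordinate `c` with `n ∣ j - c` the letters `(a, i + j)`, `0 < |i| < n`, are `1` and
`(a, j)` is `b_q = s^(-q) b s^q`, `q = (j - c) / n`; so the value of `sh j w` is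
`b_q ^ (exponent sum of (a, 0) in w)` (`Subgroup.closure_induction` for `w ∈ Av _`). -/
theorem vP_word (a : β) (n : ℕ) (hn : 0 < n) (b s : Γ) {w : FreeGroup (β × ℤ)}
    (hw : w ∈ Av {p : β × ℤ | p.1 = a ∧ (n : ℤ) ≤ |p.2|}) (j : ℤ) (hj : 0 ≤ j) (c : Fin n)
    (hc : (n : ℤ) ∣ j - ((c : ℕ) : ℤ)) :
    lift (vP a n b s) (sh j w) c = s ^ (-((j - ((c : ℕ) : ℤ)) / n)) *
      b ^ (Multiplicative.toAdd (expo (a, (0 : ℤ)) w)) * s ^ ((j - ((c : ℕ) : ℤ)) / n) := by
  classical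
  let f₁ : FreeGroup (β × ℤ) →* Γ :=
    (Pi.evalMonoidHom (fun _ : Fin n => Γ) c).comp ((lift (vP a n b s)).comp (sh j))
  let f₂ : FreeGroup (β × ℤ) →* Γ :=
    ((MulAut.conj (s ^ (-((j - ((c : ℕ) : ℤ)) / n)))).toMonoidHom.comp
      (zpowersHom Γ b)).comp (expo (a, (0 : ℤ)))
  have hf₂ : ∀ w, f₂ w = s ^ (-((j - ((c : ℕ) : ℤ)) / n)) *
      b ^ (Multiplicative.toAdd (expo (a, (0 : ℤ)) w)) * s ^ ((j - ((c : ℕ) : ℤ)) / n) := by
    intro w
    simp only [f₂, MonoidHom.comp_apply, MulEquiv.coe_toMonoidHom, MulAut.conj_apply,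
      zpowersHom_apply, zpow_neg, inv_inv]
  have key : Set.EqOn f₁ f₂ (Subgroup.closure (of '' {p : β × ℤ | p.1 = a ∧ (n : ℤ) ≤ |p.2|}ᶜ)) := by
    refine MonoidHom.eqOn_closure ?_
    rintro _ ⟨p, hp, rfl⟩
    rw [hf₂]
    have h1 : f₁ (of p) = vP a n b s (p.1, p.2 + j) c := by
      simp only [f₁, MonoidHom.comp_apply, sh, FreeGroup.map.of, FreeGroup.lift_apply_of,
        Pi.evalMonoidHom_apply]
    rw [h1, expo, FreeGroup.lift_apply_of]
    unfold vP
    dsimp only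
    by_cases hpa : p = (a, 0)
    · subst hpa
      rw [if_pos rfl, if_pos]
      · simp
      · refine ⟨rfl, ?_, ?_⟩
        · simpa using hj
        · simpa using hc
    · rw [if_neg hpa, if_neg]
      · simp
      · rintro ⟨ha, h0, hd⟩
        have hlt : |p.2| < (n : ℤ) := by
          by_contra hcon
          exact hp ⟨ha, not_lt.1 hcon⟩
        have hd' : (n : ℤ) ∣ p.2 := by
          have h3 := dvd_sub hd hc
          have h4 : p.2 + j - ((c : ℕ) : ℤ) - (j - ((c : ℕ) : ℤ)) = p.2 := by ring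
          rwa [h4] at h3
        have h5 : p.2 = 0 := Int.eq_zero_of_abs_lt_dvd hd' hlt
        exact hpa (Prod.ext ha h5)
  have := key hw
  rw [hf₂] at this
  exact this

end Pool.Agent.H47U
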