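import Pool.Agent.Lib.H47U.A02
import Pool.Agent.Lib.H47U.A04

/-! CHUNK E02 (S/M, four small lemmas): algebra of Fox derivatives of `A⁻¹ g A h⁻¹`. -/

set_option autoImplicit false

namespace Pool.Agent.H47U

open FreeGroup (of lift)

variable {Q S Γ α : Type} [Group Q] [Group S] [Group Γ]

theorem single_sub_one_ne_zero {g : Q} (hg : g ≠ 1) :
    (MonoidAlgebra.single g (1 : ℚ) - 1 : MonoidAlgebra ℚ Q) ≠ 0 := by
  classical
  intro h
  have h1 : (MonoidAlgebra.single g (1 : ℚ) : MonoidAlgebra ℚ Q) = 1 := sub_eq_zero.mp h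
  rw [MonoidAlgebra.one_def] at h1
  have h2 := congrArg (fun x : MonoidAlgebra ℚ Q => x.coeff g) h1
  simp only [MonoidAlgebra.coeff_single, Finsupp.single_eq_same] at h2
  rw [Finsupp.single_eq_of_ne hg] at h2
  exact one_ne_zero h2

theorem e02_coeff_mul (g : Q) (x : MonoidAlgebra ℚ Q) (z : Q) :
    (MonoidAlgebra.single g (1 : ℚ) * x).coeff z = x.coeff (g⁻¹ * z) := by
  rw [MonoidAlgebra.coeff_single_mul_apply, one_mul]

theorem fox_conj_top {b : α → Q} {x : α} {A g h : FreeGroup α} (hg : fox b x g = 0)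
    (hh : fox b x h = 0) : fox b x (A⁻¹ * g * A * h⁻¹) =
      MonoidAlgebra.single (lift b A)⁻¹ 1 * ((MonoidAlgebra.single (lift b g) 1 - 1) * fox b x A) := by
  rw [fox_mul, fox_mul, fox_mul, fox_inv, fox_inv, hg, hh, mul_zero, mul_zero, neg_zero, mul_zero,
    add_zero, add_zero, map_mul, map_inv, sub_mul, one_mul, mul_sub, ← mul_assoc,
    MonoidAlgebra.single_mul_single, one_mul]
  abel

/-- (`lift b (A⁻¹ g A) = lift b h` by `hr`.) -/
theorem fox_conj_bot {b : α → Q} {x : α} {A g h : FreeGroup α} (hA : fox b x A = 0)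
    (hr : lift b (A⁻¹ * g * A * h⁻¹) = 1) : fox b x (A⁻¹ * g * A * h⁻¹) =
      MonoidAlgebra.single (lift b A)⁻¹ 1 * fox b x g - fox b x h := by
  have h1 : lift b (A⁻¹ * g * A) * (lift b h)⁻¹ = 1 := by
    rw [← map_inv, ← map_mul]
    exact hr
  rw [fox_mul, fox_inv b x h, mul_neg, ← mul_assoc, MonoidAlgebra.single_mul_single, h1, one_mul,
    ← MonoidAlgebra.one_def, one_mul, fox_mul, fox_mul, fox_inv, hA, mul_zero, neg_zero, zero_add,
    mul_zero, add_zero, map_inv, sub_eq_add_neg]

/-- Fox derivatives are supported on prefixes. PROOF. `Subgroup.closure_induction` for the statement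
`q (lift v w) ∈ K ∧ ∀ z, (fox v x w).coeff z ≠ 0 → q z ∈ K` (products: the support of
`single g 1 * δ` is `g` times the support of `δ`). -/
theorem fox_supp {D : Set α} {w : FreeGroup α} (hw : w ∈ Av D) (x : α) (v : α → S) (q : S →* Γ)
    (K : Subgroup Γ) (h : ∀ p, p ∉ D → q (v p) ∈ K) (z : S) (hz : (fox v x w).coeff z ≠ 0) :
    q z ∈ K := by
  classical
  have key : q (lift v w) ∈ K ∧ ∀ z, (fox v x w).coeff z ≠ 0 → q z ∈ K := by
    unfold Av at hw
    clear hz
    induction hw using Subgroup.closure_induction with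
    | mem u hu =>
      obtain ⟨y, hy, rfl⟩ := hu
      refine ⟨by rw [FreeGroup.lift_apply_of]; exact h y hy, fun z hz => ?_⟩
      by_cases hyx : y = x
      · subst hyx
        rw [fox_of_self, MonoidAlgebra.one_def, MonoidAlgebra.coeff_single] at hz
        have h1 : z = 1 := by
          by_contra hne
          exact hz (Finsupp.single_eq_of_ne hne)
        rw [h1, map_one]
        exact one_mem _
      · rw [fox_of_ne _ hyx] at hz
        simp at hz
    | one =>
      refine ⟨by rw [map_one, map_one]; exact one_mem _, fun z hz => ?_⟩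
      rw [fox_one] at hz
      simp at hz
    | mul a b _ _ ha hb =>
      refine ⟨by rw [map_mul, map_mul]; exact mul_mem ha.1 hb.1, fun z hz => ?_⟩
      rw [fox_mul, MonoidAlgebra.coeff_add, Finsupp.add_apply, e02_coeff_mul] at hz
      by_cases h1 : (fox v x a).coeff z = 0
      · rw [h1, zero_add] at hz
        have h2 := hb.2 _ hz
        rw [map_mul, map_inv] at h2
        have h3 := mul_mem ha.1 h2
        rwa [mul_inv_cancel_left] at h3
      · exact ha.2 z h1
    | inv a _ ha =>
      refine ⟨by rw [map_inv, map_inv]; exact inv_mem ha.1, fun z hz => ?_⟩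
      rw [fox_inv, MonoidAlgebra.coeff_neg, Finsupp.neg_apply, neg_ne_zero, e02_coeff_mul,
        inv_inv] at hz
      have h2 := ha.2 _ hz
      rw [map_mul] at h2
      have h3 := mul_mem (inv_mem ha.1) h2
      rwa [inv_mul_cancel_left] at h3
  exact key.2 z hz

/-- PROOF. `fox_conj_bot`. If `fox v x g ≠ 0`, let `z` be in its support; the coefficient of
`A⁻¹ z` (with `A = lift v A`) in `single A⁻¹ 1 * fox v x g` is non-zero, and in `fox v x h` it is `0`,
since otherwise `q (A⁻¹ z) ∈ K`, `q z ∈ K` (`fox_supp`) and so `q A ∈ K`. If `fox v x g = 0`, then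
`fox v x h ≠ 0`. -/
theorem fox_conj_ne {D : Set α} {A g h : FreeGroup α} (hg : g ∈ Av D) (hh : h ∈ Av D) (x : α)
    (v : α → S) (q : S →* Γ) (K : Subgroup Γ) (hD : ∀ p, p ∉ D → q (v p) ∈ K)
    (hA : fox v x A = 0) (hr : lift v (A⁻¹ * g * A * h⁻¹) = 1) (hAK : q (lift v A) ∉ K)
    (h0 : fox v x g ≠ 0 ∨ fox v x h ≠ 0) : fox v x (A⁻¹ * g * A * h⁻¹) ≠ 0 := by
  classical
  rw [fox_conj_bot hA hr]
  intro he
  have he' : MonoidAlgebra.single (lift v A)⁻¹ 1 * fox v x g = fox v x h := sub_eq_zero.mp he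
  by_cases hg0 : fox v x g = 0
  · rw [hg0, mul_zero] at he'
    rcases h0 with h1 | h1
    · exact h1 hg0
    · exact h1 he'.symm
  · obtain ⟨z, hz⟩ : ∃ z, (fox v x g).coeff z ≠ 0 := by
      by_contra hn
      push Not at hn
      apply hg0
      apply MonoidAlgebra.ext
      ext z
      rw [hn z]
      rfl
    have h1 : (fox v x h).coeff ((lift v A)⁻¹ * z) ≠ 0 := by
      rw [← he', e02_coeff_mul, inv_inv, mul_inv_cancel_left]
      exact hz
    have h2 := fox_supp hh x v q K hD _ h1
    have h3 := fox_supp hg x v q K hD _ hz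
    rw [map_mul, map_inv] at h2
    have h4 := mul_mem h3 (inv_mem h2)
    apply hAK
    rwa [mul_inv_rev, inv_inv, mul_inv_cancel_left] at h4

end Pool.Agent.H47U
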