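import Pool.Agent.Lib.H47U.E01
import Pool.Agent.Lib.H47U.E02

/-! CHUNK E03 (M, four lemmas): the relators in the truncated base solution. -/

set_option autoImplicit false

namespace Pool.Agent.H47U

open FreeGroup (of lift)

variable {Γ β : Type} [Group Γ]

/-- The hypotheses on the relator `A⁻¹ g A h⁻¹`. -/
structure RelHyp (a : β) (n : ℕ) (X : Set β) (k : β → ℤ) (A g h : FreeGroup (β × ℤ)) : Prop where
  hn : 0 < n
  ha : a ∈ X
  hk : k a = n
  hA : A ∈ Av {p : β × ℤ | p.1 ∈ X ∧ p.2 = k p.1}ᶜ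
  hg : g ∈ Av {p : β × ℤ | p.1 ∈ X ∧ k p.1 ≤ p.2}
  hh : h ∈ Av {p : β × ℤ | p.1 ∈ X ∧ k p.1 ≤ p.2}
  hg1 : g ∈ Av {p : β × ℤ | p.1 = a ∧ (n : ℤ) ≤ |p.2|}
  hh1 : h ∈ Av {p : β × ℤ | p.1 = a ∧ (n : ℤ) ≤ |p.2|}
  hg0 : g ∈ Subgroup.normalClosure {(of (a, (0 : ℤ)) : FreeGroup (β × ℤ))}
  hh0 : h ∈ Subgroup.normalClosure {(of (a, (0 : ℤ)) : FreeGroup (β × ℤ))}
  he : expo (a, (n : ℤ)) A ≠ 1
  hm : expo (a, (0 : ℤ)) g ≠ 1
  hm' : expo (a, (0 : ℤ)) h ≠ 1

/-- If the letter `(a, j)` has the value `1`, so have `sh j g` and `sh j h`. PROOF. `g` is in the normal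
closure of `of (a, 0)`, the kernel of `lift v ∘ sh j` is normal and contains `of (a, 0)`. -/
theorem lift_sh_ncl {G : Type} [Group G] {a : β} {w : FreeGroup (β × ℤ)}
    (hw : w ∈ Subgroup.normalClosure {(of (a, (0 : ℤ)) : FreeGroup (β × ℤ))}) (v : β × ℤ → G)
    (j : ℤ) (hv : v (a, j) = 1) : lift v (sh j w) = 1 := by
  have h : Subgroup.normalClosure {(of (a, (0 : ℤ)) : FreeGroup (β × ℤ))} ≤
      ((lift v).comp (sh j)).ker := by
    apply Subgroup.normalClosure_le_normal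
    intro x hx
    rw [Set.mem_singleton_iff] at hx
    subst hx
    change lift v (sh j (of (a, (0 : ℤ)))) = 1
    rw [sh, FreeGroup.map.of, FreeGroup.lift_apply_of, zero_add, hv]
  exact h hw

theorem e03_coord {n : ℕ} (v : β × ℤ → (Fin n → Γ)) (c : Fin n) (w : FreeGroup (β × ℤ)) :
    lift v w c = lift (fun p => v p c) w := by
  have h : (Pi.evalMonoidHom (fun _ : Fin n => Γ) c).comp (lift v) = lift (fun p => v p c) := by
    apply FreeGroup.ext_hom
    intro p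
    simp
  exact DFunLike.congr_fun h w

theorem e03_expo_sh (x : β) (i j : ℤ) (w : FreeGroup (β × ℤ)) :
    expo (x, i + j) (sh j w) = expo (x, i) w := by
  classical
  have h : (expo (x, i + j)).comp (sh j) = expo (x, i) := by
    apply FreeGroup.ext_hom
    intro p
    have e : ((p.1, p.2 + j) = (x, i + j)) ↔ p = (x, i) := by
      obtain ⟨p1, p2⟩ := p
      simp
    simp only [MonoidHom.comp_apply, sh, FreeGroup.map.of, expo, FreeGroup.lift_apply_of]
    by_cases h : p = (x, i)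
    · rw [if_pos (e.2 h), if_pos h]
    · rw [if_neg (fun h' => h (e.1 h')), if_neg h]
  exact DFunLike.congr_fun h w

theorem e03_mul (s B : Γ) (q x y : ℤ) :
    s ^ (-q) * B ^ x * s ^ q * (s ^ (-q) * B ^ y * s ^ q) = s ^ (-q) * B ^ (x + y) * s ^ q := by
  rw [zpow_add]
  group

theorem e03_inv (s B : Γ) (q x : ℤ) :
    (s ^ (-q) * B ^ x * s ^ q)⁻¹ = s ^ (-q) * B ^ (-x) * s ^ q := by
  group

/-- PROOF. As `vP_word`: the letters of `sh j A` are `(y, k y + j)`, `y ∈ X`; those with `y ≠ a` have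
value `1`; `(a, n + j)` has at `c` the value `s^(-(q+1)) b s^(q+1)`, `q = (j - c) / n`. -/
theorem vP_A {a : β} {n : ℕ} {X : Set β} {k : β → ℤ} {A g h : FreeGroup (β × ℤ)}
    (H : RelHyp a n X k A g h) (b s : Γ) (j : ℤ) (hj : 0 ≤ j) (c : Fin n)
    (hc : (n : ℤ) ∣ j - ((c : ℕ) : ℤ)) :
    lift (vP a n b s) (sh j A) c = s ^ (-((j - ((c : ℕ) : ℤ)) / n)) *
      (s⁻¹ * b * s) ^ (Multiplicative.toAdd (expo (a, (n : ℤ)) A)) *
        s ^ ((j - ((c : ℕ) : ℤ)) / n) := by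
  classical
  have hn0 : (n : ℤ) ≠ 0 := by have := H.hn; omega
  have key : ∀ w ∈ Av {p : β × ℤ | p.1 ∈ X ∧ p.2 = k p.1}ᶜ,
      lift (vP a n b s) (sh j w) c = s ^ (-((j - ((c : ℕ) : ℤ)) / n)) *
      (s⁻¹ * b * s) ^ (Multiplicative.toAdd (expo (a, (n : ℤ)) w)) *
        s ^ ((j - ((c : ℕ) : ℤ)) / n) := by
    intro w hw
    unfold Av at hw
    induction hw using Subgroup.closure_induction with
    | mem x hx =>
      obtain ⟨p, hp, rfl⟩ := hx
      rw [compl_compl] at hp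
      obtain ⟨hp1, hp2⟩ := hp
      rw [sh, FreeGroup.map.of, FreeGroup.lift_apply_of, expo, FreeGroup.lift_apply_of]
      by_cases h : p.1 = a
      · have h2 : p.2 = n := by rw [hp2, h, H.hk]
        have h3 : p = (a, (n : ℤ)) := Prod.ext h h2
        subst h3
        have h4 : (n : ℤ) ∣ (n : ℤ) + j - ((c : ℕ) : ℤ) := by
          have : (n : ℤ) + j - ((c : ℕ) : ℤ) = n + (j - ((c : ℕ) : ℤ)) := by ring
          rw [this]
          exact dvd_add dvd_rfl hc
        have h5 : ((n : ℤ) + j - ((c : ℕ) : ℤ)) / n = (j - ((c : ℕ) : ℤ)) / n + 1 := by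
          have : (n : ℤ) + j - ((c : ℕ) : ℤ) = (j - ((c : ℕ) : ℤ)) + n := by ring
          rw [this, Int.add_ediv_of_dvd_right dvd_rfl, Int.ediv_self hn0]
        have h6 : (0 : ℤ) ≤ (n : ℤ) + j := by omega
        rw [if_pos rfl]
        simp only [vP, h6, h4, and_self, if_true, h5]
        rw [toAdd_ofAdd, zpow_one]
        group
      · rw [if_neg (fun h' => h (by rw [h']))]
        simp only [vP, h, false_and, if_false]
        simp
    | one => simp
    | mul x y _ _ hx hy =>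
      rw [map_mul, map_mul, Pi.mul_apply, hx, hy, map_mul, toAdd_mul, e03_mul]
    | inv x _ hx =>
      rw [map_inv, map_inv, Pi.inv_apply, hx, map_inv, toAdd_inv, e03_inv]
  exact key A H.hA

/-- PROOF. By coordinates `c`. If `j < 0` or `¬ n ∣ j - c`, the letter `(a, j)` has value `1` at `c`, so
`sh j g`, `sh j h` have value `1` (`lift_sh_ncl` for the tuple `fun p => vP a n b s p c`; compare
`lift (vP …) w c = lift (fun p => vP … p c) w`) and the relator is `1`. Otherwise `vP_word` (for `g`, `h`),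
`vP_A` and `hrel`. -/
theorem vP_rel {a : β} {n : ℕ} {X : Set β} {k : β → ℤ} {A g h : FreeGroup (β × ℤ)}
    (H : RelHyp a n X k A g h) (b s : Γ)
    (hrel : (s⁻¹ * b * s) ^ (-(Multiplicative.toAdd (expo (a, (n : ℤ)) A))) *
      b ^ (Multiplicative.toAdd (expo (a, (0 : ℤ)) g)) *
      (s⁻¹ * b * s) ^ (Multiplicative.toAdd (expo (a, (n : ℤ)) A)) =
      b ^ (Multiplicative.toAdd (expo (a, (0 : ℤ)) h))) (j : ℤ) :
    lift (vP a n b s) (sh j (A⁻¹ * g * A * h⁻¹)) = 1 := by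
  classical
  funext c
  have hexp : lift (vP a n b s) (sh j (A⁻¹ * g * A * h⁻¹)) c =
      (lift (vP a n b s) (sh j A) c)⁻¹ * lift (vP a n b s) (sh j g) c *
        lift (vP a n b s) (sh j A) c * (lift (vP a n b s) (sh j h) c)⁻¹ := by
    simp only [map_mul, map_inv, Pi.mul_apply, Pi.inv_apply]
  rw [hexp, Pi.one_apply]
  by_cases hj : 0 ≤ j ∧ (n : ℤ) ∣ j - ((c : ℕ) : ℤ)
  · rw [vP_word a n H.hn b s H.hg1 j hj.1 c hj.2, vP_word a n H.hn b s H.hh1 j hj.1 c hj.2,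
      vP_A H b s j hj.1 c hj.2, ← hrel]
    generalize (j - ((c : ℕ) : ℤ)) / n = q
    generalize s⁻¹ * b * s = B
    group
  · have hv : (fun p => vP a n b s p c) (a, j) = 1 := by
      simp only [vP]
      rw [if_neg]
      rintro ⟨-, h1, h2⟩
      exact hj ⟨h1, h2⟩
    rw [e03_coord (vP a n b s) c (sh j g), e03_coord (vP a n b s) c (sh j h),
      lift_sh_ncl H.hg0 _ j hv, lift_sh_ncl H.hh0 _ j hv]
    group

/-- PROOF. `sh j (A⁻¹ g A h⁻¹)`: `g`, `h` (shifted) do not involve `(a, n + j)` (`H.hg`, `H.hh`,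
`H.ha`, `H.hk`; `fox_av`), so `fox_conj_top`. The value of `sh j g` has at the coordinate
`c = j % n` the value `conj (b ^ m) ≠ 1` (`vP_word`, torsion-free, `H.hm`), so `single_sub_one_ne_zero`.
`fox … (a, n + j) (sh j A) ≠ 0` by `fox_ne_zero_of_expo` (`expo (a, n + j) (sh j A) = expo (a, n) A`).
`(Fin n → Γ)` has unique products, so no zero divisors. -/
theorem vP_top {a : β} {n : ℕ} {X : Set β} {k : β → ℤ} {A g h : FreeGroup (β × ℤ)}
    (H : RelHyp a n X k A g h) (hΓ : UniqueProds Γ) {b : Γ} (hb : b ≠ 1) (s : Γ) (j : ℕ) :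
    fox (vP a n b s) (a, (n : ℤ) + j) (sh (j : ℤ) (A⁻¹ * g * A * h⁻¹)) ≠ 0 := by
  classical
  have hUP : UniqueProds (Fin n → Γ) := inferInstance
  have hm : ∀ w : FreeGroup (β × ℤ), w ∈ Av {p : β × ℤ | p.1 ∈ X ∧ k p.1 ≤ p.2} →
      fox (vP a n b s) (a, (n : ℤ) + j) (sh (j : ℤ) w) = 0 := by
    intro w hw
    refine fox_av (sh_mem_Av (j : ℤ) hw) ?_ _
    change a ∈ X ∧ k a ≤ (n : ℤ) + j - j
    rw [H.hk]
    exact ⟨H.ha, by omega⟩
  have hsh : sh (j : ℤ) (A⁻¹ * g * A * h⁻¹) =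
      (sh (j : ℤ) A)⁻¹ * sh (j : ℤ) g * sh (j : ℤ) A * (sh (j : ℤ) h)⁻¹ := by
    simp only [map_mul, map_inv]
  rw [hsh, fox_conj_top (hm g H.hg) (hm h H.hh)]
  refine mul_ne_zero ?_ (mul_ne_zero (single_sub_one_ne_zero ?_) ?_)
  · intro h0
    have h1 := (MonoidAlgebra.single_eq_zero).1 h0
    exact one_ne_zero h1
  · intro h0
    have hnpos := H.hn
    let c : Fin n := ⟨j % n, Nat.mod_lt _ hnpos⟩
    have hc : (n : ℤ) ∣ (j : ℤ) - ((c : ℕ) : ℤ) := by
      change (n : ℤ) ∣ (j : ℤ) - ((j % n : ℕ) : ℤ)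
      rw [Int.natCast_mod]
      exact Int.dvd_self_sub_emod
    have h1 := vP_word a n hnpos b s H.hg1 (j : ℤ) (by positivity) c hc
    rw [h0, Pi.one_apply] at h1
    have h2 : b ^ (Multiplicative.toAdd (expo (a, (0 : ℤ)) g)) = 1 := by
      generalize ((j : ℤ) - ((c : ℕ) : ℤ)) / n = q at h1
      generalize b ^ (Multiplicative.toAdd (expo (a, (0 : ℤ)) g)) = y at h1
      have : y = s ^ q * (s ^ (-q) * y * s ^ q) * s ^ (-q) := by group
      rw [this, ← h1]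
      group
    refine zpow_ne_one_of_up hΓ hb ?_ h2
    intro h3
    exact H.hm (toAdd_eq_zero.1 h3)
  · refine fox_ne_zero_of_expo _ ?_
    rw [e03_expo_sh]
    exact H.he

end Pool.Agent.H47U
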