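import Pool.Agent.Lib.H47U.A07
import Pool.Agent.Lib.H47U.A08

/-! CHUNK E04 (S/M): `Det` for finite sets. -/

set_option autoImplicit false

namespace Pool.Agent.H47U

variable {P Q : Type} [Group P] [Group Q] {ρ : P →* Q}

theorem e04_ne (hQ : UniqueProds Q) (hD : Det ρ) (D : Finset P) :
    ∃ (S : Type) (_ : Group S) (π : S →* Q) (f : P →* S), Adm π ∧ π.comp f = ρ ∧
      ∀ d ∈ D, d ≠ 1 → f d ≠ 1 := by
  classical
  induction D using Finset.induction_on with
  | empty =>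
    exact ⟨Q, inferInstance, MonoidHom.id Q, ρ, adm_id hQ, by ext; rfl,
      fun d hd => absurd hd (Finset.notMem_empty d)⟩
  | insert d D _ ih =>
    obtain ⟨S₁, _, π₁, f₁, hA₁, hf₁, h₁⟩ := ih
    by_cases hd : d = 1
    · refine ⟨S₁, inferInstance, π₁, f₁, hA₁, hf₁, fun d' hd' hne => ?_⟩
      rcases Finset.mem_insert.1 hd' with h | h
      · exact absurd (h.trans hd) hne
      · exact h₁ d' h hne
    · obtain ⟨S₂, _, π₂, f₂, hA₂, hf₂, h₂⟩ := hD d hd
      obtain ⟨S, _, π, p₁, p₂, hA, hp₁, hp₂, hu⟩ := adm_fib hA₁ hA₂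
      obtain ⟨f, hff₁, hff₂⟩ := hu P f₁ f₂ (hf₁.trans hf₂.symm)
      refine ⟨S, inferInstance, π, f, hA, ?_, fun d' hd' hne h => ?_⟩
      · rw [← hp₁, MonoidHom.comp_assoc, hff₁, hf₁]
      · rcases Finset.mem_insert.1 hd' with h' | h'
        · apply h₂
          rw [← h', ← hff₂, MonoidHom.comp_apply, h, map_one]
        · apply h₁ d' h' hne
          rw [← hff₁, MonoidHom.comp_apply, h, map_one]

/-- PROOF. For a finite set of pairs: induction, combining the homomorphism for the previous pairs with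
one for `p⁻¹ * p' ≠ 1` by `adm_fib`; start with `adm_id`, `f = ρ`. -/
theorem det_injOn (hQ : UniqueProds Q) (hD : Det ρ) (X : Finset P) :
    ∃ (S : Type) (_ : Group S) (π : S →* Q) (f : P →* S), Adm π ∧ π.comp f = ρ ∧
      Set.InjOn f (X : Set P) := by
  classical
  obtain ⟨S, _, π, f, hA, hf, h⟩ := e04_ne hQ hD ((X ×ˢ X).image fun q => q.1⁻¹ * q.2)
  refine ⟨S, inferInstance, π, f, hA, hf, fun p hp p' hp' he => ?_⟩
  by_contra hne
  have h1 : p⁻¹ * p' ∈ (X ×ˢ X).image fun q : P × P => q.1⁻¹ * q.2 :=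
    Finset.mem_image.2 ⟨(p, p'), Finset.mem_product.2 ⟨hp, hp'⟩, rfl⟩
  apply h _ h1
  · intro h2
    apply hne
    rw [inv_mul_eq_one] at h2
    exact h2
  · rw [map_mul, map_inv, he, inv_mul_cancel]

end Pool.Agent.H47U
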