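import Pool.Agent.Lib.H47U.B07
import Pool.Agent.Lib.H47U.C09
import Pool.Agent.Lib.H47U.E03
import Pool.Agent.Lib.H47U.E04

/-! CHUNK E05 (M): generic truncated solutions. -/

set_option autoImplicit false

namespace Pool.Agent.H47U

open FreeGroup (of lift)

variable {Γ β : Type} [Group Γ]

/-- PROOF. `b' = vP a n b s`, `F = FreeGroup (β × ℤ)`. Let `D = fox (fun p => kneg a (of p)) q w ∈ ℚ[F]`,
`D ≠ 0`. By `det_injOn` (and `det_free`) for the support of `D` there is `f : F →* S` over `lift b'`,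
injective on the support of `D`, so `mapDomain f D ≠ 0` (coefficient at `f z`). Let
`v₀ p = f (kneg a (of p))`: `v₀ (a, i) = 1` for `i < 0` and `π (v₀ p) = b' p` (`b' (a, i) = 1` for
`i < 0`); `fox v₀ q w = mapDomain f D ≠ 0` (`fox_map`). By `ext_seq` with `rel j = sh j r`,
`y j = (a, n + j)` (`vP_rel`, `vP_top`; the relator `sh i r` avoids the letters `(a, n + j)`, `j > i`)
there is `v` over `b'` with `v p = v₀ p` for all `p` not of the form `(a, n + j)`, `j ≥ 0`, and
`lift v (sh j r) = 1` for `j ≥ 0`. For `j < 0`: `v (a, j) = v₀ (a, j) = 1`, so `lift_sh_ncl` (for `g` and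
`h`) gives `lift v (sh j r) = 1`. `fox v q w = fox v₀ q w` by `fox_congr_av hw`. -/
theorem exists_tuple {a : β} {n : ℕ} {X : Set β} {k : β → ℤ} {A g h : FreeGroup (β × ℤ)}
    (H : RelHyp a n X k A g h) (hΓ : UniqueProds Γ) {b s : Γ} (hb : b ≠ 1)
    (hrel : (s⁻¹ * b * s) ^ (-(Multiplicative.toAdd (expo (a, (n : ℤ)) A))) *
      b ^ (Multiplicative.toAdd (expo (a, (0 : ℤ)) g)) *
      (s⁻¹ * b * s) ^ (Multiplicative.toAdd (expo (a, (n : ℤ)) A)) =
      b ^ (Multiplicative.toAdd (expo (a, (0 : ℤ)) h)))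
    {w : FreeGroup (β × ℤ)} (hw : w ∈ Av {p : β × ℤ | p.1 = a ∧ (n : ℤ) ≤ |p.2|}) (q : β × ℤ)
    (hD : fox (fun p => kneg a (of p)) q w ≠ 0) :
    ∃ (S : Type) (_ : Group S) (π : S →* (Fin n → Γ)) (v : β × ℤ → S), Adm π ∧
      (∀ p, π (v p) = vP a n b s p) ∧ (∀ j : ℤ, lift v (sh j (A⁻¹ * g * A * h⁻¹)) = 1) ∧
      fox v q w ≠ 0 := by
  classical
  have hQ : UniqueProds (Fin n → Γ) := by
    have h0 : UniqueProds Γ := hΓ
    infer_instance
  obtain ⟨S, hS, π, f, hadm, hcomp, hinj⟩ := det_injOn hQ (det_free hQ (vP a n b s))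
    (fox (fun p => kneg a (of p)) q w).coeff.support
  have hkneg : ∀ p : β × ℤ, kneg a (of p) = if p.1 = a ∧ p.2 < 0 then 1 else of p := by
    intro p
    rw [kneg, FreeGroup.lift_apply_of]
  have hv₀ : ∀ p, π (f (kneg a (of p))) = vP a n b s p := by
    intro p
    have h1 : π (f (kneg a (of p))) = lift (vP a n b s) (kneg a (of p)) :=
      DFunLike.congr_fun hcomp _
    rw [h1, hkneg]
    split_ifs with h2
    · rw [map_one]
      funext c
      rw [vP, if_neg]
      · rfl
      · rintro ⟨_, h3, _⟩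
        exact absurd h2.2 (not_lt.2 h3)
    · rw [FreeGroup.lift_apply_of]
  have hne : fox (fun p => f (kneg a (of p))) q w ≠ 0 := by
    have h1 : fox (fun p => f (kneg a (of p))) q w =
        MonoidAlgebra.mapDomain f (fox (fun p => kneg a (of p)) q w) :=
      fox_map f (fun p => kneg a (of p)) q w
    rw [h1]
    intro h2
    obtain ⟨z, hz⟩ : ∃ z, (fox (fun p => kneg a (of p)) q w).coeff z ≠ 0 := by
      by_contra hn
      push Not at hn
      apply hD
      apply MonoidAlgebra.ext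
      ext z
      rw [hn z]
      rfl
    have h3 : (MonoidAlgebra.mapDomain f (fox (fun p => kneg a (of p)) q w)).coeff (f z) =
        (fox (fun p => kneg a (of p)) q w).coeff z := by
      rw [MonoidAlgebra.coeff_mapDomain]
      exact Finsupp.mapDomain_apply' _ _ Set.Subset.rfl hinj (by
        rw [Finset.mem_coe, Finsupp.mem_support_iff]
        exact hz)
    rw [h2] at h3
    exact hz h3.symm
  have hav : ∀ i : ℕ, sh (i : ℤ) (A⁻¹ * g * A * h⁻¹) ∈
      Av {z : β × ℤ | ∃ j, i < j ∧ z = (a, (n : ℤ) + (j : ℕ))} := by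
    intro i
    have hgh : ∀ u ∈ Av {p : β × ℤ | p.1 ∈ X ∧ k p.1 ≤ p.2}, sh (i : ℤ) u ∈
        Av {z : β × ℤ | ∃ j, i < j ∧ z = (a, (n : ℤ) + (j : ℕ))} := by
      intro u hu
      refine map_mem_Av (fun p hp => ?_) hu
      rintro ⟨j, hij, he⟩
      apply hp
      have e1 : p.1 = a := congrArg Prod.fst he
      have e2 : p.2 + (i : ℤ) = (n : ℤ) + j := congrArg Prod.snd he
      refine ⟨by rw [e1]; exact H.ha, ?_⟩
      rw [e1, H.hk]
      omega
    have hAm : sh (i : ℤ) A ∈
        Av {z : β × ℤ | ∃ j, i < j ∧ z = (a, (n : ℤ) + (j : ℕ))} := by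
      refine map_mem_Av (fun p hp => ?_) H.hA
      rw [Set.notMem_compl_iff] at hp
      rintro ⟨j, hij, he⟩
      have e1 : p.1 = a := congrArg Prod.fst he
      have e2 : p.2 + (i : ℤ) = (n : ℤ) + j := congrArg Prod.snd he
      have e3 := hp.2
      rw [e1, H.hk] at e3
      omega
    rw [map_mul, map_mul, map_mul, map_inv, map_inv]
    exact mul_mem (mul_mem (mul_mem (inv_mem hAm) (hgh _ H.hg)) hAm) (inv_mem (hgh _ H.hh))
  obtain ⟨v, hv1, hv2, hv3⟩ := ext_seq hadm (fun p => f (kneg a (of p))) (vP a n b s) hv₀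
    (fun j => sh (j : ℤ) (A⁻¹ * g * A * h⁻¹)) (fun j => (a, (n : ℤ) + (j : ℕ))) hav
    (fun j => vP_rel H b s hrel j) (fun j => vP_top H hΓ hb s j)
  refine ⟨S, hS, π, v, hadm, hv1, fun j => ?_, ?_⟩
  · rcases le_or_gt 0 j with hj | hj
    · obtain ⟨m, rfl⟩ := Int.eq_ofNat_of_zero_le hj
      exact hv3 m
    · have h1 : v (a, j) = 1 := by
        rw [hv2 (a, j) (fun m he => ?_)]
        · show f (kneg a (of (a, j))) = 1
          rw [hkneg, if_pos ⟨rfl, hj⟩, map_one]
        · have e2 : j = (n : ℤ) + m := congrArg Prod.snd he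
          omega
      rw [map_mul, map_mul, map_mul, map_inv, map_inv, map_mul, map_mul, map_mul, map_inv,
        map_inv, lift_sh_ncl H.hg0 v j h1, lift_sh_ncl H.hh0 v j h1]
      group
  · rw [fox_congr_av hw q (v' := fun p => f (kneg a (of p)))]
    · exact hne
    · intro y hy
      refine hv2 y fun j he => hy ?_
      rw [he]
      refine ⟨rfl, ?_⟩
      rw [abs_of_nonneg (by positivity)]
      exact le_add_of_nonneg_right (Int.natCast_nonneg j)

end Pool.Agent.H47U
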