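import Pool.Agent.Lib.H47U.D01
import Pool.Agent.Lib.H47U.EDefs

/-! CHUNK E06 (M): the group `SeqG` is amenable with unique products. -/

set_option autoImplicit false

namespace Pool.Agent.H47U

open Pool.Agent.H63RA (Amen)

variable {Γ : Type} [Group Γ]

/-- the sequences with the bound `N` -/
def e06K (n : ℕ) (s : Γ) (N : ℕ) : Subgroup (SeqG (Γ := Γ) n s) where
  carrier := {g | (∀ j : ℤ, (N : ℤ) ≤ j → g.1 (j + n) = fun c => s⁻¹ * g.1 j c * s) ∧
    ∀ j : ℤ, j ≤ -(N : ℤ) → g.1 j = 1}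
  one_mem' := ⟨fun j _ => by
      funext c
      show (1 : Γ) = s⁻¹ * 1 * s
      group, fun j _ => rfl⟩
  mul_mem' := by
    rintro g h ⟨hJ, hJ'⟩ ⟨hK, hK'⟩
    refine ⟨fun j hj => ?_, fun j hj => ?_⟩
    · funext c
      show (g.1 (j + n) * h.1 (j + n)) c = s⁻¹ * (g.1 j c * h.1 j c) * s
      rw [hJ j hj, hK j hj]
      simp only [Pi.mul_apply]
      group
    · show g.1 j * h.1 j = 1
      rw [hJ' j hj, hK' j hj, mul_one]
  inv_mem' := by
    rintro g ⟨hJ, hJ'⟩
    refine ⟨fun j hj => ?_, fun j hj => ?_⟩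
    · funext c
      show ((g.1 (j + n))⁻¹) c = s⁻¹ * (g.1 j c)⁻¹ * s
      rw [hJ j hj]
      simp only [Pi.inv_apply]
      group
    · show (g.1 j)⁻¹ = 1
      rw [hJ' j hj, inv_one]

theorem e06_mem {n : ℕ} {s : Γ} {N : ℕ} {g : SeqG (Γ := Γ) n s} :
    g ∈ e06K n s N ↔ (∀ j : ℤ, (N : ℤ) ≤ j → g.1 (j + n) = fun c => s⁻¹ * g.1 j c * s) ∧
    ∀ j : ℤ, j ≤ -(N : ℤ) → g.1 j = 1 := Iff.rfl

theorem e06_mono {n : ℕ} {s : Γ} {N M : ℕ} (h : N ≤ M) : e06K n s N ≤ e06K n s M := by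
  intro g hg
  rw [e06_mem] at hg ⊢
  exact ⟨fun j hj => hg.1 j (by omega), fun j hj => hg.2 j (by omega)⟩

theorem e06_exists {n : ℕ} {s : Γ} (g : SeqG (Γ := Γ) n s) : ∃ N, g ∈ e06K n s N := by
  obtain ⟨J, h1, h2⟩ := g.2
  refine ⟨J.toNat, e06_mem.2 ⟨fun j hj => h1 j (by omega), fun j hj => h2 j (by omega)⟩⟩

theorem e06_finset {n : ℕ} {s : Γ} (S : Finset (SeqG (Γ := Γ) n s)) :
    ∃ N, ∀ g ∈ S, g ∈ e06K n s N := by
  classical
  induction S using Finset.induction_on with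
  | empty => exact ⟨0, fun g hg => absurd hg (Finset.notMem_empty g)⟩
  | insert a S _ ih =>
    obtain ⟨N, hN⟩ := ih
    obtain ⟨M, hM⟩ := e06_exists a
    refine ⟨max N M, fun g hg => ?_⟩
    rcases Finset.mem_insert.1 hg with rfl | hg
    · exact e06_mono (le_max_right _ _) hM
    · exact e06_mono (le_max_left _ _) (hN g hg)

theorem e06_amen (hΓ : AU Γ) {n : ℕ} (s : Γ) (N : ℕ) : Amen (e06K n s N) := by
  have hP : AU (Fin n → Γ) := hΓ.pi
  have hQ : AU (↥(Finset.Ico (-(N : ℤ)) (N + n)) → Fin n → Γ) := hP.pi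
  let f : e06K n s N →* (↥(Finset.Ico (-(N : ℤ)) (N + n)) → Fin n → Γ) :=
    { toFun := fun g x => g.1.1 x.1
      map_one' := rfl
      map_mul' := fun _ _ => rfl }
  refine (hQ.of_injective f ?_).1
  intro g h hgh
  have hf : ∀ j : ℤ, -(N : ℤ) ≤ j → j < N + n → g.1.1 j = h.1.1 j := fun j h1 h2 =>
    congrFun hgh (⟨j, Finset.mem_Ico.2 ⟨h1, h2⟩⟩ : ↥(Finset.Ico (-(N : ℤ)) (N + n)))
  obtain ⟨hg1, hg2⟩ := e06_mem.1 g.2
  obtain ⟨hh1, hh2⟩ := e06_mem.1 h.2
  have key : ∀ k : ℕ, g.1.1 ((N : ℤ) + k) = h.1.1 ((N : ℤ) + k) := by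
    intro k
    induction k using Nat.strong_induction_on with
    | _ k ih =>
      by_cases hk : k < n
      · exact hf _ (by omega) (by omega)
      · rcases Nat.eq_zero_or_pos n with hn | hn
        · subst hn
          exact funext fun c => c.elim0
        · have e : (N : ℤ) + k = ((N : ℤ) + ((k - n : ℕ) : ℤ)) + n := by omega
          rw [e, hg1 _ (by omega), hh1 _ (by omega), ih (k - n) (by omega)]
  refine Subtype.ext (Subtype.ext (funext fun j => ?_))
  rcases le_or_gt j (-(N : ℤ)) with hj | hj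
  · rw [hg2 j hj, hh2 j hj]
  · rcases lt_or_ge j N with hj' | hj'
    · exact hf j hj.le (by omega)
    · have e : j = (N : ℤ) + ((j - N).toNat : ℤ) := by omega
      rw [e]
      exact key _

/-- PROOF. `UniqueProds`: subgroup of a product. Amenable: `ψ : SeqG n s →* (Fin n → Fin n → Γ)`-like
germ map: for `g ∈ SeqG n s` with bound `J ≥ 0` the values `g (n K + i)`, `i < n`, `n K ≥ J`, conjugated
back, `ψ g i c = s ^ K * g (n K + i) c * s ^ (-K)`, do not depend on `K` (choose any; e.g. `K = J` if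
`n ≥ 1`; well-defined because `g (j + n) = s⁻¹ g j s`, all large `K` give the same value). `ψ` is a
homomorphism; its kernel consists of the `g` with `g j = 1` for all large `|j|`; a finite set of such
elements lies in the subgroup of the `g` with `g j = 1` for `|j| > N`, which embeds in
`(Finset.Icc (-N) N → Fin n → Γ)` (`Amen.of_local`, `Amen.pi`, `Amen.of_injective`). `Amen.of_ext`. -/
theorem AU_SeqG (hΓ : AU Γ) {n : ℕ} (hn : 0 < n) (s : Γ) : AU (SeqG (Γ := Γ) n s) := by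
  refine ⟨?_, ?_⟩
  · apply Amen.of_local
    intro S
    obtain ⟨N, hN⟩ := e06_finset S
    exact ⟨e06K n s N, hN, e06_amen hΓ s N⟩
  · have := hΓ.2
    have h1 : UniqueProds (ℤ → (Fin n → Γ)) := inferInstance
    exact up_of_injective h1 (SeqG (Γ := Γ) n s).subtype (SeqG (Γ := Γ) n s).subtype_injective

end Pool.Agent.H47U
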