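import Pool.Agent.Lib.H47U.C05B
import Pool.Agent.Lib.H47U.D01

/-! CHUNK E07 (M): from tuples to amenable quotients, non-equivariant version. -/

set_option autoImplicit false

namespace Pool.Agent.H47U

open FreeGroup (of lift)

variable {Q S β : Type} [Group Q] [Group S]

theorem e07_sh (v : β × ℤ → S) (j : ℤ) (w : FreeGroup (β × ℤ)) :
    lift v (sh j w) = lift (fun p : β × ℤ => v (p.1, p.2 + j)) w := by
  have h : (lift v).comp (sh j) = lift (fun p : β × ℤ => v (p.1, p.2 + j)) := by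
    apply FreeGroup.ext_hom
    intro p
    simp [sh]
  exact DFunLike.congr_fun h w

/-- the sequences over `𝒜` -/
def e07_H (π : S →* Q) (𝒜 : Subgroup (ℤ → Q)) : Subgroup (ℤ → S) := 𝒜.comap (π.compLeft ℤ)

theorem e07_mem {π : S →* Q} {𝒜 : Subgroup (ℤ → Q)} {g : ℤ → S} :
    g ∈ e07_H π 𝒜 ↔ (fun j => π (g j)) ∈ 𝒜 := Iff.rfl

theorem e07_AU {π : S →* Q} (hS : UniqueProds S) (hk : Group.IsSolvable π.ker)
    {𝒜 : Subgroup (ℤ → Q)} (h𝒜 : AU 𝒜) : AU (e07_H π 𝒜) := by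
  have hup : UniqueProds (e07_H π 𝒜) := by
    have hpi : UniqueProds (ℤ → S) := by
      have : ∀ _ : ℤ, UniqueProds S := fun _ => hS
      infer_instance
    exact up_of_injective hpi (e07_H π 𝒜).subtype (Subgroup.subtype_injective _)
  let p : e07_H π 𝒜 →* 𝒜 :=
    { toFun := fun g => ⟨fun j => π (g.1 j), g.2⟩
      map_one' := by
        apply Subtype.ext
        funext j
        exact map_one π
      map_mul' := fun g h => by
        apply Subtype.ext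
        funext j
        exact map_mul π _ _ }
  refine AU.of_ker hup p ?_ h𝒜
  have hpi : Group.IsSolvable (ℤ → π.ker) := solvable_pi hk
  have hmem : ∀ (x : p.ker) (j : ℤ), x.1.1 j ∈ π.ker := by
    intro x j
    have h1 : p x.1 = 1 := x.2
    exact congrFun (congrArg Subtype.val h1) j
  let g : p.ker →* (ℤ → π.ker) :=
    { toFun := fun x j => ⟨x.1.1 j, hmem x j⟩
      map_one' := rfl
      map_mul' := fun x y => rfl }
  have hg : Function.Injective g := by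
    intro x y hxy
    apply Subtype.ext
    apply Subtype.ext
    funext j
    exact congrArg Subtype.val (congrFun hxy j)
  exact Group.isSolvable_of_isSolvable_injective hg

/-- Evaluation. -/
def e07_ev (π : S →* Q) (𝒜 : Subgroup (ℤ → Q)) (j : ℤ) : e07_H π 𝒜 →* S where
  toFun g := g.1 j
  map_one' := rfl
  map_mul' _ _ := rfl

/-- The shift `(S g) j = g (j - 1)`. -/
def e07_S (π : S →* Q) (𝒜 : Subgroup (ℤ → Q))
    (hsh : ∀ g ∈ 𝒜, ∀ k : ℤ, (fun j => g (j + k)) ∈ 𝒜) : MulAut (e07_H π 𝒜) where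
  toFun g := ⟨fun j => g.1 (j - 1), hsh _ g.2 (-1)⟩
  invFun g := ⟨fun j => g.1 (j + 1), hsh _ g.2 1⟩
  left_inv g := by
    apply Subtype.ext
    funext j
    simp
  right_inv g := by
    apply Subtype.ext
    funext j
    simp
  map_mul' _ _ := rfl

theorem e07_S_zpow (π : S →* Q) (𝒜 : Subgroup (ℤ → Q))
    (hsh : ∀ g ∈ 𝒜, ∀ k : ℤ, (fun j => g (j + k)) ∈ 𝒜) (i : ℤ) (g : e07_H π 𝒜) (j : ℤ) :
    ((e07_S π 𝒜 hsh ^ i) g).1 j = g.1 (j - i) := by
  induction i using Int.induction_on generalizing g j with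
  | zero => simp
  | succ i ih =>
    rw [zpow_add, zpow_one, MulAut.mul_apply, ih]
    change g.1 (j - i - 1) = _
    rw [show j - (i : ℤ) - 1 = j - ((i : ℤ) + 1) by ring]
  | pred i ih =>
    rw [zpow_sub, zpow_one, MulAut.mul_apply, ih]
    change g.1 (j - -(i : ℤ) + 1) = _
    rw [show j - -(i : ℤ) + 1 = j - (-(i : ℤ) - 1) by ring]

/-- The action of `ℤ`. -/
noncomputable def e07_act (π : S →* Q) (𝒜 : Subgroup (ℤ → Q))
    (hsh : ∀ g ∈ 𝒜, ∀ k : ℤ, (fun j => g (j + k)) ∈ 𝒜) :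
    Multiplicative ℤ →* MulAut (e07_H π 𝒜) :=
  zpowersHom _ (e07_S π 𝒜 hsh)

theorem e07_act_apply (π : S →* Q) (𝒜 : Subgroup (ℤ → Q))
    (hsh : ∀ g ∈ 𝒜, ∀ k : ℤ, (fun j => g (j + k)) ∈ 𝒜) (i : ℤ) (g : e07_H π 𝒜) (j : ℤ) :
    (e07_act π 𝒜 hsh (Multiplicative.ofAdd i) g).1 j = g.1 (j - i) := by
  rw [e07_act, zpowersHom_apply, toAdd_ofAdd]
  exact e07_S_zpow π 𝒜 hsh i g j

/-- The lifted letters. -/
def e07_v {π : S →* Q} {𝒜 : Subgroup (ℤ → Q)} (v : β × ℤ → S)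
    (hv : ∀ p : β × ℤ, (fun j : ℤ => π (v (p.1, p.2 + j))) ∈ 𝒜) (p : β × ℤ) : e07_H π 𝒜 :=
  ⟨fun j => v (p.1, p.2 + j), hv p⟩

/-- The generators. -/
noncomputable def e07_f {π : S →* Q} {𝒜 : Subgroup (ℤ → Q)}
    (hsh : ∀ g ∈ 𝒜, ∀ k : ℤ, (fun j => g (j + k)) ∈ 𝒜) (v : β × ℤ → S)
    (hv : ∀ p : β × ℤ, (fun j : ℤ => π (v (p.1, p.2 + j))) ∈ 𝒜) :
    Option β → e07_H π 𝒜 ⋊[e07_act π 𝒜 hsh] Multiplicative ℤ
  | some x => SemidirectProduct.inl (e07_v v hv (x, 0))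
  | none => SemidirectProduct.inr (Multiplicative.ofAdd 1)

theorem e07_kap {π : S →* Q} {𝒜 : Subgroup (ℤ → Q)}
    (hsh : ∀ g ∈ 𝒜, ∀ k : ℤ, (fun j => g (j + k)) ∈ 𝒜) (v : β × ℤ → S)
    (hv : ∀ p : β × ℤ, (fun j : ℤ => π (v (p.1, p.2 + j))) ∈ 𝒜) (w : FreeGroup (β × ℤ)) :
    lift (e07_f hsh v hv) (kap w) =
      SemidirectProduct.inl (lift (e07_v v hv) w) := by
  have h : (lift (e07_f hsh v hv)).comp kap =
      (SemidirectProduct.inl : e07_H π 𝒜 →* e07_H π 𝒜 ⋊[e07_act π 𝒜 hsh] Multiplicative ℤ).comp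
        (lift (e07_v v hv)) := by
    apply FreeGroup.ext_hom
    rintro ⟨x, i⟩
    simp only [MonoidHom.comp_apply, FreeGroup.lift_apply_of, kap, map_mul, map_zpow]
    have h1 : ∀ i : ℤ, (e07_f hsh v hv none) ^ i =
        SemidirectProduct.inr (Multiplicative.ofAdd i) := by
      intro i
      change (SemidirectProduct.inr (Multiplicative.ofAdd (1 : ℤ)) :
        e07_H π 𝒜 ⋊[e07_act π 𝒜 hsh] Multiplicative ℤ) ^ i = _
      rw [← map_zpow, ← ofAdd_zsmul]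
      simp
    rw [h1, h1]
    change SemidirectProduct.inr (Multiplicative.ofAdd (-i)) *
      SemidirectProduct.inl (e07_v v hv (x, 0)) *
      SemidirectProduct.inr (Multiplicative.ofAdd i) = _
    have h3 : Multiplicative.ofAdd i = (Multiplicative.ofAdd (-i))⁻¹ := by
      rw [ofAdd_neg, inv_inv]
    rw [h3, ← SemidirectProduct.inl_aut]
    congr 1
    apply Subtype.ext
    funext j
    rw [e07_act_apply]
    change v (x, 0 + (j - -i)) = v (x, i + j)
    congr 2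
    ring
  exact DFunLike.congr_fun h w

theorem e07_val {π : S →* Q} {𝒜 : Subgroup (ℤ → Q)} (v : β × ℤ → S)
    (hv : ∀ p : β × ℤ, (fun j : ℤ => π (v (p.1, p.2 + j))) ∈ 𝒜) (w : FreeGroup (β × ℤ)) (j : ℤ) :
    (lift (e07_v v hv) w).1 j = lift v (sh j w) := by
  rw [e07_sh]
  have h : (e07_ev π 𝒜 j).comp (lift (e07_v v hv)) =
      lift (fun p : β × ℤ => v (p.1, p.2 + j)) := by
    apply FreeGroup.ext_hom
    intro p
    simp only [MonoidHom.comp_apply, FreeGroup.lift_apply_of]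
    rfl
  exact DFunLike.congr_fun h w

/-- PROOF. `H = {s : ℤ → S | (fun j => π (s j)) ∈ 𝒜}`, a subgroup of `ℤ → S` invariant under shifts;
`UniqueProds H`; `H → 𝒜` has kernel embedded in `ℤ → π.ker`, solvable (`solvable_pi`), so `AU H`
(`AU.of_ker`). `T = H ⋊ ℤ`, `(i • s) j = s (j - i)` (`AU.semidirect`, `AU.int`). `v̂ p ∈ H`,
`v̂ p j = v (p.1, p.2 + j)`. The homomorphism `FreeGroup (Option β) →* T`, `some x ↦ inl (v̂ (x, 0))`,
`none ↦ inr (ofAdd 1)`, maps `kap w` to `inl (lift v̂ w)` (check on the letters `(x, i)`: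
`t⁻ⁱ inl (v̂ (x, 0)) tⁱ = inl (v̂ (x, i))`), and `(lift v̂ w) j = lift v (sh j w)`; so it kills `kap r` and
induces `φ`, `bar φ = inl ∘ v̂`. With the evaluation `ev₀ : H →* S` at `0`, `ev₀ ∘ v̂ = v`: by `fox_map`,
`fox v e w = mapDomain ev₀ (fox v̂ e w)` and `fox (bar φ) e w = mapDomain inl (fox v̂ e w)`
(`MonoidAlgebra.mapDomain_injective`). (Compare `exists_Q` in file D06B.) -/
theorem realize' {π : S →* Q} (hS : UniqueProds S) (hk : Group.IsSolvable π.ker)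
    (𝒜 : Subgroup (ℤ → Q)) (h𝒜 : AU 𝒜) (hsh : ∀ g ∈ 𝒜, ∀ k : ℤ, (fun j => g (j + k)) ∈ 𝒜)
    (r : FreeGroup (β × ℤ)) (v : β × ℤ → S)
    (hv : ∀ p : β × ℤ, (fun j : ℤ => π (v (p.1, p.2 + j))) ∈ 𝒜)
    (hr : ∀ j : ℤ, lift v (sh j r) = 1) :
    ∃ (T : Type) (_ : Group T) (φ : OR r →* T), AU T ∧
      (∀ (e : β × ℤ) (w : FreeGroup (β × ℤ)), fox v e w ≠ 0 → fox (bar φ) e w ≠ 0) ∧
      ∀ w : FreeGroup (β × ℤ), lift v w ≠ 1 → lift (bar φ) w ≠ 1 := by
  have hrel : ∀ z ∈ ({kap r} : Set (FreeGroup (Option β))),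
      lift (e07_f hsh v hv) z = 1 := by
    rintro _ rfl
    rw [e07_kap]
    have h1 : lift (e07_v v hv) r = 1 := by
      apply Subtype.ext
      funext j
      rw [e07_val]
      exact hr j
    rw [h1, map_one]
  let φ : OR r →* e07_H π 𝒜 ⋊[e07_act π 𝒜 hsh] Multiplicative ℤ := PresentedGroup.toGroup hrel
  have hφ : ∀ z : FreeGroup (Option β),
      φ (PresentedGroup.mk _ z) = lift (e07_f hsh v hv) z := fun z => rfl
  have hbar : bar φ = fun p => (SemidirectProduct.inl :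
      e07_H π 𝒜 →* e07_H π 𝒜 ⋊[e07_act π 𝒜 hsh] Multiplicative ℤ) (e07_v v hv p) := by
    funext p
    rw [bar, hφ, e07_kap, FreeGroup.lift_apply_of]
  have hev : (v : β × ℤ → S) = fun p => e07_ev π 𝒜 0 (e07_v v hv p) := by
    funext p
    change _ = v (p.1, p.2 + 0)
    rw [add_zero]
  refine ⟨_, _, φ, AU.semidirect _ (e07_AU hS hk h𝒜) AU.int, ?_, ?_⟩
  · intro e w h h'
    apply h
    rw [hbar, fox_map] at h'
    have h1 : fox (e07_v v hv) e w = 0 := by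
      apply MonoidAlgebra.mapDomain_injective (R := ℚ)
        (f := (SemidirectProduct.inl :
          e07_H π 𝒜 →* e07_H π 𝒜 ⋊[e07_act π 𝒜 hsh] Multiplicative ℤ))
        SemidirectProduct.inl_injective
      rw [h', MonoidAlgebra.mapDomain_zero]
    rw [hev, fox_map, h1, MonoidAlgebra.mapDomain_zero]
  · intro w h h'
    apply h
    rw [lift_bar, hφ, e07_kap] at h'
    have h1 : lift (e07_v v hv) w = 1 := by
      apply SemidirectProduct.inl_injective (φ := e07_act π 𝒜 hsh)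
      rw [h', map_one]
    have h2 := e07_val v hv w 0
    rw [e07_sh] at h2
    simp only [add_zero] at h2
    rw [h1] at h2
    exact h2.symm

end Pool.Agent.H47U
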