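import Pool.Agent.Lib.H47U.D08
import Pool.Agent.Lib.H47U.E05
import Pool.Agent.Lib.H47U.E06
import Pool.Agent.Lib.H47U.E07

/-! The general two-sided families. -/

set_option autoImplicit false

namespace Pool.Agent.H47U

open FreeGroup (of lift)

variable {β : Type}

theorem two_sided_gen {a : β} {n : ℕ} {X : Set β} {k : β → ℤ} {A g h : FreeGroup (β × ℤ)}
    (H : RelHyp a n X k A g h) {y : β} {l : ℤ} (hA' : A ∈ Av {p : β × ℤ | p.1 = y ∧ p.2 ≤ l})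
    (hg' : g ∈ Av {p : β × ℤ | p.1 = y ∧ p.2 < l}) (hh' : h ∈ Av {p : β × ℤ | p.1 = y ∧ p.2 < l})
    (hD : fox (fun p => kneg a (of p)) (y, l) g ≠ 0 ∨ fox (fun p => kneg a (of p)) (y, l) h ≠ 0) :
    RAU (OR (A⁻¹ * g * A * h⁻¹)) := by
  have hne : ∀ {z : Multiplicative ℤ}, z ≠ 1 → Multiplicative.toAdd z ≠ 0 := fun h h' =>
    h (toAdd_eq_zero.1 h')
  obtain ⟨Γ, iΓ, b, s, hΓ, hb, hrel, hbe⟩ := exists_Gamma _ _ _ (hne H.he) (hne H.hm) (hne H.hm')
  -- the tuple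
  obtain ⟨S, iS, π, v, hS, hv, hvr, hvD⟩ : ∃ (S : Type) (_ : Group S) (π : S →* (Fin n → Γ))
      (v : β × ℤ → S), Adm π ∧ (∀ p, π (v p) = vP a n b s p) ∧
      (∀ j : ℤ, lift v (sh j (A⁻¹ * g * A * h⁻¹)) = 1) ∧
      (fox v (y, l) g ≠ 0 ∨ fox v (y, l) h ≠ 0) := by
    rcases hD with hD | hD
    · obtain ⟨S, iS, π, v, h1, h2, h3, h4⟩ := exists_tuple H hΓ.2 hb hrel H.hg1 (y, l) hD
      exact ⟨S, iS, π, v, h1, h2, h3, Or.inl h4⟩
    · obtain ⟨S, iS, π, v, h1, h2, h3, h4⟩ := exists_tuple H hΓ.2 hb hrel H.hh1 (y, l) hD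
      exact ⟨S, iS, π, v, h1, h2, h3, Or.inr h4⟩
  obtain ⟨T, iT, φ, hT, hfox, hlift⟩ := realize' hS.up hS.solv (SeqG n s) (AU_SeqG hΓ H.hn s)
    (fun g hg k => SeqG_shift hg k) (A⁻¹ * g * A * h⁻¹) v
    (fun p => by simp only [hv]; exact vP_seq a n H.hn b s p) hvr
  -- the coordinate `0` of the base
  let c : Fin n := ⟨0, H.hn⟩
  let q : S →* Γ := (Pi.evalMonoidHom (fun _ : Fin n => Γ) c).comp π
  have hc : ((c : ℕ) : ℤ) = 0 := rfl
  have hqA : q (lift v A) = (s⁻¹ * b * s) ^ (Multiplicative.toAdd (expo (a, (n : ℤ)) A)) := by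
    have h1 : q (lift v A) = lift (vP a n b s) (sh 0 A) c := by
      rw [sh_zero]
      have h2 : π (lift v A) = lift (vP a n b s) A := by
        have h3 : π.comp (lift v) = lift (vP a n b s) := by
          ext p
          simp [hv]
        exact DFunLike.congr_fun h3 A
      exact congrFun h2 c
    rw [h1, vP_A H b s 0 le_rfl c (by rw [hc]; simp), hc]
    simp
  have hqp : ∀ p : β × ℤ, p ∉ {p : β × ℤ | p.1 = a ∧ (n : ℤ) ≤ |p.2|} →
      q (v p) ∈ Subgroup.zpowers b := by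
    rintro ⟨x, i⟩ hp
    have h1 : q (v (x, i)) = vP a n b s (x, i) c := congrFun (hv (x, i)) c
    rw [h1, vP]
    split_ifs with h
    · obtain ⟨h2, h3, h4⟩ := h
      rw [hc, sub_zero] at h4 ⊢
      simp only at h2 h3 h4
      have h5 : i < n := by
        by_contra h6
        exact hp ⟨h2, le_trans (not_lt.1 h6) (le_abs_self _)⟩
      have h6 : i = 0 := Int.eq_zero_of_dvd_of_nonneg_of_lt h3 h5 h4
      rw [h6]
      simp
    · exact one_mem _
  have htop : fox v (a, (n : ℤ)) (A⁻¹ * g * A * h⁻¹) ≠ 0 := by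
    intro h0
    have h1 := vP_top H hΓ.2 hb s 0
    rw [Nat.cast_zero, sh_zero, add_zero] at h1
    apply h1
    have h2 : vP a n b s = fun p => π (v p) := by
      funext p
      rw [hv]
    rw [h2, fox_map, h0, MonoidAlgebra.mapDomain_zero]
  have hyl : ((y, l) : β × ℤ) ∈ {p : β × ℤ | p.1 = y ∧ p.2 ≤ l} := ⟨rfl, le_rfl⟩
  have hbot : fox v (y, l) (A⁻¹ * g * A * h⁻¹) ≠ 0 := by
    have h1 := hvr 0
    rw [sh_zero] at h1
    refine fox_conj_ne H.hg1 H.hh1 (y, l) v q (Subgroup.zpowers b) hqp (fox_av hA' hyl v) h1 ?_ hvD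
    rw [hqA]
    exact hbe
  have hA'' : A ∈ Av {p : β × ℤ | p.1 = y ∧ p.2 < l} := by
    refine Av_anti ?_ hA'
    rintro ⟨x, i⟩ ⟨h1, h2⟩
    exact ⟨h1, le_of_lt h2⟩
  have hAn : lift (bar φ) A ≠ 1 := by
    apply hlift
    intro h1
    apply hbe
    rw [← hqA, h1, map_one]
    exact one_mem _
  have hk := H.hk
  have htop' : fox (bar φ) (a, k a) (A⁻¹ * g * A * h⁻¹) ≠ 0 := by
    rw [hk]
    exact hfox _ _ htop
  exact (rs_conj hT.2 H.hA H.hg H.hh H.ha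
    (mul_mem (mul_mem (mul_mem (inv_mem hA'') hg') hA'') (inv_mem hh')) φ (Or.inr hAn) htop'
    (hfox _ _ hbot)).rau hT

end Pool.Agent.H47U
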