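import Pool.Agent.Lib.H47U.E08

/-! The relators `c⁻¹ a^m c a^{-m'}`, `c = κ₁ a_nᵉ κ₂`, from the general theorem. -/

set_option autoImplicit false

namespace Pool.Agent.H47U

open FreeGroup (of lift)

variable {β : Type}

theorem up_unit : UniqueProds Unit := ⟨fun {A B} hA hB => by
  obtain ⟨a, ha⟩ := hA
  obtain ⟨b, hb⟩ := hB
  exact ⟨a, ha, b, hb, fun _ _ _ _ _ => ⟨rfl, rfl⟩⟩⟩

theorem up_free (α : Type) : UniqueProds (FreeGroup α) := by
  classical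
  refine ⟨fun {A B} hA hB => ?_⟩
  obtain ⟨S, iS, π, f, hAdm, -, hinj⟩ := det_injOn up_unit
    (det_free up_unit (fun _ : α => (1 : Unit))) (A ∪ B)
  obtain ⟨a', ha', b', hb', hu⟩ := hAdm.up.uniqueMul_of_nonempty (hA.image f) (hB.image f)
  obtain ⟨a0, ha0, rfl⟩ := Finset.mem_image.1 ha'
  obtain ⟨b0, hb0, rfl⟩ := Finset.mem_image.1 hb'
  refine ⟨a0, ha0, b0, hb0, fun x y hx hy hxy => ?_⟩
  have h1 := hu (Finset.mem_image_of_mem f hx) (Finset.mem_image_of_mem f hy)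
    (by rw [← map_mul, hxy, map_mul])
  exact ⟨hinj (Finset.mem_coe.2 (Finset.mem_union_left _ hx))
    (Finset.mem_coe.2 (Finset.mem_union_left _ ha0)) h1.1,
    hinj (Finset.mem_coe.2 (Finset.mem_union_right _ hy))
    (Finset.mem_coe.2 (Finset.mem_union_right _ hb0)) h1.2⟩

theorem kneg_of {a y : β} {i : ℤ} (h : ¬ (y = a ∧ i < 0)) : kneg a (of (y, i)) = of (y, i) := by
  unfold kneg
  rw [FreeGroup.lift_apply_of, if_neg h]

/-- The Fox derivative of a conjugate of a power of `a₀`. -/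
theorem fox_conj_pow {a y : β} {l m : ℤ} (hm : m ≠ 0) (κ : FreeGroup (β × ℤ))
    (h : ((y, l) : β × ℤ) = (a, 0) ∨ fox (fun p => kneg a (of p)) (y, l) κ ≠ 0) :
    fox (fun p => kneg a (of p)) (y, l) (κ⁻¹ * of (a, 0) ^ m * κ) ≠ 0 := by
  classical
  by_cases h0 : ((y, l) : β × ℤ) = (a, 0)
  · rw [h0]
    apply fox_ne_zero_of_expo
    intro h1
    apply hm
    rw [map_mul, map_mul, map_inv, mul_comm, mul_inv_cancel_left, map_zpow] at h1
    have h2 : expo (a, (0 : ℤ)) (of (a, (0 : ℤ)) : FreeGroup (β × ℤ)) = Multiplicative.ofAdd 1 := by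
      simp [expo]
    rw [h2, ← ofAdd_zsmul] at h1
    simpa using h1
  · have hκ := h.resolve_left h0
    have hup := up_free (β × ℤ)
    have h1 : fox (fun p => kneg a (of p)) (y, l) (of (a, (0 : ℤ)) ^ m) = 0 := by
      refine fox_av (T := {(y, l)}) (zpow_mem (of_mem_Av ?_) m) rfl _
      intro h2
      exact h0 (Set.mem_singleton_iff.1 h2).symm
    have h2 := fox_conj_top (b := fun p => kneg a (of p)) (x := (y, l)) (A := κ) (g := of (a, (0 : ℤ)) ^ m)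
      (h := 1) h1 (fox_one _ _)
    rw [inv_one, mul_one] at h2
    rw [h2]
    refine mul_ne_zero ?_ (mul_ne_zero (single_sub_one_ne_zero ?_) hκ)
    · intro h3
      exact one_ne_zero (MonoidAlgebra.single_eq_zero.1 h3)
    · have h3 : (fun p : β × ℤ => kneg a (of p)) = fun p => kneg a (of p) := rfl
      rw [map_zpow, FreeGroup.lift_apply_of, kneg_of (by simp)]
      intro h4
      have h5 := congrArg (expo (a, (0 : ℤ))) h4
      have h6 : expo (a, (0 : ℤ)) (of (a, (0 : ℤ)) : FreeGroup (β × ℤ)) = Multiplicative.ofAdd 1 := by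
        simp [expo]
      rw [map_zpow, map_one, h6, ← ofAdd_zsmul] at h5
      apply hm
      simpa using h5

theorem two_sided_std (a : β) (n : ℕ) (hn : 0 < n) (e m m' : ℤ) (he : e ≠ 0) (hm : m ≠ 0)
    (hm' : m' ≠ 0) {κ₁ κ₂ : FreeGroup (β × ℤ)}
    (h₁ : κ₁ ∈ Av {p : β × ℤ | p.1 = a ∧ (n : ℤ) ≤ |p.2|})
    (h₂ : κ₂ ∈ Av {p : β × ℤ | p.1 = a ∧ (n : ℤ) ≤ |p.2|}) {y : β} {l : ℤ}
    (h₁' : κ₁ ∈ Av {p : β × ℤ | p.1 = y ∧ p.2 < l}) (h₂' : κ₂ ∈ Av {p : β × ℤ | p.1 = y ∧ p.2 < l})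
    (hl : y = a → l ≤ 0) (hD : ((y, l) : β × ℤ) = (a, 0) ∨
      fox (fun p => kneg a (of p)) (y, l) κ₁ ≠ 0 ∨ fox (fun p => kneg a (of p)) (y, l) κ₂ ≠ 0) :
    RAU (OR (rel a n e m m' κ₁ κ₂)) := by
  classical
  have hsub : ∀ {κ : FreeGroup (β × ℤ)}, κ ∈ Av {p : β × ℤ | p.1 = a ∧ (n : ℤ) ≤ |p.2|} →
      κ ∈ Av {p : β × ℤ | p.1 ∈ ({a} : Set β) ∧ (n : ℤ) ≤ p.2} := by
    intro κ hκ
    refine Av_anti ?_ hκ
    rintro ⟨p, i⟩ ⟨hp, hi⟩
    exact ⟨hp, le_trans hi (le_abs_self _)⟩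
  have hn' : (0 : ℤ) < n := by exact_mod_cast hn
  have h0 : (of (a, (0 : ℤ)) : FreeGroup (β × ℤ)) ∈ Av {p : β × ℤ | p.1 = a ∧ (n : ℤ) ≤ |p.2|} := by
    apply of_mem_Av
    rintro ⟨-, h⟩
    simp only [abs_zero] at h
    omega
  have hof' : ∀ i : ℤ, 0 ≤ i → (of (a, i) : FreeGroup (β × ℤ)) ∈
      Av {p : β × ℤ | p.1 = y ∧ p.2 < l} := by
    intro i hi
    apply of_mem_Av
    rintro ⟨h, h'⟩
    simp only at h h'
    have := hl h.symm
    omega
  have hex : ∀ i : ℤ, expo (a, i) (of (a, i) : FreeGroup (β × ℤ)) = Multiplicative.ofAdd 1 := by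
    intro i
    simp [expo]
  have hexp : ∀ (i k : ℤ), k ≠ 0 → expo (a, i) (of (a, i) ^ k : FreeGroup (β × ℤ)) ≠ 1 := by
    intro i k hk h
    rw [map_zpow, hex, ← ofAdd_zsmul] at h
    apply hk
    simpa using h
  have hmem : ∀ (κ : FreeGroup (β × ℤ)) (k : ℤ), κ * of (a, 0) ^ k * κ⁻¹ ∈
      Subgroup.normalClosure {(of (a, (0 : ℤ)) : FreeGroup (β × ℤ))} := fun κ k =>
    Subgroup.normalClosure_normal.conj_mem _
      (zpow_mem (Subgroup.subset_normalClosure (Set.mem_singleton _)) k) κ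
  have H : RelHyp a n {a} (fun _ => (n : ℤ)) (of (a, (n : ℤ)) ^ e) (κ₁⁻¹ * of (a, 0) ^ m * κ₁)
      (κ₂ * of (a, 0) ^ m' * κ₂⁻¹) := by
    refine ⟨hn, rfl, rfl, ?_, ?_, ?_, ?_, ?_, ?_, ?_, hexp _ _ he, ?_, ?_⟩
    · apply zpow_mem
      apply of_mem_Av
      rw [Set.mem_compl_iff, not_not]
      exact ⟨rfl, rfl⟩
    · exact mul_mem (mul_mem (inv_mem (hsub h₁)) (zpow_mem (hsub h0) m)) (hsub h₁)
    · exact mul_mem (mul_mem (hsub h₂) (zpow_mem (hsub h0) m')) (inv_mem (hsub h₂))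
    · exact mul_mem (mul_mem (inv_mem h₁) (zpow_mem h0 m)) h₁
    · exact mul_mem (mul_mem h₂ (zpow_mem h0 m')) (inv_mem h₂)
    · have := hmem κ₁⁻¹ m
      rwa [inv_inv] at this
    · exact hmem κ₂ m'
    · rw [map_mul, map_mul, map_inv, mul_comm, mul_inv_cancel_left]
      exact hexp _ _ hm
    · rw [map_mul, map_mul, map_inv, mul_comm, inv_mul_cancel_left]
      exact hexp _ _ hm'
  have hyA : (of (a, (n : ℤ)) : FreeGroup (β × ℤ)) ^ e ∈ Av {p : β × ℤ | p.1 = y ∧ p.2 ≤ l} := by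
    apply zpow_mem
    apply of_mem_Av
    rintro ⟨h, h'⟩
    simp only at h h'
    have := hl h.symm
    omega
  have hr : rel a n e m m' κ₁ κ₂ = (of (a, (n : ℤ)) ^ e)⁻¹ * (κ₁⁻¹ * of (a, 0) ^ m * κ₁) *
      of (a, (n : ℤ)) ^ e * (κ₂ * of (a, 0) ^ m' * κ₂⁻¹)⁻¹ := by
    simp only [rel]
    try group
  rw [hr]
  refine two_sided_gen H hyA ?_ ?_ ?_ (y := y) (l := l)
  · exact mul_mem (mul_mem (inv_mem h₁') (zpow_mem (hof' 0 le_rfl) m)) h₁'
  · exact mul_mem (mul_mem h₂' (zpow_mem (hof' 0 le_rfl) m')) (inv_mem h₂')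
  · rcases hD with hD | hD | hD
    · exact Or.inl (fox_conj_pow hm κ₁ (Or.inl hD))
    · exact Or.inl (fox_conj_pow hm κ₁ (Or.inr hD))
    · right
      have h3 := fox_conj_pow (a := a) (y := y) (l := l) hm' κ₂⁻¹ (Or.inr ?_)
      · rwa [inv_inv] at h3
      · intro h4
        apply hD
        have h5 := fox_inv (fun p => kneg a (of p)) (y, l) κ₂⁻¹
        rw [inv_inv, h4, mul_zero, neg_zero] at h5
        exact h5

end Pool.Agent.H47U
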